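import Mathlib
import Pool.Agent.Lib.H98T.C08
import Pool.Agent.Lib.H98A.C07

set_option autoImplicit false

/-!
# H98A.C08: copy of H98T.C08 for forests
-/

namespace H98A

open Finset H98T

open Classical in
theorem c08_sum (g d kk : ℕ) (_hg : 2 ≤ g) (_hd : 1 ≤ d) {Lab : Type} (f : Fin (2 * g) → Fin d → Option Lab)
    (hF : d < ∑ i : Fin (2 * g), (Finset.univ.filter (fun x => f i x = none)).card + kk) :
    (∑ i, ((Finset.univ.filter (fun x => f i x ≠ none)).card : ℝ)) ≤ (2 * g - 1) * d + kk := by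
  have h1 : ∀ i, ((Finset.univ.filter (fun x => f i x ≠ none)).card : ℝ) =
      (d : ℝ) - ((Finset.univ.filter (fun x => f i x = none)).card : ℝ) := by
    intro i
    have h := Finset.card_filter_add_card_filter_not (s := (Finset.univ : Finset (Fin d))) (fun x => f i x = none)
    rw [Finset.card_univ, Fintype.card_fin] at h
    have h' : ((Finset.univ.filter (fun x => f i x = none)).card : ℝ) +
      ((Finset.univ.filter (fun x => ¬ f i x = none)).card : ℝ) = d := by exact_mod_cast h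
    linarith
  rw [Finset.sum_congr rfl fun i _ => h1 i, Finset.sum_sub_distrib, Finset.sum_const, Finset.card_univ, Fintype.card_fin]
  have h2 : (d : ℝ) ≤ (∑ i : Fin (2 * g), ((Finset.univ.filter (fun x => f i x = none)).card : ℝ)) + kk := by
    exact_mod_cast hF.le
  rw [nsmul_eq_mul]
  push_cast
  linarith

theorem EC_mainF (g : ℕ) (hg : 2 ≤ g) (C : Type) [Fintype C] [Nonempty C] (Lmax : ℕ) (hM : 1 ≤ Lmax) :
    ∃ NT : ℕ, ∀ (Lam kap th eta eta1 nu : ℝ), 1 ≤ Lam → 0 < kap →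
      0 ≤ (1 / 2) * Real.log (1 / kap) - (3 / 2) * Real.log Lam →
      ∀ (d kk : ℕ), 1 ≤ d → ∀ (Sg : Type) (SS : Finset Sg) (e : Sg → Fin (2 * g) → Equiv.Perm (Fin d))
        (A : Sg → LNet (Fin d) C (4 * g - 2)),
      (∀ s ∈ SS, (A s).Bd Lam kap th eta eta1 Lmax) →
      (∀ s ∈ SS, ((Finset.univ \ (A s).reg).card : ℝ) ≤ nu * d) →
      (∀ s ∈ SS, ∀ (i : Fin (2 * g)) x, (A s).b (osd g (sneg i)) (e s i x) = (A s).b (osd g (spos i)) x) →
      (∀ s ∈ SS, ∑ i : Fin (2 * g), (Finset.univ.filter (fun x => (A s).b (osd g (spos i)) x = none)).card ≤ d - 1) →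
      (∀ s ∈ SS, d < ∑ i : Fin (2 * g), (Finset.univ.filter (fun x => (A s).b (osd g (spos i)) x = none)).card + kk) →
      (∀ s ∈ SS, ∀ s' ∈ SS, (∀ x, (A s).typ x = (A s').typ x) →
        (∀ (i : Fin (2 * g)) x, (A s).b (osd g (spos i)) x ≠ none → e s i x = e s' i x) → s = s') →
      (SS.card : ℝ) ≤ ((d : ℝ) + 1) ^ NT * (d : ℝ) ^ kk *
        Real.exp (- (((4 * g - 4) - (4 * g - 2) * nu) * ((1 / 2) * Real.log (1 / kap) - (3 / 2) * Real.log Lam)
          - CK g (Fintype.card C) Lmax th eta eta1) * d) * ((d.factorial : ℝ)) ^ (2 * g - 1) := by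
  classical
  obtain ⟨TT, hTT⟩ := exists_types C (4 * g - 2) Lmax
  refine ⟨TT.card, ?_⟩
  intro Lam kap th eta eta1 nu hL hk hG d kk hd Sg SS e A hBd hnu hlab hF hF2 hrig
  have hd0 : (0 : ℝ) < d := by exact_mod_cast hd
  set G : ℝ := (1 / 2) * Real.log (1 / kap) - (3 / 2) * Real.log Lam with hGd
  set K : ℝ := CK g (Fintype.card C) Lmax th eta eta1 with hK
  set B : ℝ := ((2 * g - 1) * d + kk) * Real.log d - ((4 * g - 4) - (4 * g - 2) * nu) * G * d + (K - (2 * g - 1)) * d with hBdef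
  have key := count_abs (d := d) (k := 2 * g) (T := Typ C (4 * g - 2)) (Lab := Option (List C)) TT
    (fun i t => t.2.2 ⟨osd g (spos i), osd_lt g hg _⟩) (fun i t => t.2.2 ⟨osd g (sneg i), osd_lt g hg _⟩) SS e
    (fun s x => (A s).typ x) (fun s hs x => hTT d (A s) Lam kap th eta eta1 (hBd s hs) x)
    (fun s hs i x => hlab s hs i x)
    (fun s hs s' hs' h1 h2 => hrig s hs s' hs' (fun x => congrFun h1 x) (fun i x hx => h2 i x hx)) B
    (fun s hs => by
      have h1 := net_assembly (by omega : 1 ≤ 4 * g - 2) (A s) Lam kap th eta eta1 Lmax hL hk hM (hBd s hs)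
        (by rw [Fintype.card_fin]; omega)
      have h2 := glue_le (e s) (fun i x => (A s).b (osd g (spos i)) x) (fun i x => (A s).b (osd g (sneg i)) x)
        (fun i x => hlab s hs i x)
      have h3 := sum_sides g hg (fun o => Ent Finset.univ ((A s).b o))
      have h4 := c08_sum g d kk hg hd (fun (i : Fin (2 * g)) x => (A s).b (osd g (spos i)) x) (hF2 s hs)
      have hlogd : 0 ≤ Real.log (d : ℝ) := Real.log_natCast_nonneg d
      have h4' := mul_le_mul_of_nonneg_right h4 hlogd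
      have h5 := nN_ge g d hg hd (A s) (e s) (fun i x => hlab s hs i x) (hF s hs) nu (hnu s hs)
      rw [h3, Fintype.card_fin] at h1
      rw [Fintype.card_fin] at h2
      have h6 : ((4 * g - 4) - (4 * g - 2) * nu) * (d : ℝ) * G ≤ ((A s).nN : ℝ) * G := mul_le_mul_of_nonneg_right h5 hG
      have h7 : Ent Finset.univ (fun x => (A s).typ x) = Ent Finset.univ (A s).typ := rfl
      rw [h7]
      refine (add_le_add h1 h2).trans ?_
      rw [hBdef, hK]
      unfold CK
      push_cast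
      have h8 : ∑ i : Fin (2 * g), (Ent Finset.univ (fun x => (A s).b (osd g (spos i)) x) +
        Ent Finset.univ (fun x => (A s).b (osd g (sneg i)) x)) =
        ∑ i : Fin (2 * g), (Ent Finset.univ ((A s).b (osd g (spos i))) + Ent Finset.univ ((A s).b (osd g (sneg i)))) := rfl
      rw [h8]
      generalize (∑ i : Fin (2 * g), (Ent Finset.univ ((A s).b (osd g (spos i))) + Ent Finset.univ ((A s).b (osd g (sneg i))))) = SE
      nlinarith [h6, h4'])
  refine key.trans ?_
  rw [mul_assoc, mul_assoc]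
  refine mul_le_mul_of_nonneg_left ?_ (by positivity)
  have h1 : B = ((2 * g - 1 : ℕ) : ℝ) * ((d : ℝ) * Real.log d - d) + kk * Real.log d +
      - (((4 * g - 4) - (4 * g - 2) * nu) * G - K) * d := by
    have h2 : ((2 * g - 1 : ℕ) : ℝ) = 2 * g - 1 := by
      rw [Nat.cast_sub (by omega)]
      push_cast
      ring
    rw [h2, hBdef]
    ring
  rw [h1, Real.exp_add, Real.exp_add, Real.exp_nat_mul, Real.exp_nat_mul, Real.exp_log hd0]
  have h3 : Real.exp ((d : ℝ) * Real.log d - d) ^ (2 * g - 1) ≤ (d.factorial : ℝ) ^ (2 * g - 1) :=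
    pow_le_pow_left₀ (Real.exp_pos _).le (c08_fact d hd) _
  have h4 : 0 ≤ (d : ℝ) ^ kk * Real.exp (- (((4 * g - 4) - (4 * g - 2) * nu) * G - K) * d) := by positivity
  calc Real.exp ((d : ℝ) * Real.log d - d) ^ (2 * g - 1) * (d : ℝ) ^ kk * Real.exp (- (((4 * g - 4) - (4 * g - 2) * nu) * G - K) * d)
      = Real.exp ((d : ℝ) * Real.log d - d) ^ (2 * g - 1) * ((d : ℝ) ^ kk * Real.exp (- (((4 * g - 4) - (4 * g - 2) * nu) * G - K) * d)) := by ring
    _ ≤ (d.factorial : ℝ) ^ (2 * g - 1) * ((d : ℝ) ^ kk * Real.exp (- (((4 * g - 4) - (4 * g - 2) * nu) * G - K) * d)) :=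
        mul_le_mul_of_nonneg_right h3 h4
    _ = _ := by ring

end H98A
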