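import Mathlib
import Pool.Agent.Lib.H98T.Enc

set_option autoImplicit false

/-!
# H98A: almost all coverings (definitions)

`ρ : Fin 2 → Equiv.Perm V` is a pair of permutations.
-/

namespace H98A

open Finset H98T

/-- `U` is nonempty and invariant under the pair. -/
def Inv2 {V : Type*} (ρ : Fin 2 → Equiv.Perm V) (U : Finset V) : Prop := U.Nonempty ∧ ∀ x ∈ U, ∀ i, ρ i x ∈ U

/-- Expansion of the large sets, constant `1/100`. -/
def ExpandE {V : Type*} [Fintype V] [DecidableEq V] (ρ : Fin 2 → Equiv.Perm V) (e : ℝ) : Prop :=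
  ∀ U : Finset V, e * Fintype.card V ≤ U.card → 2 * U.card ≤ Fintype.card V →
    U.card ≤ 100 * ((U.image (ρ 0) \ U).card + (U.image (ρ 1) \ U).card)

/-- Spanning forest with fewer than `k` components. -/
def IsSpanF {V : Type*} [Fintype V] [DecidableEq V] (ρ : Fin 2 → Equiv.Perm V) (F : Finset (Fin 2 × V)) (k : ℕ) : Prop :=
  IsForest ρ F ∧ Fintype.card V < F.card + k

open Classical in
/-- The data for the entropy count (copy of `H98T.Enc` with a spanning forest with fewer than `kk` components). -/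
structure EncF {g : ℕ} {V : Type} [Fintype V] (hg : 2 ≤ g) (σ : Fin (2 * g) → Equiv.Perm V) (kk Nc Pm : ℕ)
    (A1 kap th e1 e2 : ℝ) where
  F : Finset (Fin 2 × V)
  tree : IsSpanF (two σ) F kk
  El : Dart (Nd g V) → Prop
  F0 : Dart (Nd g V) → Prop
  L : Dart (Nd g V) → List (Fin Nc)
  pc : Dart (Nd g V) → ℕ
  ctr : Nd g V → Fin Nc
  b : Dart (Nd g V) → ℕ
  El_inv : ∀ e, El e → ¬ FD hg σ F e → El (dinv hg σ e)
  L_inv : ∀ e, El e → ¬ FD hg σ F e → L (dinv hg σ e) = (L e).reverse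
  L_len : ∀ e, El e → (L e).length ≤ Pm
  F0_F : ∀ e, F0 e → FD hg σ F e ∧ (L e).length = 1
  cen : ∀ z, (∀ k j, El ((z.1, k), j)) → ∀ j, (L (z, j))[pc (z, j)]? = some (ctr z)
  edit : ∀ z, (∀ k j, El ((z.1, k), j)) → ∀ j,
    Edit ((L (z, j)).take (pc (z, j))) (((L (prv (z, j))).drop (pc (prv (z, j)) + 1)).reverse) (b (z, j))
  sumL : (∑ e : Dart (Nd g V), if El e then ((L e).length : ℝ) else 0) ≤ A1 * Fintype.card V
  fib : ∀ (Q : Fin Nc) (k : Fin (4 * g - 2)),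
    (Set.ncard {x : V | (∀ k' j, El ((x, k'), j)) ∧ ctr (x, k) = Q} : ℝ) ≤ kap * Fintype.card V
  sumb : (∑ e : Dart (Nd g V), if (∀ k j, El ((e.1.1, k), j)) then (b e : ℝ) else 0) ≤ th * Fintype.card V
  sumS : (∑ e : Dart (Nd g V), if El e ∧ ((FD hg σ F e ∧ ¬ F0 e) ∨ ¬ (∀ k j, El ((e.1.1, k), j))) then ((L e).length : ℝ) + 1 else 0)
    ≤ e1 * Fintype.card V
  numR : (Set.ncard {x : V | ¬ (∀ k j, El ((x, k), j))} : ℝ) ≤ e1 * Fintype.card V
  numF1 : (Set.ncard {e : Dart (Nd g V) | FD hg σ F e ∧ ¬ F0 e ∧ El e} : ℝ) ≤ e2 * Fintype.card V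

end H98A
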