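import Mathlib
import Pool.Agent.Lib.H98T.C10
import Pool.Agent.Lib.H98A.Defs

set_option autoImplicit false

/-!
# H98A.C10: copy of H98T.C10 for forests
-/

namespace H98A

open Finset H98T

open Classical in
theorem sum_Fside {g d : ℕ} (hg : 2 ≤ g) (σ : Fin (2 * g) → Equiv.Perm (Fin d)) (F : Finset (Fin 2 × Fin d)) :
    ∑ i : Fin (2 * g), (Finset.univ.filter (fun x => Fside σ F (x, sp i))).card = F.card := by
  rw [← Finset.card_sigma]
  have h1 : (Finset.univ.sigma (fun i : Fin (2 * g) => Finset.univ.filter (fun x : Fin d => Fside σ F (x, sp i)))).card = F.card := by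
    refine Finset.card_nbij' (fun p => ((⟨p.1.val % 2, Nat.mod_lt _ (by norm_num)⟩ : Fin 2), u σ (p.1.val % 2) p.2))
      (fun e => ⟨⟨e.1.val, by have := e.1.isLt; omega⟩, (u σ e.1.val)⁻¹ e.2⟩) ?_ ?_ ?_ ?_
    · rintro ⟨i, x⟩ h
      have h2 := (Finset.mem_filter.1 (Finset.mem_sigma.1 (Finset.mem_coe.1 h)).2).2
      obtain ⟨j, h3, h4, h5⟩ := h2
      rw [c10_edgeV] at h5
      simp only [sp] at h3 h4 h5
      have h6 : 4 * (i.val / 2) + i.val % 2 = i.val % 2 := by omega
      have h7 : j = (⟨i.val % 2, Nat.mod_lt _ (by norm_num)⟩ : Fin 2) := by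
        apply Fin.ext
        show j.val = i.val % 2
        omega
      rw [h7, h6] at h5
      exact Finset.mem_coe.2 h5
    · rintro ⟨j, v⟩ h
      refine Finset.mem_coe.2 (Finset.mem_sigma.2 ⟨Finset.mem_univ _, Finset.mem_filter.2 ⟨Finset.mem_univ _, j, ?_, ?_, ?_⟩⟩)
      · show 4 * (j.val / 2) + j.val % 2 < 4
        have := j.isLt
        omega
      · show j.val = (4 * (j.val / 2) + j.val % 2) % 2
        have := j.isLt
        omega
      · rw [c10_edgeV]
        have h6 : (sp (⟨j.val, by have := j.isLt; omega⟩ : Fin (2 * g))).val = j.val := by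
          show 4 * (j.val / 2) + j.val % 2 = j.val
          have := j.isLt
          omega
        rw [h6]
        have h7 : (u σ j.val) ((u σ j.val)⁻¹ v) = v := Equiv.apply_symm_apply _ _
        rw [h7]
        exact Finset.mem_coe.1 h
    · rintro ⟨i, x⟩ h
      have h2 := (Finset.mem_filter.1 (Finset.mem_sigma.1 (Finset.mem_coe.1 h)).2).2
      obtain ⟨j, h3, h4, h5⟩ := h2
      simp only [sp] at h3
      have h6 : i.val % 2 = i.val := by omega
      have h7 : (u σ (i.val % 2))⁻¹ ((u σ (i.val % 2)) x) = x := Equiv.symm_apply_apply _ _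
      simp only
      rw [h7]
      have h8 : (⟨i.val % 2, by omega⟩ : Fin (2 * g)) = i := Fin.ext h6
      rw [h8]
    · rintro ⟨j, v⟩ h
      have h6 : j.val % 2 = j.val := by
        have := j.isLt
        omega
      simp only [h6]
      have h7 : (u σ j.val) ((u σ j.val)⁻¹ v) = v := Equiv.apply_symm_apply _ _
      rw [h7]
  exact h1

/-- A forest has fewer edges than vertices. -/
theorem forest_card {d : ℕ} (hd : 1 ≤ d) (ρ : Fin 2 → Equiv.Perm (Fin d)) (F : Finset (Fin 2 × Fin d)) (hF : IsForest ρ F) : F.card ≤ d - 1 := by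
  have h1 := hF Finset.univ ⟨⟨0, hd⟩, Finset.mem_univ _⟩
  have h2 : inside ρ F Finset.univ = F := by
    ext e
    simp [inside]
  rw [h2, Finset.card_univ, Fintype.card_fin] at h1
  omega

end H98A
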