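import Mathlib
import Pool.Agent.Lib.H98T.CD
import Pool.Agent.Lib.H98A.Defs

set_option autoImplicit false

/-!
# H98A.CD: copy of H98T.CD for forests
-/

namespace H98A

open Finset H98T

noncomputable section

open Classical in
def blab {g : ℕ} {V : Type} [Fintype V] {hg : 2 ≤ g} {σ : Fin (2 * g) → Equiv.Perm V} {kk Nc Pm : ℕ} {A1 kap th e1 e2 : ℝ}
    (E : EncF hg σ kk Nc Pm A1 kap th e1 e2) (o : ℕ) (x : V) : Option (Option (List (Fin Nc))) :=
  if Fside σ E.F (x, sideO hg o) then none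
  else if E.El (sdart hg x (sideO hg o)) then
    some (some (rvl (decide (2 ≤ (sideO hg o).val % 4)) (E.L (sdart hg x (sideO hg o)))))
  else some none

def regE {g : ℕ} {V : Type} [Fintype V] {hg : 2 ≤ g} {σ : Fin (2 * g) → Equiv.Perm V} {kk Nc Pm : ℕ} {A1 kap th e1 e2 : ℝ}
    (E : EncF hg σ kk Nc Pm A1 kap th e1 e2) : Finset V :=
  open Classical in Finset.univ.filter (fun x => ∀ k j, E.El ((x, k), j))

end

end H98A
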