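import Mathlib
import Pool.Agent.Lib.H98T.C11
import Pool.Agent.Lib.H98A.CD

set_option autoImplicit false

/-!
# H98A.C11: copy of H98T.C11 for forests
-/

namespace H98A

open Finset H98T

variable {g : ℕ} {V : Type}

theorem blab_match [Fintype V] {hg : 2 ≤ g} {σ : Fin (2 * g) → Equiv.Perm V} {kk Nc Pm : ℕ} {A1 kap th e1 e2 : ℝ}
    (E : EncF hg σ kk Nc Pm A1 kap th e1 e2) (i : Fin (2 * g)) (x : V) :
    blab E (osd g (sneg i)) (glue σ i x) = blab E (osd g (spos i)) x := by
  have hp : sideO hg (osd g (spos i)) = sp i := sideO_osd hg (sp i)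
  have hn : sideO hg (osd g (sneg i)) = sn i := sideO_osd hg (sn i)
  have hi : iota σ (x, sp i) = (glue σ i x, sn i) := iota_sp σ x i
  have hi' : iota σ (glue σ i x, sn i) = (x, sp i) := by rw [← hi, iota_iota]
  have hF : Fside σ E.F (glue σ i x, sn i) ↔ Fside σ E.F (x, sp i) := by
    rw [← hi]
    exact Fside_iota σ E.F (x, sp i)
  unfold blab
  rw [hp, hn]
  by_cases h1 : Fside σ E.F (x, sp i)
  · rw [if_pos h1, if_pos (hF.2 h1)]
  · have h1' : ¬ Fside σ E.F (glue σ i x, sn i) := fun h => h1 (hF.1 h)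
    rw [if_neg h1, if_neg h1']
    have hd : dinv hg σ (sdart hg x (sp i)) = sdart hg (glue σ i x) (sn i) := by
      rw [dinv_sdart, hi]
    have hd' : dinv hg σ (sdart hg (glue σ i x) (sn i)) = sdart hg x (sp i) := by
      rw [dinv_sdart, hi']
    have hEl : E.El (sdart hg (glue σ i x) (sn i)) ↔ E.El (sdart hg x (sp i)) := by
      constructor
      · intro h
        have h2 := E.El_inv _ h (by rw [FD_sdart]; exact h1')
        rwa [hd'] at h2
      · intro h
        have h2 := E.El_inv _ h (by rw [FD_sdart]; exact h1)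
        rwa [hd] at h2
    by_cases h2 : E.El (sdart hg x (sp i))
    · rw [if_pos h2, if_pos (hEl.2 h2)]
      have h3 := E.L_inv _ h2 (by rw [FD_sdart]; exact h1)
      rw [hd] at h3
      rw [h3]
      have h4 : decide (2 ≤ (sn i).val % 4) = true := by
        apply decide_eq_true
        show 2 ≤ (4 * (i.val / 2) + i.val % 2 + 2) % 4
        omega
      have h5 : decide (2 ≤ (sp i).val % 4) = false := by
        apply decide_eq_false
        show ¬ 2 ≤ (4 * (i.val / 2) + i.val % 2) % 4
        omega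
      rw [h4, h5]
      unfold rvl
      simp
    · rw [if_neg h2, if_neg (fun h => h2 (hEl.1 h))]

theorem blab_none [Fintype V] {hg : 2 ≤ g} {σ : Fin (2 * g) → Equiv.Perm V} {kk Nc Pm : ℕ} {A1 kap th e1 e2 : ℝ}
    (E : EncF hg σ kk Nc Pm A1 kap th e1 e2) (s : Fin (4 * g)) (x : V) :
    blab E (osd g s) x = none ↔ Fside σ E.F (x, s) := by
  unfold blab
  rw [sideO_osd]
  constructor
  · intro h
    by_contra h1
    rw [if_neg h1] at h
    split_ifs at h
  · intro h
    rw [if_pos h]

end H98A
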