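import Mathlib
import Pool.Agent.Lib.H98T.C13
import Pool.Agent.Lib.H98A.C12

set_option autoImplicit false

/-!
# H98A.C13: copy of H98T.C13 for forests
-/

namespace H98A

open Finset H98T

open Classical in
theorem lnet_Bd {g d : ℕ} {hg : 2 ≤ g} {σ : Fin (2 * g) → Equiv.Perm (Fin d)} {kk Nc Pm : ℕ}
    {A1 kap th e1 e2 : ℝ} (E : EncF hg σ kk Nc Pm A1 kap th e1 e2) (A : LNet (Fin d) (Fin Nc) (4 * g - 2))
    (h1 : A.reg = regE E)
    (h2 : ∀ x k, ∀ hk : k < 4 * g - 2, (A.pat x k = 2 ↔ FD hg σ E.F ((x, ⟨k, hk⟩), 1) ∧ ¬ E.F0 ((x, ⟨k, hk⟩), 1)))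
    (h3 : ∀ x k j, ∀ hk : k < 4 * g - 2, A.l k j x = E.L ((x, ⟨k, hk⟩), j))
    (h4 : ∀ x k, ∀ hk : k < 4 * g - 2, A.c k x = E.ctr (x, ⟨k, hk⟩))
    (h5 : ∀ x ∈ A.reg, ∀ k j, ∀ hk : k < 4 * g - 2, (A.z k j x).length ≤ E.b ((x, ⟨k, hk⟩), j))
    (h6 : ∀ x ∈ A.reg, ∀ k j, k < 4 * g - 2 → ∀ e ∈ A.z k j x, e.1 ≤ Pm)
    (h7 : ∀ o x, A.b o x = blab E o x) :
    A.Bd A1 kap th e1 e2 Pm ∧ ((Finset.univ \ A.reg).card : ℝ) ≤ e1 * d := by
  have hreg : ∀ x, x ∈ A.reg ↔ ∀ k j, E.El ((x, k), j) := by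
    intro x
    rw [h1]
    exact c12_reg E x
  set G : Dart (Nd g (Fin d)) → ℝ := fun e =>
    if E.El e ∧ ((FD hg σ E.F e ∧ ¬ E.F0 e) ∨ ¬ (∀ k j, E.El ((e.1.1, k), j))) then ((E.L e).length : ℝ) + 1 else 0 with hG
  have hG0 : ∀ e, 0 ≤ G e := by
    intro e
    simp only [hG]
    split_ifs
    · positivity
    · exact le_rfl
  have hGS : ∑ e, G e ≤ e1 * Fintype.card (Fin d) := E.sumS
  refine ⟨⟨?_, ?_, ?_, ?_, ?_, ?_, ?_, ?_, ?_⟩, ?_⟩
  · -- len
    intro x hx k hk j
    rw [h3 x k j hk]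
    exact E.L_len _ ((hreg x).1 hx _ _)
  · -- lenb
    intro x o _
    rw [h7]
    unfold blab
    by_cases q1 : Fside σ E.F (x, sideO hg o)
    · rw [if_pos q1]
      exact Nat.zero_le _
    · rw [if_neg q1]
      by_cases q2 : E.El (sdart hg x (sideO hg o))
      · rw [if_pos q2]
        have q3 := E.L_len _ q2
        unfold bsz rvl
        simp only
        split_ifs
        · rw [List.length_reverse]
          exact q3
        · exact q3
      · rw [if_neg q2]
        exact Nat.zero_le _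
  · -- sum
    intro k hk j
    refine le_trans ?_ E.sumL
    refine le_trans (le_of_eq ?_) (c13_inj A.reg (fun x => (((x, ⟨k, hk⟩), j) : Dart (Nd g (Fin d)))) ?_
      (fun e => if E.El e then ((E.L e).length : ℝ) else 0) ?_)
    · refine Finset.sum_congr rfl fun x hx => ?_
      rw [if_pos ((hreg x).1 hx _ _), h3 x k j hk]
    · intro x _ x' _ h
      exact congrArg (fun e : Dart (Nd g (Fin d)) => e.1.1) h
    · intro e
      split_ifs
      · positivity
      · exact le_rfl
  · -- cen
    intro k hk q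
    refine le_trans ?_ (E.fib q ⟨k, hk⟩)
    rw [Nat.cast_le]
    rw [← Set.ncard_coe_finset]
    refine Set.ncard_le_ncard ?_ (Set.toFinite _)
    intro x hx
    obtain ⟨q1, q2⟩ := c13_filter _ _ _ _ (Finset.mem_coe.1 hx)
    refine ⟨(hreg x).1 q1, ?_⟩
    rw [← h4 x k hk]
    exact q2
  · -- edit
    refine le_trans ?_ E.sumb
    have q1 : ∑ x ∈ A.reg, ∑ k ∈ Finset.range (4 * g - 2), ∑ j, ((A.z k j x).length : ℝ) ≤
        ∑ x ∈ A.reg, ∑ k : Fin (4 * g - 2), ∑ j : Fin 3,
          (if (∀ k' j', E.El ((x, k'), j')) then (E.b ((x, k), j) : ℝ) else 0) := by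
      refine Finset.sum_le_sum fun x hx => ?_
      rw [Finset.sum_range]
      refine Finset.sum_le_sum fun k _ => Finset.sum_le_sum fun j _ => ?_
      rw [if_pos ((hreg x).1 hx)]
      exact Nat.cast_le.2 (h5 x hx k j k.isLt)
    refine q1.trans ?_
    rw [Fintype.sum_prod_type, Fintype.sum_prod_type]
    refine Finset.sum_le_sum_of_subset_of_nonneg (Finset.subset_univ _) fun x _ _ => ?_
    refine Finset.sum_nonneg fun k _ => Finset.sum_nonneg fun j _ => ?_
    split_ifs
    · positivity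
    · exact le_rfl
  · exact fun x hx k hk j => h6 x hx k j hk
  · -- f1
    refine le_trans ?_ hGS
    have q1 : ∑ x ∈ A.reg, ∑ k ∈ (Finset.range (4 * g - 2)).filter (fun k => A.pat x k = 2), ((A.l k 1 x).length : ℝ) ≤
        ∑ x ∈ A.reg, ∑ k : Fin (4 * g - 2), ∑ j : Fin 3, G ((x, k), j) := by
      refine Finset.sum_le_sum fun x hx => ?_
      rw [Finset.sum_filter, Finset.sum_range]
      refine Finset.sum_le_sum fun k _ => ?_
      refine le_trans ?_ (Finset.single_le_sum (f := fun j => G ((x, k), j)) (fun j _ => hG0 _) (Finset.mem_univ 1))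
      by_cases q2 : A.pat x k = 2
      · rw [if_pos q2]
        have q3 := (h2 x k k.isLt).1 q2
        simp only [hG]
        rw [if_pos ⟨(hreg x).1 hx _ _, Or.inl q3⟩, h3 x k 1 k.isLt]
        linarith
      · rw [if_neg q2]
        exact hG0 _
    refine q1.trans ?_
    rw [Fintype.sum_prod_type, Fintype.sum_prod_type]
    exact Finset.sum_le_sum_of_subset_of_nonneg (Finset.subset_univ _) fun x _ _ =>
      Finset.sum_nonneg fun k _ => Finset.sum_nonneg fun j _ => hG0 _
  · -- f1n
    refine le_trans ?_ E.numF1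
    rw [c13_ncard]
    set H : Dart (Nd g (Fin d)) → ℝ := fun e => if FD hg σ E.F e ∧ ¬ E.F0 e ∧ E.El e then (1 : ℝ) else 0 with hH
    have hH0 : ∀ e, 0 ≤ H e := by
      intro e
      simp only [hH]
      split_ifs
      · exact zero_le_one
      · exact le_rfl
    have q1 : ∑ x ∈ A.reg, (((Finset.range (4 * g - 2)).filter (fun k => A.pat x k = 2)).card : ℝ) ≤
        ∑ x ∈ A.reg, ∑ k : Fin (4 * g - 2), ∑ j : Fin 3, H ((x, k), j) := by
      refine Finset.sum_le_sum fun x hx => ?_
      rw [← Finset.sum_boole, Finset.sum_range]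
      refine Finset.sum_le_sum fun k _ => ?_
      refine le_trans ?_ (Finset.single_le_sum (f := fun j => H ((x, k), j)) (fun j _ => hH0 _) (Finset.mem_univ 1))
      by_cases q2 : A.pat x k = 2
      · rw [if_pos q2]
        have q3 := (h2 x k k.isLt).1 q2
        simp only [hH]
        rw [if_pos ⟨q3.1, q3.2, (hreg x).1 hx _ _⟩]
      · rw [if_neg q2]
        exact hH0 _
    refine q1.trans ?_
    rw [Fintype.sum_prod_type, Fintype.sum_prod_type]
    exact Finset.sum_le_sum_of_subset_of_nonneg (Finset.subset_univ _) fun x _ _ =>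
      Finset.sum_nonneg fun k _ => Finset.sum_nonneg fun j _ => hH0 _
  · -- rest
    refine le_trans ?_ hGS
    rw [← Finset.sum_product' (f := fun x o => (bsz (A.b o x) : ℝ))]
    refine le_trans (Finset.sum_le_sum (g := fun p : Fin d × ℕ => G (sdart hg p.1 (sideO hg p.2))) ?_)
      (c13_inj _ (fun p : Fin d × ℕ => sdart hg p.1 (sideO hg p.2)) ?_ G hG0)
    · rintro ⟨x, o⟩ hxo
      obtain ⟨q1, q2⟩ := Finset.mem_product.1 hxo
      have q3 : ¬ (∀ k j, E.El ((x, k), j)) := fun h => c13_sdiff _ _ _ _ q1 ((hreg x).2 h)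
      simp only
      rw [h7]
      unfold blab
      by_cases q4 : Fside σ E.F (x, sideO hg o)
      · rw [if_pos q4]
        refine le_trans (le_of_eq ?_) (hG0 _)
        simp [bsz]
      · rw [if_neg q4]
        by_cases q5 : E.El (sdart hg x (sideO hg o))
        · rw [if_pos q5]
          have q6 : G (sdart hg x (sideO hg o)) = ((E.L (sdart hg x (sideO hg o))).length : ℝ) + 1 := by
            simp only [hG]
            rw [if_pos ⟨q5, Or.inr q3⟩]
          rw [q6]
          have q7 : bsz (some (some (rvl (decide (2 ≤ (sideO hg o).val % 4)) (E.L (sdart hg x (sideO hg o)))))) =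
              (E.L (sdart hg x (sideO hg o))).length := by
            unfold bsz rvl
            simp only
            split_ifs
            · rw [List.length_reverse]
            · rfl
          rw [q7]
          linarith
        · rw [if_neg q5]
          refine le_trans (le_of_eq ?_) (hG0 _)
          simp [bsz]
    · rintro ⟨x, o⟩ hxo ⟨x', o'⟩ hxo' h
      obtain ⟨q1, q2⟩ := Finset.mem_product.1 (Finset.mem_coe.1 hxo)
      obtain ⟨q1', q2'⟩ := Finset.mem_product.1 (Finset.mem_coe.1 hxo')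
      have ho := Finset.mem_range.1 q2
      have ho' := Finset.mem_range.1 q2'
      simp only at h ho ho'
      have r1 : x = x' := congrArg (fun e : Dart (Nd g (Fin d)) => e.1.1) h
      have r2 : (dartOf hg (sideO hg o)).1 = (dartOf hg (sideO hg o')).1 := congrArg (fun e : Dart (Nd g (Fin d)) => e.1.2) h
      have r3 : (dartOf hg (sideO hg o)).2 = (dartOf hg (sideO hg o')).2 := congrArg (fun e : Dart (Nd g (Fin d)) => e.2) h
      have r4 := c11_sideOf_dartOf hg (sideO (g := g) hg o)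
      have r5 := c11_sideOf_dartOf hg (sideO (g := g) hg o')
      rw [r2, r3, r5] at r4
      have r6 := c13_sideO hg o' o (by omega) (by omega) (Option.some.inj r4)
      rw [r1, r6]
  · -- number of non-regular
    have q1 := E.numR
    rw [Fintype.card_fin] at q1
    refine le_trans (le_of_eq ?_) q1
    congr 1
    rw [← Set.ncard_coe_finset]
    congr 1
    ext x
    simp only [Finset.coe_sdiff, Finset.coe_univ, Set.mem_sdiff, Set.mem_univ, true_and, Finset.mem_coe, Set.mem_ofPred_eq]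
    rw [hreg]

end H98A
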