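import Mathlib
import Pool.Agent.Lib.H98T.C15
import Pool.Agent.Lib.H98A.C08
import Pool.Agent.Lib.H98A.C10
import Pool.Agent.Lib.H98A.C13

set_option autoImplicit false

/-!
# H98A.C15: copy of H98T.C15 for forests
-/

namespace H98A

open Finset H98T

theorem c15_tree {d : ℕ} (ρ : Fin 2 → Equiv.Perm (Fin d)) (F : Finset (Fin 2 × Fin d))
    (kk : ℕ) (h : @IsSpanF (Fin d) _ (fun a b => Classical.propDecidable (a = b)) ρ F kk) : IsSpanF ρ F kk := by
  have e : (fun a b : Fin d => Classical.propDecidable (a = b)) = instDecidableEqFin d := Subsingleton.elim _ _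
  rw [e] at h
  exact h

theorem enc_countF {g : ℕ} (hg : 2 ≤ g) : ∃ Cg : ℝ, 0 ≤ Cg ∧ ∀ (Nc Pm : ℕ) (A1 kap th e1 e2 : ℝ), 1 ≤ Nc → 1 ≤ Pm → 1 ≤ A1 → 0 < kap → kap ≤ 1 →
    0 ≤ th → 0 ≤ e1 → 0 ≤ e2 → 0 ≤ (1 / 2) * Real.log (1 / kap) - (3 / 2) * Real.log A1 →
    ∃ D : ℕ, ∀ d kk : ℕ, 1 ≤ d → ∀ S : Finset (Fin (2 * g) → Equiv.Perm (Fin d)),
      (∀ s ∈ S, IsCov s ∧ Nonempty (EncF hg s kk Nc Pm A1 kap th e1 e2)) →
      (S.card : ℝ) ≤ ((d : ℝ) + 1) ^ D * (d : ℝ) ^ kk *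
        Real.exp (-((d : ℝ) * ((4 * g - 4) * ((1 / 2) * Real.log (1 / kap) - (3 / 2) * Real.log A1)
          - Cg * (1 + e1 * (Real.log (2 * Nc) + Real.log (1 / kap) + Real.log A1)
            + (th + e2) * (Real.log ((Nc : ℝ) + 1) + Real.log ((Pm : ℝ) + 2)))))) * (d.factorial : ℝ) ^ (2 * g - 1) := by
  classical
  refine ⟨CE (4 * g - 2) + 4 * g + 20, by have := c15_CE (4 * g - 2); positivity, ?_⟩
  intro Nc Pm A1 kap th e1 e2 hN hP hA hk hk1 hth he1 he2 hG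
  have : Nonempty (Fin Nc) := ⟨⟨0, by omega⟩⟩
  obtain ⟨NT, hNT⟩ := EC_mainF g hg (Fin Nc) Pm hP
  refine ⟨NT, ?_⟩
  intro d kk hd S hS
  have hE : ∀ s : {s // s ∈ S}, Nonempty (EncF hg s.1 kk Nc Pm A1 kap th e1 e2) := fun s => (hS s.1 s.2).2
  let E : ∀ s : {s // s ∈ S}, EncF hg s.1 kk Nc Pm A1 kap th e1 e2 := fun s => Classical.choice (hE s)
  choose A q1 q2 q3 q4 q5 q6 q7 using fun s : {s // s ∈ S} => exists_lnet hN (E s)
  have hBd := fun s : {s // s ∈ S} => lnet_Bd (E s) (A s) (q1 s) (q2 s) (q3 s) (q4 s) (q5 s) (q6 s) (q7 s)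
  have hb : ∀ (s : {s // s ∈ S}) (i : Fin (2 * g)) (x : Fin d), (A s).b (osd g (spos i)) x = none ↔ Fside s.1 (E s).F (x, sp i) := by
    intro s i x
    rw [q7]
    exact blab_none (E s) (sp i) x
  have hsum : ∀ s : {s // s ∈ S}, ∑ i : Fin (2 * g), (Finset.univ.filter (fun x => (A s).b (osd g (spos i)) x = none)).card = (E s).F.card := by
    intro s
    rw [← sum_Fside hg s.1 (E s).F]
    refine Finset.sum_congr rfl fun i _ => ?_
    congr 1
    ext x
    simp only [Finset.mem_filter, Finset.mem_univ, true_and]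
    exact hb s i x
  have key := hNT A1 kap th e1 e2 e1 hA hk hG d kk hd {s // s ∈ S} Finset.univ (fun s i => glue s.1 i) A
    (fun s _ => (hBd s).1) (fun s _ => (hBd s).2)
    (fun s _ i x => by rw [q7, q7]; exact blab_match (E s) i x)
    (fun s _ => by
      rw [hsum s]
      exact forest_card hd _ _ (c15_tree _ _ _ (E s).tree).1)
    (fun s _ => by
      rw [hsum s]
      have h := (c15_tree _ _ _ (E s).tree).2
      rwa [Fintype.card_fin] at h)
    (fun s _ s' _ _ h2 => by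
      apply Subtype.ext
      refine rigid hg s.1 s'.1 (hS s.1 s.2).1 (hS s'.1 s'.2).1 (E s).F (c15_tree _ _ _ (E s).tree).1 fun i x hx => ?_
      exact h2 i x fun h => hx ((hb s i x).1 h))
  rw [Finset.card_univ, Fintype.card_coe, Fintype.card_fin] at key
  refine key.trans ?_
  have hnum := c15_num g hg Nc Pm A1 kap th e1 e2 hN hP hA hk hk1 hth he1 he2
  have hd0 : (0 : ℝ) ≤ d := Nat.cast_nonneg d
  refine mul_le_mul_of_nonneg_right ?_ (by positivity)
  refine mul_le_mul_of_nonneg_left ?_ (by positivity)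
  apply Real.exp_le_exp.2
  have h := mul_le_mul_of_nonneg_left hnum hd0
  nlinarith [h]

end H98A
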