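import Mathlib
import Pool.Agent.Lib.H98T.D05
import Pool.Agent.Lib.H98A.Defs

set_option autoImplicit false

/-!
# H98A.D05: copy of H98T.D05 for forests
-/

namespace H98A

open Finset H98T

variable {V : Type*} [Fintype V] [DecidableEq V] {g : ℕ}

/-- A valid code. -/
def CodeValidF (k : ℕ) (c : Code g V) : Prop :=
  Fintype.card V < c.1.1.card + k ∧ IsBij (Finset.univ \ c.1.1) (Finset.univ \ c.1.2) c.2.1 ∧
    ∀ p ∈ c.2.1, p.1.1 = p.2.1

theorem codeValidF_codeOf (hg : 1 ≤ g) (σ : Fin (2 * g) → Equiv.Perm V) (F : Finset (Fin 2 × V))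
    (k : ℕ) (hF : IsSpanF (two σ) F k) : CodeValidF k (codeOf hg σ F) := by
  classical
  refine ⟨?_, ?_, ?_⟩
  · have h1 : (codeOf hg σ F).1.1.card = F.card := by
      apply Finset.card_bij (fun a _ => (a.1, u σ a.1.val a.2))
      · intro a ha
        simp only [codeOf, Finset.mem_filter, Finset.mem_univ, true_and] at ha
        exact (d05_Fside_sp hg σ F a.1 a.2).mp ha
      · intro a _ b _ hab
        simp only [Prod.mk.injEq] at hab
        obtain ⟨h1, h2⟩ := hab
        rw [h1] at h2
        exact Prod.ext h1 ((u σ b.1.val).injective h2)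
      · intro b hb
        refine ⟨(b.1, (u σ b.1.val)⁻¹ b.2), ?_, ?_⟩
        · simp only [codeOf, Finset.mem_filter, Finset.mem_univ, true_and]
          rw [d05_Fside_sp]
          simpa using hb
        · simp
    rw [h1]
    exact hF.2
  · refine ⟨?_, ?_, ?_, ?_⟩
    · ext a
      simp only [codeOf, Finset.mem_image, Finset.mem_filter, Finset.mem_univ, true_and,
        Finset.mem_sdiff]
      constructor
      · rintro ⟨p, ⟨-, h2, -⟩, rfl⟩
        exact h2
      · intro h
        exact ⟨(a, (a.1, glue σ (kd hg a.1) a.2)), ⟨rfl, h, rfl⟩, rfl⟩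
    · ext a
      simp only [codeOf, Finset.mem_image, Finset.mem_filter, Finset.mem_univ, true_and,
        Finset.mem_sdiff]
      constructor
      · rintro ⟨p, ⟨h1, h2, h3⟩, rfl⟩
        rw [← h3, ← h1, d05_Fside_sn]
        exact h2
      · intro h
        refine ⟨((a.1, (glue σ (kd hg a.1))⁻¹ a.2), a), ⟨rfl, ?_, by simp⟩, rfl⟩
        intro hs
        apply h
        rw [← d05_Fside_sn] at hs
        simpa using hs
    · intro p hp p' hp' h
      simp only [codeOf, Finset.mem_filter, Finset.mem_univ, true_and] at hp hp'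
      refine Prod.ext h (Prod.ext ?_ ?_)
      · rw [← hp.1, ← hp'.1, h]
      · rw [← hp.2.2, ← hp'.2.2, h]
    · intro p hp p' hp' h
      simp only [codeOf, Finset.mem_filter, Finset.mem_univ, true_and] at hp hp'
      have h1 : p.1.1 = p'.1.1 := by rw [hp.1, hp'.1, h]
      refine Prod.ext (Prod.ext h1 ?_) h
      have h2 := hp.2.2
      have h3 := hp'.2.2
      rw [h1, h, ← h3] at h2
      exact (glue σ (kd hg p'.1.1)).injective h2
  · intro p hp
    simp only [codeOf, Finset.mem_filter, Finset.mem_univ, true_and] at hp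
    exact hp.1

theorem codeOf_injective (hg : 1 ≤ g) (σ σ' : Fin (2 * g) → Equiv.Perm V)
    (F F' : Finset (Fin 2 × V)) (h : IsCov σ) (h' : IsCov σ') (hF : IsForest (two σ) F)
    (hcode : codeOf hg σ F = codeOf hg σ' F') : σ = σ' := by
  classical
  have hpos : ∀ i (x : V), ¬ Fside σ F (x, sp i) → glue σ' i x = glue σ i x := by
    intro i x hx
    by_cases hi : 2 ≤ i.val
    · have h1 := congrArg (fun c : Code g V => c.2.2 ⟨i, hi⟩) hcode
      simp only [codeOf] at h1
      rw [h1]
    · have hi2 : i.val < 2 := by omega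
      have hkd : i = kd hg ⟨i.val, hi2⟩ := by
        apply Fin.ext; rfl
      have h1 : (codeOf hg σ F).2.1 = (codeOf hg σ' F').2.1 :=
        congrArg (fun c : Code g V => c.2.1) hcode
      have h2 : (((⟨i.val, hi2⟩ : Fin 2), x), ((⟨i.val, hi2⟩ : Fin 2), glue σ i x)) ∈
          (codeOf hg σ F).2.1 := by
        simp only [codeOf, Finset.mem_filter, Finset.mem_univ, true_and]
        rw [← hkd]
        exact ⟨hx, rfl⟩
      rw [h1] at h2
      simp only [codeOf, Finset.mem_filter, Finset.mem_univ, true_and] at h2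
      rw [← hkd] at h2
      exact h2.2
  have heq : ∀ c : V × Fin (4 * g), ¬ Fside σ F c → iota σ' c = iota σ c := by
    rintro ⟨x, s⟩ hc
    rcases eq_sp_or_sn s with hs | hs
    · rw [hs] at hc ⊢
      rw [iota_sp, iota_sp, hpos _ _ hc]
    · rw [hs] at hc ⊢
      rw [iota_sn, iota_sn]
      set i := gen s
      set y := (glue σ i)⁻¹ x with hy
      have hxy : x = glue σ i y := by rw [hy]; simp
      have h1 : ¬ Fside σ F (y, sp i) := by
        intro h1
        apply hc
        rw [hxy, ← iota_sp, Fside_iota]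
        exact h1
      have h2 := hpos i y h1
      have h3 : (glue σ' i)⁻¹ x = y := by
        rw [Equiv.Perm.inv_eq_iff_eq, h2, ← hxy]
      rw [h3]
  have h1 := leafPeel hg σ σ' h h' F hF heq
  exact (iota_injective σ' σ h1).symm

end H98A
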