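import Mathlib
import Pool.Agent.Lib.H98T.D06
import Pool.Agent.Lib.H98A.D05

set_option autoImplicit false

/-!
# H98A.D06: copy of H98T.D06 for forests
-/

namespace H98A

open Finset H98T

variable {V : Type*} [Fintype V] [DecidableEq V] {g : ℕ}

theorem fact_add_le (d k : ℕ) (hk : k ≤ d) : ((d + k).factorial : ℝ) ≤ (2 * (d : ℝ)) ^ k * (d.factorial : ℝ) := by
  induction k with
  | zero => simp
  | succ k ih =>
    have h1 := ih (by omega)
    have h2 : ((d + (k + 1) : ℕ) : ℝ) ≤ 2 * (d : ℝ) := by
      have : d + (k + 1) ≤ 2 * d := by omega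
      exact_mod_cast this
    rw [← add_assoc, Nat.factorial_succ, Nat.cast_mul, add_assoc, pow_succ]
    calc ((d + (k + 1) : ℕ) : ℝ) * ((d + k).factorial : ℝ) ≤ (2 * (d : ℝ)) * ((2 * (d : ℝ)) ^ k * (d.factorial : ℝ)) :=
          mul_le_mul h2 h1 (by positivity) (by positivity)
      _ = (2 * (d : ℝ)) ^ k * (2 * (d : ℝ)) * (d.factorial : ℝ) := by ring

open Classical in
theorem d06_fiber (hg : 1 ≤ g) (E : Finset (Fin (2 * g) × V × V))
    (S : Finset (Code g V)) (k : ℕ)
    (hS : ∀ c ∈ S, CodeValidF k c ∧ E ⊆ codeTriples hg c) (AB : Finset (Fin 2 × V) × Finset (Fin 2 × V))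
    (hAB : ∀ c ∈ S, c.1 = AB) :
    S.card ≤ (Fintype.card V + k - (E.filter (fun p => p.1.val < 2)).card).factorial *
      ∏ i : {i : Fin (2 * g) // 2 ≤ i.val},
        (Fintype.card V - (E.filter (fun p => p.1 = i.1)).card).factorial := by
  rcases S.eq_empty_or_nonempty with h0 | hne
  · rw [h0]; simp
  obtain ⟨c₀, hc₀⟩ := hne
  have hA : Fintype.card V < AB.1.card + k := by
    have := (hS c₀ hc₀).1.1
    rw [hAB c₀ hc₀] at this
    exact this
  have hsub : S ⊆ ({AB} : Finset _) ×ˢ ((S.image (fun c => c.2.1)) ×ˢ (S.image (fun c => c.2.2))) := by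
    intro c hc
    simp only [Finset.mem_product, Finset.mem_singleton, Finset.mem_image]
    exact ⟨hAB c hc, ⟨c, hc, rfl⟩, ⟨c, hc, rfl⟩⟩
  have hcard := Finset.card_le_card hsub
  rw [Finset.card_product, Finset.card_product, Finset.card_singleton, one_mul] at hcard
  refine hcard.trans (Nat.mul_le_mul ?_ ?_)
  · -- bijections
    let φ : Fin (2 * g) × V × V → (Fin 2 × V) × (Fin 2 × V) := fun p =>
      ((⟨p.1.val % 2, Nat.mod_lt _ (by norm_num)⟩, p.2.1),
       (⟨p.1.val % 2, Nat.mod_lt _ (by norm_num)⟩, p.2.2))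
    set E' := (E.filter (fun p => p.1.val < 2)).image φ with hE'
    have hE'card : E'.card = (E.filter (fun p => p.1.val < 2)).card := by
      rw [hE', Finset.card_image_of_injOn]
      intro p hp p' hp' h
      rw [Finset.mem_coe, Finset.mem_filter] at hp hp'
      simp only [φ, Prod.mk.injEq, Fin.mk.injEq] at h
      refine Prod.ext (Fin.ext ?_) (Prod.ext h.1.2 h.2.2)
      have h1 := h.1.1
      have h2 := hp.2
      have h3 := hp'.2
      omega
    have hb := card_bij_le (Finset.univ \ AB.1) (Finset.univ \ AB.2) E' (S.image (fun c => c.2.1)) (by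
      intro Γ hΓ
      rw [Finset.mem_image] at hΓ
      obtain ⟨c, hc, rfl⟩ := hΓ
      refine ⟨?_, ?_⟩
      · intro p hp
        rw [hE', Finset.mem_image] at hp
        obtain ⟨e, he, rfl⟩ := hp
        rw [Finset.mem_filter] at he
        have h1 := (hS c hc).2 he.1
        simp only [codeTriples, Finset.mem_filter, Finset.mem_univ, true_and] at h1
        rcases h1 with ⟨i, hi, hm⟩ | ⟨h2, -⟩
        · have : (⟨e.1.val % 2, Nat.mod_lt _ (by norm_num)⟩ : Fin 2) = i := by
            apply Fin.ext
            have hi' := i.isLt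
            have := congrArg Fin.val hi
            simp only [kd] at this
            simp only [this]
            omega
          simp only [φ, this]
          exact hm
        · omega
      · have h1 := (hS c hc).1.2.1
        rw [hAB c hc] at h1
        exact h1)
    have hD : (Finset.univ \ AB.1 : Finset (Fin 2 × V)).card ≤ Fintype.card V + k := by
      rw [Finset.card_sdiff_of_subset (Finset.subset_univ _), Finset.card_univ, Fintype.card_prod,
        Fintype.card_fin]
      omega
    rw [hE'card] at hb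
    exact hb.trans (Nat.factorial_le (Nat.sub_le_sub_right hD _))
  · -- permutations
    have hsub2 : S.image (fun c => c.2.2) ⊆
        Fintype.piFinset (fun i : {i : Fin (2 * g) // 2 ≤ i.val} =>
          Finset.univ.filter (fun π : Equiv.Perm V =>
            ∀ p ∈ (E.filter (fun p => p.1 = i.1)).image (fun p => p.2), π p.1 = p.2)) := by
      intro f hf
      rw [Finset.mem_image] at hf
      obtain ⟨c, hc, rfl⟩ := hf
      rw [Fintype.mem_piFinset]
      intro i
      rw [Finset.mem_filter]
      refine ⟨Finset.mem_univ _, ?_⟩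
      intro p hp
      rw [Finset.mem_image] at hp
      obtain ⟨e, he, rfl⟩ := hp
      rw [Finset.mem_filter] at he
      have h1 := (hS c hc).2 he.1
      simp only [codeTriples, Finset.mem_filter, Finset.mem_univ, true_and] at h1
      rcases h1 with ⟨j, hj, -⟩ | ⟨h2, hm⟩
      · exfalso
        have hj' := j.isLt
        have h3 := congrArg Fin.val hj
        simp only [kd] at h3
        have h4 := i.2
        rw [← he.2] at h4
        omega
      · have : (⟨e.1, h2⟩ : {i : Fin (2 * g) // 2 ≤ i.val}) = i := Subtype.ext he.2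
        rw [this] at hm
        exact hm
    refine (Finset.card_le_card hsub2).trans ?_
    rw [Fintype.card_piFinset]
    apply Finset.prod_le_prod'
    intro i _
    have h1 := card_perm_le ((E.filter (fun p => p.1 = i.1)).image (fun p => p.2))
    rw [Finset.card_image_of_injOn] at h1
    · convert h1
    · intro p hp p' hp' h
      rw [Finset.mem_coe, Finset.mem_filter] at hp hp'
      exact Prod.ext (hp.2.trans hp'.2.symm) h

open Classical in
theorem card_codes_leF (hg : 1 ≤ g) (E : Finset (Fin (2 * g) × V × V))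
    (hE : 2 * E.card ≤ Fintype.card V) (S : Finset (Code g V)) (k : ℕ) (hk : k ≤ Fintype.card V)
    (hS : ∀ c ∈ S, CodeValidF k c ∧ E ⊆ codeTriples hg c) :
    (S.card : ℝ) ≤ (16 : ℝ) ^ (Fintype.card V) * (2 * (Fintype.card V : ℝ)) ^ k *
      ((Fintype.card V).factorial : ℝ) ^ (2 * g - 1) *
      ((2 : ℝ) / (Fintype.card V : ℝ)) ^ E.card := by
  set d := Fintype.card V with hd
  set m := (E.filter (fun p => p.1.val < 2)).card with hm
  set b : {i : Fin (2 * g) // 2 ≤ i.val} → ℕ := fun i => (E.filter (fun p => p.1 = i.1)).card with hb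
  have hsplit : E.card = m + ∑ i, b i := d06_split E
  have hbi : ∀ i, b i ≤ E.card := fun i => Finset.card_le_card (Finset.filter_subset _ _)
  have hmE : m ≤ E.card := Finset.card_le_card (Finset.filter_subset _ _)
  -- fibres
  have h1 : S.card ≤ ∑ AB : Finset (Fin 2 × V) × Finset (Fin 2 × V),
      (d + k - m).factorial * ∏ i, (d - b i).factorial := by
    rw [Finset.card_eq_sum_card_fiberwise (f := fun c : Code g V => c.1) (t := Finset.univ)
      (fun _ _ => Finset.mem_coe.mpr (Finset.mem_univ _))]
    apply Finset.sum_le_sum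
    intro AB _
    apply d06_fiber hg E (S.filter (fun c => c.1 = AB)) k _ AB
    · intro c hc
      exact (Finset.mem_filter.mp hc).2
    · intro c hc
      exact hS c (Finset.mem_filter.mp hc).1
  rw [Finset.sum_const, Finset.card_univ, Fintype.card_prod, Fintype.card_finset,
    Fintype.card_prod, Fintype.card_fin, smul_eq_mul] at h1
  have h2 : (2 ^ (2 * Fintype.card V) * 2 ^ (2 * Fintype.card V) : ℕ) = 16 ^ d := by
    rw [← hd, ← pow_add, show (16 : ℕ) = 2 ^ 4 by norm_num, ← pow_mul]
    congr 1
    omega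
  rw [h2] at h1
  have h3 : ((d + k - m).factorial : ℝ) ≤ (2 / d) ^ m * ((d + k).factorial : ℝ) :=
    factorial_sub_le d (d + k) m (by omega) (by omega)
  have h3' := fact_add_le d k hk
  have h4 : (∏ i, ((d - b i).factorial : ℝ)) ≤ ∏ i, ((2 / (d : ℝ)) ^ (b i) * (d.factorial : ℝ)) := by
    apply Finset.prod_le_prod
    · intro i _; positivity
    · intro i _
      exact factorial_sub_le d d (b i) le_rfl (by have := hbi i; omega)
  rw [Finset.prod_mul_distrib, Finset.prod_pow_eq_pow_sum, Finset.prod_const, Finset.card_univ,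
    d06_card_sub hg] at h4
  calc (S.card : ℝ) ≤ ((16 ^ d * ((d + k - m).factorial * ∏ i, (d - b i).factorial) : ℕ) : ℝ) :=
        Nat.cast_le.mpr h1
    _ = (16 : ℝ) ^ d * (((d + k - m).factorial : ℝ) * ∏ i, ((d - b i).factorial : ℝ)) := by
        push_cast; rfl
    _ ≤ (16 : ℝ) ^ d * (((2 / d) ^ m * ((2 * (d : ℝ)) ^ k * (d.factorial : ℝ))) *
        ((2 / (d : ℝ)) ^ (∑ i, b i) * (d.factorial : ℝ) ^ (2 * g - 2))) := by
        apply mul_le_mul_of_nonneg_left _ (by positivity)
        apply mul_le_mul (h3.trans (mul_le_mul_of_nonneg_left h3' (by positivity))) h4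
        · apply Finset.prod_nonneg; intro i _; positivity
        · positivity
    _ = (16 : ℝ) ^ d * (2 * (d : ℝ)) ^ k * ((d.factorial : ℝ) ^ (2 * g - 1)) *
        ((2 : ℝ) / (d : ℝ)) ^ E.card := by
        rw [hsplit, pow_add, show 2 * g - 1 = (2 * g - 2) + 1 by omega, pow_succ]
        ring

end H98A
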