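import Pool.Agent.Lib.H98T.F16
import Pool.Agent.Lib.H98A.Defs

set_option autoImplicit false

/-!
# H98A.F16: forests with few components
-/

namespace H98A

open Finset H98T

variable {V : Type*} [Fintype V] [DecidableEq V] (ρ : Fin 2 → Equiv.Perm V)

/-- A maximal forest has fewer than `k` components if there are fewer than `k` disjoint invariant sets: the maximal tight sets are disjoint, invariant and cover `V`. -/
theorem isSpanF_of_maximal {F : Finset (Fin 2 × V)} (hF : IsForest ρ F)
    (hmax : ∀ e, e ∉ F → ¬ IsForest ρ (insert e F)) (k : ℕ) (hk : Few (Inv2 ρ) (Fintype.card V) k) : IsSpanF ρ F k := by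
  classical
  obtain ⟨C, hC⟩ : ∃ C : Finset (Finset V), ∀ T, T ∈ C ↔ Tight ρ F T ∧ ∀ U, Tight ρ F U → T ⊆ U → U = T :=
    ⟨univ.filter (fun T => Tight ρ F T ∧ ∀ U, Tight ρ F U → T ⊆ U → U = T), fun T => by simp⟩
  have hun : ∀ T ∈ C, ∀ U, Tight ρ F U → (T ∩ U).Nonempty → U ⊆ T := by
    intro T hT U hU hne
    have h1 := Tight.union ρ hF ((hC T).1 hT).1 hU hne
    have h2 := ((hC T).1 hT).2 _ h1 subset_union_left
    rw [← h2]
    exact subset_union_right
  have hdisj : ∀ T ∈ C, ∀ U ∈ C, T ≠ U → Disjoint T U := by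
    intro T hT U hU hne
    by_contra hcon
    rw [disjoint_iff_inter_eq_empty] at hcon
    have h1 := hun T hT U ((hC U).1 hU).1 (nonempty_iff_ne_empty.mpr hcon)
    have h2 := hun U hU T ((hC T).1 hT).1 (by rw [inter_comm]; exact nonempty_iff_ne_empty.mpr hcon)
    exact hne (Subset.antisymm h2 h1)
  have hinv : ∀ T ∈ C, Inv2 ρ T := by
    intro T hT
    refine ⟨((hC T).1 hT).1.1, fun x hx i => ?_⟩
    obtain ⟨U, hU, h1, h2⟩ : ∃ U, Tight ρ F U ∧ (i, x).2 ∈ U ∧ ρ (i, x).1 (i, x).2 ∈ U := by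
      by_cases he : (i, x) ∈ F
      · exact exists_tight_of_mem ρ hF _ he
      · exact exists_tight_of_not_forest ρ hF _ (hmax _ he)
    exact hun T hT U hU ⟨x, mem_inter.2 ⟨hx, h1⟩⟩ h2
  have hcov : ∀ x, ∃ T ∈ C, x ∈ T := by
    intro x
    have h0 : Tight ρ F {x} := by
      refine ⟨singleton_nonempty _, ?_⟩
      have := hF {x} (singleton_nonempty _)
      simp at this ⊢
      omega
    have hne : (univ.filter (fun T : Finset V => Tight ρ F T ∧ x ∈ T)).Nonempty := ⟨{x}, by simp [h0]⟩
    obtain ⟨T, hT, hTmax⟩ := exists_max_image _ Finset.card hne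
    rw [mem_filter] at hT
    refine ⟨T, (hC T).2 ⟨hT.2.1, fun U hU hTU => ?_⟩, hT.2.2⟩
    exact (eq_of_subset_of_card_le hTU (hTmax U (by rw [mem_filter]; exact ⟨mem_univ _, hU, hTU hT.2.2⟩))).symm
  have hcard : Fintype.card V = ∑ T ∈ C, T.card := by
    have h1 : C.biUnion id = univ := by
      apply eq_univ_iff_forall.2
      intro x
      obtain ⟨T, hT, hx⟩ := hcov x
      exact mem_biUnion.2 ⟨T, hT, hx⟩
    have h2 : (C.biUnion id).card = ∑ T ∈ C, (id T).card := card_biUnion (fun T hT U hU hne => hdisj T hT U hU hne)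
    rw [h1, card_univ] at h2
    exact h2
  have hin : ∑ T ∈ C, (inside ρ F T).card ≤ F.card := by
    have h2 : (C.biUnion (fun T => inside ρ F T)).card = ∑ T ∈ C, (inside ρ F T).card := by
      refine card_biUnion (fun T hT U hU hne => ?_)
      show Disjoint (inside ρ F T) (inside ρ F U)
      rw [disjoint_left]
      intro e he he'
      simp only [inside, mem_filter] at he he'
      exact disjoint_left.1 (hdisj T hT U hU hne) he.2.1 he'.2.1
    rw [← h2]
    apply card_le_card
    intro e he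
    rw [mem_biUnion] at he
    obtain ⟨T, -, he⟩ := he
    simp only [inside, mem_filter] at he
    exact he.1
  have hsum : ∑ T ∈ C, T.card = ∑ T ∈ C, (inside ρ F T).card + C.card := by
    rw [card_eq_sum_ones, ← sum_add_distrib]
    exact sum_congr rfl fun T hT => ((hC T).1 hT).1.2.symm
  have hlt : C.card < k := hk C (fun T hT => ⟨hinv T hT, card_le_univ _⟩) (fun T hT U hU hne => hdisj T hT U hU hne)
  exact ⟨hF, by omega⟩

/-- Every forest is contained in a forest with few components. -/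
theorem exists_spanF_of_forest {F₀ : Finset (Fin 2 × V)} (hF : IsForest ρ F₀) (k : ℕ) (hk : Few (Inv2 ρ) (Fintype.card V) k) :
    ∃ F, F₀ ⊆ F ∧ IsSpanF ρ F k := by
  classical
  have hne : (univ.filter (fun F => IsForest ρ F ∧ F₀ ⊆ F)).Nonempty := ⟨F₀, by simp [hF]⟩
  obtain ⟨F, hmem, hmax⟩ := exists_max_image _ Finset.card hne
  have h1 : IsForest ρ F ∧ F₀ ⊆ F := by simpa using hmem
  refine ⟨F, h1.2, isSpanF_of_maximal ρ h1.1 ?_ k hk⟩
  intro e he hfor
  have h2 : insert e F ∈ univ.filter (fun F => IsForest ρ F ∧ F₀ ⊆ F) := by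
    simp only [mem_filter, mem_univ, true_and]
    exact ⟨hfor, h1.2.trans (subset_insert _ _)⟩
  have h3 := hmax _ h2
  rw [card_insert_of_notMem he] at h3
  omega

end H98A
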