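import Pool.Agent.Lib.H98T.F15
import Pool.Agent.Lib.H98T.F17
import Pool.Agent.Lib.H98A.F16

set_option autoImplicit false

/-!
# H98A.F17: a forest with few components containing almost all pointer edges
-/

namespace H98A

open Finset H98T

variable {V : Type} [Fintype V] [DecidableEq V] {ρ : Fin 2 → Equiv.Perm V} (P : PForest ρ)

theorem exists_spanF [Nonempty V] (kk : ℕ) (hk : Few (Inv2 ρ) (Fintype.card V) kk) (t k : ℕ)
    (h : Few (Dense ρ) t k) :
    ∃ F : Finset (Fin 2 × V), IsSpanF ρ F kk ∧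
      t * (F \ Finset.univ.image P.ptr).card ≤ t * k + Fintype.card V := by
  obtain ⟨R, hR, hRc⟩ := P.exists_hit_closed t k h
  obtain ⟨F, hF0, hF⟩ := exists_spanF_of_forest ρ (P.isForest_ptr R hR) kk hk
  refine ⟨F, hF, le_trans (Nat.mul_le_mul_left _ ?_) hRc⟩
  have h1 : F \ Finset.univ.image P.ptr ⊆ F \ (Finset.univ \ R).image P.ptr :=
    sdiff_subset_sdiff (Subset.refl _) (image_subset_image (subset_univ _))
  have h2 := card_le_card h1
  have h3 := card_sdiff_add_card_eq_card hF0
  rw [card_image_of_injective _ P.ptr_injective] at h3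
  have h4 : (Finset.univ \ R).card + R.card = Fintype.card V := by
    rw [card_sdiff_add_card_eq_card (subset_univ R)]
    rfl
  have h5 : F.card < Fintype.card V := by
    have h6 := hF.1 Finset.univ (univ_nonempty)
    have h7 : inside ρ F Finset.univ = F := by
      ext e
      simp [inside]
    rw [h7, card_univ] at h6
    exact h6
  omega

open Classical in
theorem exists_treeF {ρ : Fin 2 → Equiv.Perm V} [Nonempty V] (P : PForest ρ) (r t4 k : ℕ) (ht : 2 * r + 4 ≤ t4) (kk : ℕ)
    (hk : Few (Inv2 ρ) (Fintype.card V) kk) (h : Few (Dense ρ) t4 k) :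
    ∃ F : Finset (Fin 2 × V), IsSpanF ρ F kk ∧
      ((F \ univ.image P.ptr).card : ℝ) + (univ.filter (fun v => ¬ Good ρ r v)).card ≤
        (1 + 2 ^ (r + 2) * (2 * r + 4)) * k + Fintype.card V / t4 := by
  obtain ⟨F, hF, hFc⟩ := exists_spanF P kk hk t4 k h
  refine ⟨F, hF, ?_⟩
  have h1 := card_not_good_le ρ r k (Few.mono h ht le_rfl)
  have h2 : ((univ.filter (fun v => ¬ Good ρ r v)).card : ℝ) ≤ 2 ^ (r + 2) * ((2 * r + 4) * k) := by
    exact_mod_cast h1
  have h3 : (t4 : ℝ) * ((F \ univ.image P.ptr).card : ℝ) ≤ t4 * k + Fintype.card V := by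
    exact_mod_cast hFc
  have ht4 : (0 : ℝ) < t4 := by
    have : 0 < t4 := by omega
    exact_mod_cast this
  have h4 : ((F \ univ.image P.ptr).card : ℝ) ≤ k + Fintype.card V / t4 := by
    have h5 : ((F \ univ.image P.ptr).card : ℝ) =
        (t4 * ((F \ univ.image P.ptr).card : ℝ)) / t4 := by
      field_simp
    rw [h5]
    have h6 : (k : ℝ) + Fintype.card V / t4 = (t4 * k + Fintype.card V) / t4 := by
      field_simp
    rw [h6]
    exact div_le_div_of_nonneg_right h3 ht4.le
  have h7 : (1 + 2 ^ (r + 2) * (2 * (r : ℝ) + 4)) * k = k + 2 ^ (r + 2) * ((2 * r + 4) * k) := by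
    ring
  rw [h7]
  linarith

end H98A
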