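import Pool.Agent.Lib.H98A.T9

set_option autoImplicit false

/-!
# H98A: almost all coverings, from the counting theorem
-/

open Finset

namespace H98A

open H32D H32N

/-- the genus is at most a constant multiple of the degree -/
theorem fin_root (g n d : ℕ) (hg : 2 ≤ g) (hn : 5 ≤ n) (hd : 1 ≤ d) :
    ((d * (g - 1) + 1 : ℕ) : ℝ) ^ (1 / ((n : ℝ) - 1)) ≤ g * (d : ℝ) ^ (1 / ((n : ℝ) - 1)) ∧ 1 ≤ (d : ℝ) ^ (1 / ((n : ℝ) - 1)) ∧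
      ((d : ℝ) ^ (1 / ((n : ℝ) - 1))) ^ (n - 1) = d := by
  have hnR : (5 : ℝ) ≤ n := by exact_mod_cast hn
  have hexp0 : 0 ≤ 1 / ((n : ℝ) - 1) := div_nonneg zero_le_one (by linarith)
  have hexp1 : 1 / ((n : ℝ) - 1) ≤ 1 := by
    rw [div_le_one (by linarith)]
    linarith
  have hdR : (1 : ℝ) ≤ d := by exact_mod_cast hd
  have hgR : (2 : ℝ) ≤ g := by exact_mod_cast hg
  refine ⟨?_, Real.one_le_rpow hdR hexp0, ?_⟩
  · have h2 : ((d * (g - 1) + 1 : ℕ) : ℝ) ≤ g * d := by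
      have : d * (g - 1) + 1 ≤ g * d := by
        obtain ⟨g', rfl⟩ : ∃ g', g = g' + 1 := ⟨g - 1, by omega⟩
        rw [Nat.add_sub_cancel]
        nlinarith
      exact_mod_cast this
    calc ((d * (g - 1) + 1 : ℕ) : ℝ) ^ (1 / ((n : ℝ) - 1)) ≤ ((g : ℝ) * d) ^ (1 / ((n : ℝ) - 1)) :=
          Real.rpow_le_rpow (Nat.cast_nonneg _) h2 hexp0
      _ = (g : ℝ) ^ (1 / ((n : ℝ) - 1)) * (d : ℝ) ^ (1 / ((n : ℝ) - 1)) := Real.mul_rpow (by linarith) (by linarith)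
      _ ≤ (g : ℝ) ^ (1 : ℝ) * (d : ℝ) ^ (1 / ((n : ℝ) - 1)) :=
          mul_le_mul_of_nonneg_right (Real.rpow_le_rpow_of_exponent_le (by linarith) hexp1) (by positivity)
      _ = g * (d : ℝ) ^ (1 / ((n : ℝ) - 1)) := by rw [Real.rpow_one]
  · have h : ((n - 1 : ℕ) : ℝ) = (n : ℝ) - 1 := by
      rw [Nat.cast_sub (by omega)]
      simp
    rw [← Real.rpow_natCast, ← Real.rpow_mul (Nat.cast_nonneg d), h, one_div, inv_mul_cancel₀, Real.rpow_one]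
    rw [← h]
    exact_mod_cast (by omega : n - 1 ≠ 0)

/-- a small thick radius gives a thick embedding into a ball of radius larger by one -/
theorem fin_emb {W : Type} [Fintype W] [DecidableEq W] {L : Cpx W} {n : ℕ} {x : ℝ} (h : thickRadius n L ≤ ENNReal.ofReal x) :
    ∃ f : (W → ℝ) → EuclideanSpace ℝ (Fin n), ThickEmb L n f ∧ ∀ y ∈ L.real, ‖f y‖ ≤ max x 0 + 1 := by
  have h1 : thickRadius n L < ENNReal.ofReal (max x 0 + 1) := by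
    refine lt_of_le_of_lt h ?_
    rw [ENNReal.ofReal_lt_ofReal_iff (by positivity)]
    have := le_max_left x 0
    linarith
  obtain ⟨R, ⟨f, hf, hR⟩, hlt⟩ := sInf_lt_iff.1 h1
  refine ⟨f, hf, fun y hy => ?_⟩
  have h2 := (hR y hy).trans hlt.le
  exact (ENNReal.ofReal_le_ofReal_iff (by positivity)).1 h2

theorem almost_all_of_count {V : Type} [Fintype V] [DecidableEq V] (K : Cpx V) (hK : IsSurface K) (g : ℕ) (hg : 2 ≤ g)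
    (hχ : K.euler = 2 - 2 * (g : ℤ)) (n : ℕ) (hn : 5 ≤ n)
    (hcount : ∀ (C0 : ℕ) (M : ℝ), ∃ (c : ℝ) (d0 : ℕ), 0 < c ∧ ∀ d : ℕ, d0 ≤ d →
      (Set.ncard {σ : Fin (2 * g) → Equiv.Perm (Fin d) | H98T.IsCov σ ∧ ∃ W : ℕ, (W : ℝ) ^ (n - 1) ≤ M * d ∧ H98T.Digi σ n C0 W} : ℝ) ≤
        Real.exp (-(c * d)) * (Set.ncard {σ : Fin (2 * g) → Equiv.Perm (Fin d) | H98T.IsCov σ ∧ H98T.Expand (H98T.two σ)} : ℝ)) :
    ∃ h : ℝ, 0 < h ∧ ∀ M : ℝ, ∃ (c : ℝ) (d0 : ℕ), 0 < c ∧ ∀ d : ℕ, d0 ≤ d →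
      (Set.ncard {L : Cpx (V × Fin d) | IsCovering Prod.fst L K ∧
          thickRadius n L ≤ ENNReal.ofReal (M * ((d * (g - 1) + 1 : ℕ) : ℝ) ^ (1 / ((n : ℝ) - 1)))} : ℝ) ≤
        Real.exp (-(c * d)) * (Set.ncard {L : Cpx (V × Fin d) | IsCovering Prod.fst L K ∧ IsSurface L ∧ Expands L.graph h} : ℝ) := by
  obtain ⟨C0, C, h1, hC, hh1, htop⟩ := topology2 K hK g hg hχ n
  refine ⟨h1, hh1, fun M => ?_⟩
  obtain ⟨c, d0, hc, hcov⟩ := hcount C0 ((C * (max M 0 * g + 2) + 1) ^ (n - 1))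
  refine ⟨c, max d0 1, hc, fun d hd => ?_⟩
  have hd1 : 1 ≤ d := le_trans (le_max_right _ _) hd
  have hle := hcov d (le_trans (le_max_left _ _) hd)
  obtain ⟨hup, hlow⟩ := htop d hd1
  obtain ⟨hG, hs1, hsn⟩ := fin_root g n d hg hn hd1
  obtain ⟨s, hs⟩ : ∃ s : ℝ, s = (d : ℝ) ^ (1 / ((n : ℝ) - 1)) := ⟨_, rfl⟩
  rw [← hs] at hG hs1 hsn
  have hM0 : 0 ≤ max M 0 := le_max_right _ _
  have hgR : (0 : ℝ) ≤ g := Nat.cast_nonneg _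
  -- the radius
  obtain ⟨R, hR⟩ : ∃ R : ℝ, R = max M 0 * (g * s) + 1 := ⟨_, rfl⟩
  have hR0 : 0 ≤ R := by
    rw [hR]
    have : 0 ≤ max M 0 * (g * s) := by positivity
    linarith
  have hsub : {L : Cpx (V × Fin d) | IsCovering Prod.fst L K ∧
      thickRadius n L ≤ ENNReal.ofReal (M * ((d * (g - 1) + 1 : ℕ) : ℝ) ^ (1 / ((n : ℝ) - 1)))} ⊆
      {L : Cpx (V × Fin d) | IsCovering Prod.fst L K ∧ ∃ f : (V × Fin d → ℝ) → EuclideanSpace ℝ (Fin n),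
          ThickEmb L n f ∧ ∀ x ∈ L.real, ‖f x‖ ≤ R} := by
    rintro L ⟨hL, hL2⟩
    obtain ⟨f, hf, hfR⟩ := fin_emb hL2
    refine ⟨hL, f, hf, fun x hx => (hfR x hx).trans ?_⟩
    rw [hR]
    have h2 : M * ((d * (g - 1) + 1 : ℕ) : ℝ) ^ (1 / ((n : ℝ) - 1)) ≤ max M 0 * (g * s) := by
      calc M * ((d * (g - 1) + 1 : ℕ) : ℝ) ^ (1 / ((n : ℝ) - 1)) ≤ max M 0 * ((d * (g - 1) + 1 : ℕ) : ℝ) ^ (1 / ((n : ℝ) - 1)) :=
            mul_le_mul_of_nonneg_right (le_max_left _ _) (by positivity)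
        _ ≤ max M 0 * (g * s) := mul_le_mul_of_nonneg_left hG hM0
    have h3 : (0 : ℝ) ≤ max M 0 * (g * s) := by positivity
    have := max_le h2 h3
    linarith
  have hN : C * (R + 1) ≤ (⌈C * (R + 1)⌉₊ : ℝ) := Nat.le_ceil _
  have hupper : (⌈C * (R + 1)⌉₊ : ℝ) ≤ (C * (max M 0 * g + 2) + 1) * s := by
    have h4 : (⌈C * (R + 1)⌉₊ : ℝ) ≤ C * (R + 1) + 1 := (Nat.ceil_lt_add_one (by positivity)).le
    have h5 : R + 1 ≤ (max M 0 * g + 2) * s := by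
      rw [hR]
      nlinarith
    calc (⌈C * (R + 1)⌉₊ : ℝ) ≤ C * (R + 1) + 1 := h4
      _ ≤ C * ((max M 0 * g + 2) * s) + s := add_le_add (mul_le_mul_of_nonneg_left h5 hC.le) hs1
      _ = (C * (max M 0 * g + 2) + 1) * s := by ring
  have hpow : (⌈C * (R + 1)⌉₊ : ℝ) ^ (n - 1) ≤ (C * (max M 0 * g + 2) + 1) ^ (n - 1) * d := by
    calc (⌈C * (R + 1)⌉₊ : ℝ) ^ (n - 1) ≤ ((C * (max M 0 * g + 2) + 1) * s) ^ (n - 1) :=
          pow_le_pow_left₀ (Nat.cast_nonneg _) hupper _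
      _ = _ := by rw [mul_pow, hsn]
  have hsub2 : {σ : Fin (2 * g) → Equiv.Perm (Fin d) | H98T.IsCov σ ∧ ∀ N : ℕ, C * (R + 1) ≤ N → H98T.Digi σ n C0 N} ⊆
      {σ : Fin (2 * g) → Equiv.Perm (Fin d) | H98T.IsCov σ ∧ ∃ W : ℕ, (W : ℝ) ^ (n - 1) ≤
        (C * (max M 0 * g + 2) + 1) ^ (n - 1) * d ∧ H98T.Digi σ n C0 W} :=
    fun σ hσ => ⟨hσ.1, _, hpow, hσ.2 _ hN⟩
  have e1 := (Set.ncard_le_ncard hsub (Set.toFinite _)).trans ((hup R).trans (Nat.mul_le_mul_left _ (Set.ncard_le_ncard hsub2 (Set.toFinite _))))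
  calc (Set.ncard {L : Cpx (V × Fin d) | IsCovering Prod.fst L K ∧
          thickRadius n L ≤ ENNReal.ofReal (M * ((d * (g - 1) + 1 : ℕ) : ℝ) ^ (1 / ((n : ℝ) - 1)))} : ℝ)
      ≤ ((d.factorial ^ (Fintype.card V - 1) * Set.ncard {σ : Fin (2 * g) → Equiv.Perm (Fin d) | H98T.IsCov σ ∧ ∃ W : ℕ, (W : ℝ) ^ (n - 1) ≤
        (C * (max M 0 * g + 2) + 1) ^ (n - 1) * d ∧ H98T.Digi σ n C0 W} : ℕ) : ℝ) := by exact_mod_cast e1
    _ = (d.factorial ^ (Fintype.card V - 1) : ℕ) * (Set.ncard {σ : Fin (2 * g) → Equiv.Perm (Fin d) | H98T.IsCov σ ∧ ∃ W : ℕ,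
          (W : ℝ) ^ (n - 1) ≤ (C * (max M 0 * g + 2) + 1) ^ (n - 1) * d ∧ H98T.Digi σ n C0 W} : ℝ) := by push_cast; ring
    _ ≤ (d.factorial ^ (Fintype.card V - 1) : ℕ) * (Real.exp (-(c * d)) * (Set.ncard {σ : Fin (2 * g) → Equiv.Perm (Fin d) | H98T.IsCov σ ∧
          H98T.Expand (H98T.two σ)} : ℝ)) := mul_le_mul_of_nonneg_left hle (Nat.cast_nonneg _)
    _ = Real.exp (-(c * d)) * ((d.factorial ^ (Fintype.card V - 1) * Set.ncard {σ : Fin (2 * g) → Equiv.Perm (Fin d) | H98T.IsCov σ ∧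
          H98T.Expand (H98T.two σ)} : ℕ) : ℝ) := by push_cast; ring
    _ ≤ _ := mul_le_mul_of_nonneg_left (by exact_mod_cast hlow) (Real.exp_pos _).le

end H98A
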