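import Pool.Agent.Lib.H98A.S4
import Pool.Agent.Lib.H98A.Fin0

set_option autoImplicit false

/-!
# H98A: the complete theorem, from the counting theorem
-/

open Finset

namespace H98A

open H32D H32N

theorem expands_mono {W : Type} [Fintype W] [DecidableEq W] {G : SimpleGraph W} {h h' : ℝ} (hle : h' ≤ h) (hG : Expands G h) : Expands G h' :=
  fun A hA => (mul_le_mul_of_nonneg_right hle (Nat.cast_nonneg _)).trans (hG A hA)

theorem coverings_of_count {V : Type} [Fintype V] [DecidableEq V] (K : Cpx V) (hK : IsSurface K) (g : ℕ) (hg : 2 ≤ g)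
    (hχ : K.euler = 2 - 2 * (g : ℤ)) (n : ℕ) (hn : 5 ≤ n)
    (hcount : ∀ (C0 : ℕ) (M : ℝ), ∃ (c : ℝ) (d0 : ℕ), 0 < c ∧ ∀ d : ℕ, d0 ≤ d →
      (Set.ncard {σ : Fin (2 * g) → Equiv.Perm (Fin d) | H98T.IsCov σ ∧ ∃ W : ℕ, (W : ℝ) ^ (n - 1) ≤ M * d ∧ H98T.Digi σ n C0 W} : ℝ) ≤
        Real.exp (-(c * d)) * (Set.ncard {σ : Fin (2 * g) → Equiv.Perm (Fin d) | H98T.IsCov σ ∧ H98T.Expand (H98T.two σ)} : ℝ)) :
    ∃ c C h : ℝ, 0 < c ∧ 0 < C ∧ 0 < h ∧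
      (∀ (d : ℕ) (L : Cpx (V × Fin d)), IsCovering Prod.fst L K → L.euler = 2 - 2 * ((d * (g - 1) + 1 : ℕ) : ℤ)) ∧
      (∃ d1 : ℕ, ∀ d : ℕ, d1 ≤ d →
        (∀ L : Cpx (V × Fin d), IsCovering Prod.fst L K → Expands L.graph h →
          ENNReal.ofReal (c * ((d * (g - 1) + 1 : ℕ) : ℝ) ^ (1 / ((n : ℝ) - 1))) ≤ thickRadius n L) ∧
        ∃ L : Cpx (V × Fin d), IsCovering Prod.fst L K ∧ IsSurface L ∧ Expands L.graph h ∧
          thickRadius n L ≤ ENNReal.ofReal (C * ((d * (g - 1) + 1 : ℕ) : ℝ) ^ (1 / ((n : ℝ) - 1)))) ∧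
      ∀ M : ℝ, ∃ (a : ℝ) (d0 : ℕ), 0 < a ∧ ∀ d : ℕ, d0 ≤ d →
        (Set.ncard {L : Cpx (V × Fin d) | IsCovering Prod.fst L K ∧
            thickRadius n L ≤ ENNReal.ofReal (M * ((d * (g - 1) + 1 : ℕ) : ℝ) ^ (1 / ((n : ℝ) - 1)))} : ℝ) ≤
          Real.exp (-(a * d)) * (Set.ncard {L : Cpx (V × Fin d) | IsCovering Prod.fst L K ∧ IsSurface L ∧ Expands L.graph h} : ℝ) := by
  obtain ⟨C, h1, hC, hh1, d1, hup⟩ := up_all K hK g hg hχ n hn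
  obtain ⟨h2, hh2, hall⟩ := almost_all_of_count K hK g hg hχ n hn hcount
  have hh : 0 < min h1 h2 := lt_min hh1 hh2
  obtain ⟨c, hc, d2, hlow⟩ := low_all K hK g hg n hn (min h1 h2) hh
  refine ⟨c, C, min h1 h2, hc, hC, hh, fun d L hL => euler_all hg hχ d L hL, ⟨max d1 d2, fun d hd => ⟨?_, ?_⟩⟩, fun M => ?_⟩
  · exact hlow d ((le_max_right _ _).trans hd)
  · obtain ⟨L, hL1, hL2, hL3, hL4⟩ := hup d ((le_max_left _ _).trans hd)
    exact ⟨L, hL1, hL2, expands_mono (min_le_left _ _) hL3, hL4⟩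
  · obtain ⟨a, d0, ha, H⟩ := hall M
    refine ⟨a, d0, ha, fun d hd => (H d hd).trans (mul_le_mul_of_nonneg_left ?_ (Real.exp_pos _).le)⟩
    have hsub : {L : Cpx (V × Fin d) | IsCovering Prod.fst L K ∧ IsSurface L ∧ Expands L.graph h2} ⊆
        {L : Cpx (V × Fin d) | IsCovering Prod.fst L K ∧ IsSurface L ∧ Expands L.graph (min h1 h2)} :=
      fun L hL => ⟨hL.1, hL.2.1, expands_mono (min_le_right _ _) hL.2.2⟩
    exact_mod_cast Set.ncard_le_ncard hsub (Set.toFinite _)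

end H98A
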