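import Mathlib
import Pool.Agent.Lib.H98T.H03

set_option autoImplicit false

/-!
# H98A.H1 (M): the number of conjugacy classes of the symmetric group is subexponential

PROOF. (a) `h1_part`: for `0 < x < 1`: `p(d) x^d ≤ exp (1 / (1 - x)^2)`, `p(d)` the number of partitions of `d`. A partition `p` of `d` is determined by the multiplicities
`f i = p.parts.count (i + 1)`, `i : Fin d` (the parts are positive and `≤ d`), `f i ≤ d` and `∑ (i + 1) f i = d` (`Multiset.sum_toFinset..`/`Finset.sum_multiset_count`). So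
`p(d) x^d = ∑ p, ∏ i, x^((i + 1) f i) ≤ ∑ (f : Fin d → Fin (d + 1)), ∏ i, x^((i + 1) f i) = ∏ i : Fin d, ∑ j : Fin (d + 1), x^((i + 1) j)` (`Finset.prod_univ_sum`,
`Fintype.piFinset_univ`) and with `y = x^(i + 1)`: `∑ j, y^j ≤ 1 / (1 - y) = 1 + y / (1 - y) ≤ exp (y / (1 - y)) ≤ exp (y / (1 - x))`, and `∑ i, x^(i + 1) ≤ 1 / (1 - x)`.
(b) `x = exp (-ε/2)`: `p(d) ≤ exp (ε d / 2 + 1/(1 - x)^2) ≤ exp (ε d)` if `d ≥ 2 / (ε (1 - x)^2)`. The classes inject into the partitions: see the proof of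
`H98T.card_conjClasses_le` (H03.lean).
Auxiliary names start with `h1_`.
-/

namespace H98A

open Finset H98T

theorem h1_count_le (d : ℕ) (p : Nat.Partition d) (a : ℕ) : p.parts.count a ≤ d := by
  refine (Multiset.count_le_card a p.parts).trans ?_
  have h1 : p.parts.card • 1 ≤ p.parts.sum := Multiset.card_nsmul_le_sum (fun x hx => p.parts_pos hx)
  rw [p.parts_sum, smul_eq_mul, mul_one] at h1
  exact h1

/-- the multiplicities -/
def h1_mult (d : ℕ) (p : Nat.Partition d) (i : Fin d) : Fin (d + 1) := ⟨p.parts.count (i.val + 1), Nat.lt_succ_of_le (h1_count_le d p _)⟩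

theorem h1_part_le (d : ℕ) (p : Nat.Partition d) (a : ℕ) (ha : a ∈ p.parts) : a ≤ d := by
  have := Multiset.single_le_sum (fun x _ => Nat.zero_le x) a ha
  rwa [p.parts_sum] at this

theorem h1_mult_inj (d : ℕ) : Function.Injective (h1_mult d) := by
  intro p q h
  refine Nat.Partition.ext (Multiset.ext.2 fun a => ?_)
  by_cases ha : 1 ≤ a ∧ a ≤ d
  · have h1 := congrArg Fin.val (congrFun h ⟨a - 1, by omega⟩)
    simp only [h1_mult] at h1
    rwa [Nat.sub_add_cancel ha.1] at h1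
  · have key : ∀ r : Nat.Partition d, r.parts.count a = 0 := by
      intro r
      rw [Multiset.count_eq_zero]
      intro hr
      exact ha ⟨r.parts_pos hr, h1_part_le d r a hr⟩
    rw [key p, key q]

theorem h1_mult_sum (d : ℕ) (p : Nat.Partition d) : ∑ i : Fin d, (i.val + 1) * (h1_mult d p i : ℕ) = d := by
  have h1 : p.parts.toFinset ⊆ (range d).image (fun i => i + 1) := by
    intro a ha
    rw [Multiset.mem_toFinset] at ha
    rw [Finset.mem_image]
    have h2 := p.parts_pos ha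
    have h3 := h1_part_le d p a ha
    exact ⟨a - 1, Finset.mem_range.2 (by omega), by omega⟩
  have h2 := Finset.sum_multiset_count_of_subset p.parts _ h1
  rw [p.parts_sum, Finset.sum_image (fun _ _ _ _ h => Nat.succ_injective h)] at h2
  have h3 := Fin.sum_univ_eq_sum_range (fun i => (i + 1) * p.parts.count (i + 1)) d
  rw [show (∑ i : Fin d, (i.val + 1) * (h1_mult d p i : ℕ)) = ∑ i : Fin d, (fun i => (i + 1) * p.parts.count (i + 1)) i.val from rfl, h3]
  conv_rhs => rw [h2]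
  exact Finset.sum_congr rfl fun i _ => by rw [smul_eq_mul, mul_comm]

theorem h1_geom (y : ℝ) (hy0 : 0 ≤ y) (hy1 : y < 1) (n : ℕ) : ∑ j ∈ range n, y ^ j ≤ 1 / (1 - y) := by
  rw [le_div_iff₀ (by linarith), mul_comm, mul_neg_geom_sum]
  have := pow_nonneg hy0 n
  linarith

theorem h1_part (d : ℕ) (x : ℝ) (hx0 : 0 < x) (hx1 : x < 1) : (Fintype.card (Nat.Partition d) : ℝ) * x ^ d ≤ Real.exp (1 / (1 - x) ^ 2) := by
  classical
  have h1x : 0 < 1 - x := by linarith
  obtain ⟨F, hF⟩ : ∃ F : (Fin d → Fin (d + 1)) → ℝ, F = fun f => ∏ i, (x ^ (i.val + 1)) ^ (f i : ℕ) := ⟨_, rfl⟩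
  have hF0 : ∀ f, 0 ≤ F f := fun f => by rw [hF]; positivity
  have e1 : (Fintype.card (Nat.Partition d) : ℝ) * x ^ d = ∑ p : Nat.Partition d, F (h1_mult d p) := by
    have : ∀ p : Nat.Partition d, F (h1_mult d p) = x ^ d := by
      intro p
      rw [hF]
      simp only
      conv_rhs => rw [← h1_mult_sum d p]
      rw [← Finset.prod_pow_eq_pow_sum]
      exact Finset.prod_congr rfl fun i _ => by rw [pow_mul]
    rw [Finset.sum_congr rfl (fun p _ => this p), Finset.sum_const, Finset.card_univ, nsmul_eq_mul]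
  have e2 : ∑ p : Nat.Partition d, F (h1_mult d p) ≤ ∑ f, F f := by
    rw [← Finset.sum_image (f := F) (s := univ) (g := h1_mult d) (fun _ _ _ _ h => h1_mult_inj d h)]
    exact Finset.sum_le_univ_sum_of_nonneg hF0
  have e3 : ∑ f, F f = ∏ i : Fin d, ∑ j : Fin (d + 1), (x ^ (i.val + 1)) ^ (j : ℕ) := by
    rw [Finset.prod_univ_sum, Fintype.piFinset_univ, hF]
  have e4 : ∏ i : Fin d, ∑ j : Fin (d + 1), (x ^ (i.val + 1)) ^ (j : ℕ) ≤ ∏ i : Fin d, Real.exp (x ^ (i.val + 1) / (1 - x)) := by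
    refine Finset.prod_le_prod (fun i _ => by positivity) (fun i _ => ?_)
    rw [Fin.sum_univ_eq_sum_range (fun j => (x ^ (i.val + 1)) ^ j) (d + 1)]
    have hy0 : 0 ≤ x ^ (i.val + 1) := by positivity
    have hyx : x ^ (i.val + 1) ≤ x := by
      have := pow_le_pow_of_le_one hx0.le hx1.le (show 1 ≤ i.val + 1 by omega)
      rwa [pow_one] at this
    obtain ⟨y, hy⟩ : ∃ y, y = x ^ (i.val + 1) := ⟨_, rfl⟩
    rw [← hy] at hy0 hyx ⊢
    have hy1 : 0 < 1 - y := by linarith
    refine (h1_geom y hy0 (by linarith) _).trans ?_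
    have h2 : 1 / (1 - y) = y / (1 - y) + 1 := by field_simp; ring
    rw [h2]
    refine (Real.add_one_le_exp _).trans (Real.exp_le_exp.2 ?_)
    exact div_le_div_of_nonneg_left hy0 h1x (by linarith)
  have e5 : ∏ i : Fin d, Real.exp (x ^ (i.val + 1) / (1 - x)) ≤ Real.exp (1 / (1 - x) ^ 2) := by
    rw [← Real.exp_sum, ← Finset.sum_div]
    apply Real.exp_le_exp.2
    rw [Fin.sum_univ_eq_sum_range (fun i => x ^ (i + 1)) d]
    have h2 : ∑ i ∈ range d, x ^ (i + 1) ≤ 1 / (1 - x) := by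
      refine le_trans (Finset.sum_le_sum fun i _ => ?_) (h1_geom x hx0.le hx1 d)
      exact pow_le_pow_of_le_one hx0.le hx1.le (Nat.le_succ i)
    calc (∑ i ∈ range d, x ^ (i + 1)) / (1 - x) ≤ (1 / (1 - x)) / (1 - x) := div_le_div_of_nonneg_right h2 h1x.le
      _ = 1 / (1 - x) ^ 2 := by field_simp
  rw [e1]
  exact e2.trans ((le_of_eq e3).trans (e4.trans e5))

theorem h1_classes (d : ℕ) : Nat.card (ConjClasses (Equiv.Perm (Fin d))) ≤ Fintype.card (Nat.Partition d) := by
  classical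
  have hinj : Function.Injective (fun c : ConjClasses (Equiv.Perm (Fin d)) =>
      (Quotient.out c).partition) := by
    intro c c' h
    have h1 : IsConj (Quotient.out c) (Quotient.out c') := Equiv.Perm.partition_eq_of_isConj.2 h
    have h2 : ConjClasses.mk (Quotient.out c) = ConjClasses.mk (Quotient.out c') :=
      ConjClasses.mk_eq_mk_iff_isConj.2 h1
    have h3 : ∀ c : ConjClasses (Equiv.Perm (Fin d)), ConjClasses.mk (Quotient.out c) = c :=
      fun c => Quotient.out_eq c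
    rw [h3, h3] at h2
    exact h2
  have h1 := Nat.card_le_card_of_injective _ hinj
  rw [Nat.card_eq_fintype_card (α := (Fintype.card (Fin d)).Partition)] at h1
  have h2 : Fintype.card ((Fintype.card (Fin d)).Partition) = Fintype.card (Nat.Partition d) := by
    have : ∀ e : ℕ, e = d → Fintype.card (Nat.Partition e) = Fintype.card (Nat.Partition d) := by
      rintro e rfl
      rfl
    exact this _ (Fintype.card_fin d)
  rwa [h2] at h1

theorem classes_le (ε : ℝ) (hε : 0 < ε) : ∃ d0 : ℕ, ∀ d : ℕ, d0 ≤ d →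
    (Nat.card (ConjClasses (Equiv.Perm (Fin d))) : ℝ) ≤ Real.exp (ε * d) := by
  obtain ⟨x, hx⟩ : ∃ x, x = Real.exp (-(ε / 2)) := ⟨_, rfl⟩
  have hx0 : 0 < x := by rw [hx]; exact Real.exp_pos _
  have hx1 : x < 1 := by
    rw [hx, Real.exp_lt_one_iff]
    linarith
  have h1x : 0 < 1 - x := by linarith
  refine ⟨⌈2 / (ε * (1 - x) ^ 2)⌉₊, fun d hd => ?_⟩
  have h1 : 2 / (ε * (1 - x) ^ 2) ≤ d := (Nat.le_ceil _).trans (by exact_mod_cast hd)
  have h2 : 1 / (1 - x) ^ 2 ≤ ε / 2 * d := by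
    rw [div_le_iff₀ (by positivity)] at h1 ⊢
    nlinarith
  have h3 := h1_part d x hx0 hx1
  have h4 : x ^ d = Real.exp (-(ε / 2 * d)) := by
    rw [hx, ← Real.exp_nat_mul]
    congr 1
    ring
  rw [h4] at h3
  have h5 : (Fintype.card (Nat.Partition d) : ℝ) ≤ Real.exp (1 / (1 - x) ^ 2) * Real.exp (ε / 2 * d) := by
    calc (Fintype.card (Nat.Partition d) : ℝ) = (Fintype.card (Nat.Partition d) : ℝ) * Real.exp (-(ε / 2 * d)) * Real.exp (ε / 2 * d) := by
          rw [mul_assoc, ← Real.exp_add, neg_add_cancel, Real.exp_zero, mul_one]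
      _ ≤ _ := mul_le_mul_of_nonneg_right h3 (Real.exp_pos _).le
  calc (Nat.card (ConjClasses (Equiv.Perm (Fin d))) : ℝ) ≤ (Fintype.card (Nat.Partition d) : ℝ) := by exact_mod_cast h1_classes d
    _ ≤ Real.exp (1 / (1 - x) ^ 2) * Real.exp (ε / 2 * d) := h5
    _ = Real.exp (1 / (1 - x) ^ 2 + ε / 2 * d) := (Real.exp_add _ _).symm
    _ ≤ Real.exp (ε * d) := Real.exp_le_exp.2 (by linarith)

end H98A
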