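import Mathlib
import Pool.Agent.Lib.H98T.H13
import Pool.Agent.Lib.H98A.Defs

set_option autoImplicit false

/-!
# H98A.H3 (M): almost all pairs expand their large sets

PROOF. Copy of the proof of `H98T.expand_half` (H13.lean) with the sets `U` with `0 < |U|`, `2 |U| ≤ d`, `e d ≤ |U|`: the number of bad pairs is at most
`(d!)^2 ∑_k S k / C(d,k)`, the sum over `k` with `e d ≤ k`, `2 k ≤ d`. For `d ≥ 100 / e` these `k` are `≥ 100` and `H98T.h12_inner` gives `S k / C(d,k) ≤ (4/5)^k ≤ exp (-k/5) ≤ exp (-e d / 5)`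
(`4/5 ≤ exp (-1/5)`, `Real.add_one_le_exp`), so the sum is at most `d exp (-e d / 5) ≤ exp (-e d / 10)` if `d ≤ exp (e d / 10)`, true for large `d`
(`Real.isLittleO_pow_exp_atTop` or `x^2 / 2 ≤ exp x`).
If `¬ ExpandE ρ e` then the set `U` has `|U| > 0` because `|U| ≤ 100 * ..` fails.
Auxiliary names start with `h3_`.
-/

namespace H98A

open Finset H98T

theorem h3_term {e : ℝ} {d k : ℕ} (h1 : e * d ≤ k) (h2 : 2 * k ≤ d) (h3 : 100 ≤ e * d) :
    (∑ t ∈ (range k).filter (fun t => 100 * t < k),
        ((2 * k).choose t : ℝ) * (2 * (d - k)).choose t) / d.choose k ≤ Real.exp (-(e / 5 * d)) := by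
  have hk : (100 : ℝ) ≤ k := h3.trans h1
  have hk' : 100 ≤ k := by exact_mod_cast hk
  refine (h12_inner (by omega) h2 hk').trans ?_
  have h4 : (4 / 5 : ℝ) ≤ Real.exp (-(1 / 5)) := by
    have := Real.add_one_le_exp (-(1 / 5 : ℝ))
    linarith
  calc (4 / 5 : ℝ) ^ k ≤ Real.exp (-(1 / 5)) ^ k := by gcongr
    _ = Real.exp (k * -(1 / 5)) := (Real.exp_nat_mul _ _).symm
    _ ≤ Real.exp (-(e / 5 * d)) := by
      apply Real.exp_le_exp.2
      linarith

theorem h3_num {e : ℝ} (he : 0 < e) {d : ℕ} (hd : 200 / e ^ 2 ≤ d) :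
    (d : ℝ) * Real.exp (-(e / 5 * d)) ≤ Real.exp (-(e / 10 * d)) := by
  have h1 : 0 ≤ e / 10 * d := by positivity
  have h2 := Real.quadratic_le_exp_of_nonneg h1
  have h3 : (d : ℝ) ≤ (e / 10 * d) ^ 2 / 2 := by
    rw [div_le_iff₀ (by positivity)] at hd
    have h4 : (0 : ℝ) ≤ d := Nat.cast_nonneg d
    nlinarith
  have h5 : (d : ℝ) ≤ Real.exp (e / 10 * d) := by linarith
  calc (d : ℝ) * Real.exp (-(e / 5 * d)) ≤ Real.exp (e / 10 * d) * Real.exp (-(e / 5 * d)) := by gcongr
    _ = Real.exp (-(e / 10 * d)) := by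
      rw [← Real.exp_add]
      congr 1
      ring

open Classical in
theorem card_not_expandE (e : ℝ) (he : 0 < e) : ∃ d0 : ℕ, ∀ d : ℕ, d0 ≤ d →
    ((univ.filter (fun ρ : Fin 2 → Equiv.Perm (Fin d) => ¬ ExpandE ρ e)).card : ℝ) ≤ Real.exp (-(e / 10 * d)) * (d.factorial : ℝ) ^ 2 := by
  refine ⟨⌈200 / e ^ 2⌉₊ + ⌈100 / e⌉₊, fun d hd => ?_⟩
  have hd1 : 200 / e ^ 2 ≤ d := (Nat.le_ceil _).trans (by exact_mod_cast (Nat.le_add_right _ _).trans hd)
  have hd2 : 100 / e ≤ d := (Nat.le_ceil _).trans (by exact_mod_cast (Nat.le_add_left _ _).trans hd)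
  have hd3 : 100 ≤ e * d := by
    rw [div_le_iff₀ he] at hd2
    linarith
  set W : Finset (Finset (Fin d)) :=
    Finset.univ.filter (fun U => e * d ≤ U.card ∧ 2 * U.card ≤ d) with hW
  set bad : Finset (Fin d) → Finset (Fin 2 → Equiv.Perm (Fin d)) := fun U =>
    univ.filter fun ρ : Fin 2 → Equiv.Perm (Fin d) =>
      100 * ((U.image (ρ 0) \ U).card + (U.image (ρ 1) \ U).card) < U.card with hbad
  set S : ℕ → ℝ := fun k => ∑ t ∈ (range k).filter (fun t => 100 * t < k),
        ((2 * k).choose t : ℝ) * (2 * (d - k)).choose t with hS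
  have hS0 : ∀ k, 0 ≤ S k := fun k => Finset.sum_nonneg (fun t _ => by positivity)
  have hf : (0 : ℝ) < d.factorial := by exact_mod_cast Nat.factorial_pos d
  have hbadU : ∀ U ∈ W, ((bad U).card : ℝ) ≤
      (d.factorial : ℝ) ^ 2 * S U.card / (d.choose U.card : ℝ) ^ 2 := by
    intro U hU
    rw [hW, Finset.mem_filter] at hU
    have hC : (0 : ℝ) < (d.choose U.card : ℝ) := by
      exact_mod_cast Nat.choose_pos (by omega)
    rw [le_div_iff₀ (by positivity)]
    have h1 := card_bad_le U
    rw [Fintype.card_fin] at h1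
    have h2 : (((bad U).card * d.choose U.card ^ 2 : ℕ) : ℝ) ≤
        ((d.factorial ^ 2 * ∑ t ∈ (range U.card).filter (fun t => 100 * t < U.card),
          (2 * U.card).choose t * (2 * (d - U.card)).choose t : ℕ) : ℝ) := by
      exact_mod_cast h1
    push_cast at h2
    exact h2
  have hdpos : 0 < d := by
    rcases Nat.eq_zero_or_pos d with h | h
    · rw [h, Nat.cast_zero, mul_zero] at hd3
      linarith
    · exact h
  have hmaps : ∀ U ∈ W, U.card ∈ (range d).filter (fun k : ℕ => e * d ≤ k ∧ 2 * k ≤ d) := by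
    intro U hU
    rw [hW, Finset.mem_filter] at hU
    rw [Finset.mem_filter, Finset.mem_range]
    exact ⟨by omega, hU.2⟩
  have hsum : ∑ U ∈ W, ((bad U).card : ℝ) ≤ (d.factorial : ℝ) ^ 2 * Real.exp (-(e / 10 * d)) := by
    calc ∑ U ∈ W, ((bad U).card : ℝ)
        ≤ ∑ U ∈ W, (d.factorial : ℝ) ^ 2 * S U.card / (d.choose U.card : ℝ) ^ 2 :=
          Finset.sum_le_sum hbadU
      _ = ∑ k ∈ (range d).filter (fun k : ℕ => e * d ≤ k ∧ 2 * k ≤ d),
            ∑ U ∈ W.filter (fun U => U.card = k),
              (d.factorial : ℝ) ^ 2 * S U.card / (d.choose U.card : ℝ) ^ 2 :=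
          (Finset.sum_fiberwise_of_maps_to hmaps _).symm
      _ ≤ ∑ k ∈ (range d).filter (fun k : ℕ => e * d ≤ k ∧ 2 * k ≤ d),
            (d.factorial : ℝ) ^ 2 * (S k / d.choose k) := by
          refine Finset.sum_le_sum (fun k hk => ?_)
          rw [Finset.mem_filter, Finset.mem_range] at hk
          have hC : (0 : ℝ) < (d.choose k : ℝ) := by
            exact_mod_cast Nat.choose_pos (by omega)
          have h1 : ∑ U ∈ W.filter (fun U => U.card = k),
              (d.factorial : ℝ) ^ 2 * S U.card / (d.choose U.card : ℝ) ^ 2 =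
              ((W.filter (fun U => U.card = k)).card : ℝ) *
                ((d.factorial : ℝ) ^ 2 * S k / (d.choose k : ℝ) ^ 2) := by
            rw [← nsmul_eq_mul, ← Finset.sum_const]
            refine Finset.sum_congr rfl (fun U hU => ?_)
            rw [(Finset.mem_filter.1 hU).2]
          rw [h1]
          have h2 : ((W.filter (fun U => U.card = k)).card : ℝ) ≤ d.choose k := by
            have h3 : W.filter (fun U => U.card = k) ⊆
                Finset.powersetCard k (Finset.univ : Finset (Fin d)) := by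
              intro U hU
              rw [Finset.mem_powersetCard]
              exact ⟨Finset.subset_univ _, (Finset.mem_filter.1 hU).2⟩
            have h4 := Finset.card_le_card h3
            rw [Finset.card_powersetCard, Finset.card_univ, Fintype.card_fin] at h4
            exact_mod_cast h4
          calc ((W.filter (fun U => U.card = k)).card : ℝ) *
                ((d.factorial : ℝ) ^ 2 * S k / (d.choose k : ℝ) ^ 2)
              ≤ (d.choose k : ℝ) * ((d.factorial : ℝ) ^ 2 * S k / (d.choose k : ℝ) ^ 2) :=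
                mul_le_mul_of_nonneg_right h2
                  (div_nonneg (mul_nonneg (by positivity) (hS0 k)) (by positivity))
            _ = (d.factorial : ℝ) ^ 2 * (S k / d.choose k) := by
                field_simp
      _ = (d.factorial : ℝ) ^ 2 * ∑ k ∈ (range d).filter (fun k : ℕ => e * d ≤ k ∧ 2 * k ≤ d),
            S k / d.choose k := by
          rw [Finset.mul_sum]
      _ ≤ (d.factorial : ℝ) ^ 2 * Real.exp (-(e / 10 * d)) := by
          refine mul_le_mul_of_nonneg_left ?_ (by positivity)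
          refine le_trans ?_ (h3_num he hd1)
          calc ∑ k ∈ (range d).filter (fun k : ℕ => e * d ≤ k ∧ 2 * k ≤ d), S k / d.choose k
              ≤ ∑ _k ∈ (range d).filter (fun k : ℕ => e * d ≤ k ∧ 2 * k ≤ d), Real.exp (-(e / 5 * d)) := by
                refine Finset.sum_le_sum (fun k hk => ?_)
                rw [Finset.mem_filter] at hk
                exact h3_term hk.2.1 hk.2.2 hd3
            _ = (((range d).filter (fun k : ℕ => e * d ≤ k ∧ 2 * k ≤ d)).card : ℝ) * Real.exp (-(e / 5 * d)) := by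
                rw [Finset.sum_const, nsmul_eq_mul]
            _ ≤ (d : ℝ) * Real.exp (-(e / 5 * d)) := by
                refine mul_le_mul_of_nonneg_right ?_ (Real.exp_pos _).le
                have := Finset.card_filter_le (range d) (fun k : ℕ => e * d ≤ k ∧ 2 * k ≤ d)
                rw [Finset.card_range] at this
                exact_mod_cast this
  have hsub : (univ.filter fun ρ : Fin 2 → Equiv.Perm (Fin d) => ¬ ExpandE ρ e) ⊆
      W.biUnion bad := by
    intro ρ hρ
    rw [Finset.mem_filter] at hρ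
    have h1 := hρ.2
    unfold ExpandE at h1
    push Not at h1
    obtain ⟨U, hU, hU2, hU3⟩ := h1
    rw [Fintype.card_fin] at hU hU2
    rw [Finset.mem_biUnion]
    refine ⟨U, ?_, ?_⟩
    · rw [hW, Finset.mem_filter]
      exact ⟨Finset.mem_univ _, hU, hU2⟩
    · rw [hbad, Finset.mem_filter]
      exact ⟨Finset.mem_univ _, hU3⟩
  rw [mul_comm (Real.exp (-(e / 10 * d)))]
  refine le_trans ?_ hsum
  have h1 := (Finset.card_le_card hsub).trans Finset.card_biUnion_le
  exact_mod_cast h1

end H98A
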