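import Mathlib
import Pool.Agent.Lib.H98T.D02
import Pool.Agent.Lib.H98A.Defs

set_option autoImplicit false

/-!
# H98A.H41 (S/M): the number of permutations preserving disjoint sets

`perm_count` PROOF. Let `A = univ.biUnion U`, `|A| = ∑ |U j|` (`Finset.card_biUnion`). The permutations are grouped by their graph `E` on `A`, `E = A.image (fun x => (x, π x))`, a set of
`|A|` pairs; for given `E` there are at most `(d - |A|)!` permutations (`H98T.card_perm_le`: `∀ p ∈ E, π p.1 = p.2`). The number of the possible graphs is at most the number of the functions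
`f` on `A` with `f x ∈ U j` for `x ∈ U j` (e.g. `Finset.pi` or `Fintype.piFinset (fun x => if x ∈ A then (the set U j containing x) else {x})`), at most `∏ j, s^|U j| = s^|A|`.
(`Finset.card_le_mul_card_image` or `Finset.card_eq_sum_card_fiberwise` for the grouping.)
`pair_count`: a pair `ρ` is the same as `(ρ 0, ρ 1)`, so the number is at most the square (`Fintype.card_piFinset`, see `H98T.card_graph_ge`, D04.lean).
Auxiliary names start with `h41_`.
-/

namespace H98A

open Finset H98T

variable {V : Type} [Fintype V] [DecidableEq V]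

open Classical in
theorem perm_count (k s : ℕ) (U : Fin k → Finset V) (hd : ∀ i j, i ≠ j → Disjoint (U i) (U j)) (hs : ∀ j, (U j).card ≤ s) :
    (univ.filter (fun π : Equiv.Perm V => ∀ j, ∀ x ∈ U j, π x ∈ U j)).card ≤
      s ^ (∑ j, (U j).card) * (Fintype.card V - ∑ j, (U j).card).factorial := by
  obtain ⟨A, hA⟩ : ∃ A : Finset V, A = univ.biUnion U := ⟨_, rfl⟩
  have hAc : A.card = ∑ j, (U j).card := by
    rw [hA]
    exact Finset.card_biUnion (fun i _ j _ h => hd i j h)
  obtain ⟨S, hS⟩ : ∃ S : Finset (Equiv.Perm V), S = univ.filter (fun π : Equiv.Perm V => ∀ j, ∀ x ∈ U j, π x ∈ U j) := ⟨_, rfl⟩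
  obtain ⟨r, hr⟩ : ∃ r : Equiv.Perm V → V → V, r = fun π x => if x ∈ A then π x else x := ⟨_, rfl⟩
  obtain ⟨T, hT⟩ : ∃ T : V → Finset V, T = fun x => if h : ∃ j, x ∈ U j then U h.choose else {x} := ⟨_, rfl⟩
  have hmemA : ∀ x, x ∈ A ↔ ∃ j, x ∈ U j := by
    intro x
    rw [hA, Finset.mem_biUnion]
    exact ⟨fun ⟨j, _, hj⟩ => ⟨j, hj⟩, fun ⟨j, hj⟩ => ⟨j, Finset.mem_univ _, hj⟩⟩
  have himg : S.image r ⊆ Fintype.piFinset T := by
    intro f hf
    obtain ⟨π, hπ, rfl⟩ := Finset.mem_image.1 hf
    rw [hS, Finset.mem_filter] at hπ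
    rw [Fintype.mem_piFinset]
    intro x
    rw [hr, hT]
    simp only
    by_cases hx : ∃ j, x ∈ U j
    · rw [if_pos ((hmemA x).2 hx), dif_pos hx]
      exact hπ.2 _ x hx.choose_spec
    · rw [if_neg (fun h => hx ((hmemA x).1 h)), dif_neg hx]
      exact Finset.mem_singleton_self x
  have hTc : (Fintype.piFinset T).card ≤ s ^ A.card := by
    rw [Fintype.card_piFinset, ← Finset.prod_mul_prod_compl A]
    have h1 : ∏ x ∈ A, (T x).card ≤ ∏ _x ∈ A, s := by
      refine Finset.prod_le_prod' fun x hx => ?_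
      rw [hT]
      simp only
      rw [dif_pos ((hmemA x).1 hx)]
      exact hs _
    have h2 : ∏ x ∈ Aᶜ, (T x).card = 1 := by
      refine Finset.prod_eq_one fun x hx => ?_
      rw [hT]
      simp only
      rw [dif_neg (fun h => (Finset.mem_compl.1 hx) ((hmemA x).2 h)), Finset.card_singleton]
    rw [h2, mul_one]
    rw [Finset.prod_const] at h1
    exact h1
  have hfib : ∀ f ∈ S.image r, (S.filter (fun π => r π = f)).card ≤ (Fintype.card V - A.card).factorial := by
    intro f _
    have hE : (A.image (fun x => (x, f x))).card = A.card := by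
      refine Finset.card_image_of_injOn fun x _ y _ h => ?_
      exact congrArg Prod.fst h
    have h1 := card_perm_le (A.image (fun x => (x, f x)))
    rw [hE] at h1
    refine le_trans (Finset.card_le_card ?_) h1
    intro π hπ
    rw [Finset.mem_filter] at hπ
    rw [Finset.mem_filter]
    refine ⟨Finset.mem_univ _, fun p hp => ?_⟩
    obtain ⟨x, hx, rfl⟩ := Finset.mem_image.1 hp
    have h2 := congrFun hπ.2 x
    rw [hr] at h2
    simp only at h2
    rw [if_pos hx] at h2
    exact h2
  have hfin := Finset.card_le_mul_card_image S _ hfib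
  rw [← hS, ← hAc]
  calc S.card ≤ (Fintype.card V - A.card).factorial * (S.image r).card := hfin
    _ ≤ (Fintype.card V - A.card).factorial * s ^ A.card := Nat.mul_le_mul_left _ ((Finset.card_le_card himg).trans hTc)
    _ = _ := Nat.mul_comm _ _

open Classical in
theorem pair_count (k s : ℕ) (U : Fin k → Finset V) (hd : ∀ i j, i ≠ j → Disjoint (U i) (U j)) (hs : ∀ j, (U j).card ≤ s) :
    (univ.filter (fun ρ : Fin 2 → Equiv.Perm V => ∀ j, Inv2 ρ (U j))).card ≤
      (s ^ (∑ j, (U j).card) * (Fintype.card V - ∑ j, (U j).card).factorial) ^ 2 := by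
  have hsub : (univ.filter (fun ρ : Fin 2 → Equiv.Perm V => ∀ j, Inv2 ρ (U j))) ⊆
      Fintype.piFinset (fun _ : Fin 2 => univ.filter (fun π : Equiv.Perm V => ∀ j, ∀ x ∈ U j, π x ∈ U j)) := by
    intro ρ hρ
    rw [Finset.mem_filter] at hρ
    rw [Fintype.mem_piFinset]
    intro i
    rw [Finset.mem_filter]
    exact ⟨Finset.mem_univ _, fun j x hx => (hρ.2 j).2 x hx i⟩
  have h1 := Finset.card_le_card hsub
  rw [Fintype.card_piFinset, Finset.prod_const, Finset.card_univ, Fintype.card_fin] at h1
  exact h1.trans (Nat.pow_le_pow_left (perm_count k s U hd hs) 2)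

end H98A
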