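import Mathlib
import Pool.Agent.Lib.H98T.D01
import Pool.Agent.Lib.H98T.D02
import Pool.Agent.Lib.H98A.H41

set_option autoImplicit false

/-!
# H98A.H42 (M): union bound for disjoint invariant sets

PROOF. `d = card V`. The number of the `ρ` is at most the sum of `#{ρ | ∀ j, Inv2 ρ (U j)}` over the families `U : Fin k → Finset V` with `1 ≤ |U j| ≤ s` which are pairwise disjoint. With
`S = ∑ |U j| ≤ s k ≤ d / 2`, `pair_count` and `(d - S)! ≤ (2/d)^S d!` (`H98T.factorial_sub_le d d S`) this number is at most `(s^S (2/d)^S d!)^2 = (d!)^2 ∏ j, y^|U j|`, `y = 4 s^2 / d^2`.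
Drop the disjointness: the sum over all `U : Fin k → Finset V` with `1 ≤ |U j| ≤ s` of `∏ j, y^|U j|` is `(∑ (U with 1 ≤ |U| ≤ s), y^|U|)^k` (`Finset.prod_univ_sum` or `Finset.sum_pow'`,
`Fintype.piFinset`), and `∑ (1 ≤ |U| ≤ s), y^|U| = ∑ u ∈ Icc 1 s, C(d,u) y^u ≤ ∑ u ∈ Icc 1 s, (d y)^u ≤ 2 d y = 8 s^2 / d` (`d y = 4 s^2 / d ≤ 1/2`; `Nat.choose_le_pow`; see the proof of
`H98T.sum_valid_le` in D03.lean for the grouping by the size).
Auxiliary names start with `h42_`.
-/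

namespace H98A

open Finset H98T

open Classical in
/-- the sum over the sets of size between 1 and s -/
theorem h42_sum (V : Type) [Fintype V] [DecidableEq V] (s : ℕ) (h2 : 8 * s ^ 2 ≤ Fintype.card V) :
    ∑ U : Finset V, (if U.card ∈ Finset.Icc 1 s then (4 * (s : ℝ) ^ 2 / (Fintype.card V : ℝ) ^ 2) ^ U.card else 0) ≤
      8 * (s : ℝ) ^ 2 / Fintype.card V := by
  set d : ℝ := (Fintype.card V : ℝ) with hd
  set y : ℝ := 4 * (s : ℝ) ^ 2 / d ^ 2 with hy
  have hd0 : 0 ≤ d := Nat.cast_nonneg _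
  have hy0 : 0 ≤ y := by positivity
  have h3 : ∑ U : Finset V, (if U.card ∈ Finset.Icc 1 s then y ^ U.card else 0) =
      ∑ n ∈ Finset.Icc 1 s, ((Fintype.card V).choose n : ℝ) * y ^ n := by
    rw [← Finset.sum_filter]
    rw [← Finset.sum_fiberwise_of_maps_to (t := Finset.Icc 1 s) (g := fun U : Finset V => U.card)]
    · apply Finset.sum_congr rfl
      intro n hn
      have : (Finset.univ.filter (fun U : Finset V => U.card ∈ Finset.Icc 1 s)).filter
          (fun U => U.card = n) = Finset.powersetCard n Finset.univ := by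
        ext U
        simp only [Finset.mem_filter, Finset.mem_univ, true_and, Finset.mem_powersetCard,
          Finset.subset_univ]
        constructor
        · exact fun h => h.2
        · intro h
          exact ⟨by rw [h]; exact hn, h⟩
      rw [this, Finset.sum_congr rfl (g := fun _ => y ^ n)]
      · rw [Finset.sum_const, nsmul_eq_mul, Finset.card_powersetCard, Finset.card_univ]
      · intro U hU
        rw [(Finset.mem_powersetCard.mp hU).2]
    · intro U hU
      rw [Finset.mem_filter] at hU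
      exact hU.2
  rw [h3]
  rcases Nat.eq_zero_or_pos s with hs | hs
  · rw [hs]
    simp
  have hdpos : 0 < d := by
    have h4 : 0 < s ^ 2 := by positivity
    rw [hd]
    exact_mod_cast (by omega : 0 < Fintype.card V)
  have hdy : d * y = 4 * (s : ℝ) ^ 2 / d := by
    rw [hy]
    field_simp
  have hdy2 : d * y ≤ 1 / 2 := by
    rw [hdy, div_le_iff₀ hdpos]
    have : ((8 * s ^ 2 : ℕ) : ℝ) ≤ d := by
      rw [hd]
      exact_mod_cast h2
    push_cast at this
    linarith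
  have hz0 : 0 ≤ d * y := by positivity
  have h5 : ∀ m : ℕ, ∑ n ∈ Finset.Icc 1 m, (d * y) ^ n ≤ 2 * (d * y) * (1 - (1 / 2) ^ m) := by
    intro m
    induction m with
    | zero => simp
    | succ m ih =>
      rw [Finset.sum_Icc_succ_top (by omega)]
      have h6 : (d * y) ^ (m + 1) ≤ (d * y) * (1 / 2) ^ m := by
        rw [pow_succ' (d * y) m]
        have h7 : (d * y) ^ m ≤ (1 / 2) ^ m := pow_le_pow_left₀ hz0 hdy2 m
        exact mul_le_mul_of_nonneg_left h7 hz0
      have h8 : ((1 : ℝ) / 2) ^ (m + 1) = (1 / 2) ^ m * (1 / 2) := pow_succ (1 / 2 : ℝ) m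
      rw [h8]
      linarith
  calc ∑ n ∈ Finset.Icc 1 s, ((Fintype.card V).choose n : ℝ) * y ^ n
      ≤ ∑ n ∈ Finset.Icc 1 s, (d * y) ^ n := by
        refine Finset.sum_le_sum (fun n _ => ?_)
        rw [mul_pow]
        refine mul_le_mul_of_nonneg_right ?_ (by positivity)
        rw [hd]
        exact_mod_cast Nat.choose_le_pow (Fintype.card V) n
    _ ≤ 2 * (d * y) * (1 - (1 / 2) ^ s) := h5 s
    _ ≤ 2 * (d * y) := by
        have h9 : (0 : ℝ) ≤ (1 / 2) ^ s := by positivity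
        nlinarith
    _ = 8 * (s : ℝ) ^ 2 / d := by
        rw [hdy]
        ring

open Classical in
/-- the number of the pairs for one family -/
theorem h42_one (V : Type) [Fintype V] [DecidableEq V] (s k : ℕ) (h1 : 2 * (s * k) ≤ Fintype.card V)
    (U : Fin k → Finset V) (hU : ∀ j, (U j).card ≤ s) (hd : ∀ i j, i ≠ j → Disjoint (U i) (U j)) :
    ((univ.filter (fun ρ : Fin 2 → Equiv.Perm V => ∀ j, Inv2 ρ (U j))).card : ℝ) ≤
      ((Fintype.card V).factorial : ℝ) ^ 2 * ∏ j, (4 * (s : ℝ) ^ 2 / (Fintype.card V : ℝ) ^ 2) ^ (U j).card := by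
  have h3 := pair_count k s U hd hU
  obtain ⟨S, hS⟩ : ∃ S, S = ∑ j, (U j).card := ⟨_, rfl⟩
  rw [← hS] at h3
  have h4 : 2 * S ≤ Fintype.card V := by
    have h5 : ∑ j, (U j).card ≤ ∑ _j : Fin k, s := Finset.sum_le_sum (fun j _ => hU j)
    rw [Finset.sum_const, Finset.card_univ, Fintype.card_fin, smul_eq_mul] at h5
    have : k * s = s * k := mul_comm _ _
    omega
  have h6 := factorial_sub_le (Fintype.card V) (Fintype.card V) S le_rfl h4
  rw [Finset.prod_pow_eq_pow_sum, ← hS]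
  have h7 : ((univ.filter (fun ρ : Fin 2 → Equiv.Perm V => ∀ j, Inv2 ρ (U j))).card : ℝ) ≤
      ((s : ℝ) ^ S * ((Fintype.card V - S).factorial : ℝ)) ^ 2 := by
    exact_mod_cast h3
  refine h7.trans ?_
  calc ((s : ℝ) ^ S * ((Fintype.card V - S).factorial : ℝ)) ^ 2
      ≤ ((s : ℝ) ^ S * ((2 / (Fintype.card V : ℝ)) ^ S * ((Fintype.card V).factorial : ℝ))) ^ 2 := by
        gcongr
    _ = ((Fintype.card V).factorial : ℝ) ^ 2 * (((s : ℝ) * (2 / (Fintype.card V : ℝ))) ^ 2) ^ S := by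
        rw [← pow_mul, mul_comm 2 S, pow_mul ((s : ℝ) * (2 / (Fintype.card V : ℝ))) S 2, mul_pow (s : ℝ)]
        ring
    _ = ((Fintype.card V).factorial : ℝ) ^ 2 * (4 * (s : ℝ) ^ 2 / (Fintype.card V : ℝ) ^ 2) ^ S := by
        congr 2
        ring

open Classical in
theorem inv_union (V : Type) [Fintype V] [DecidableEq V] (s k : ℕ) (h1 : 2 * (s * k) ≤ Fintype.card V) (h2 : 8 * s ^ 2 ≤ Fintype.card V) :
    ((univ.filter (fun ρ : Fin 2 → Equiv.Perm V => ∃ U : Fin k → Finset V, (∀ j, Inv2 ρ (U j) ∧ (U j).card ≤ s) ∧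
      ∀ i j, i ≠ j → Disjoint (U i) (U j))).card : ℝ) ≤
      ((Fintype.card V).factorial : ℝ) ^ 2 * (8 * (s : ℝ) ^ 2 / Fintype.card V) ^ k := by
  set y : ℝ := 4 * (s : ℝ) ^ 2 / (Fintype.card V : ℝ) ^ 2 with hy
  have hy0 : 0 ≤ y := by positivity
  have hterm : ∀ U : Fin k → Finset V,
      ((univ.filter (fun ρ : Fin 2 → Equiv.Perm V => (∀ j, Inv2 ρ (U j) ∧ (U j).card ≤ s) ∧
        ∀ i j, i ≠ j → Disjoint (U i) (U j))).card : ℝ) ≤
      ((Fintype.card V).factorial : ℝ) ^ 2 *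
        ∏ j, (if (U j).card ∈ Finset.Icc 1 s then y ^ (U j).card else 0) := by
    intro U
    have hprod : 0 ≤ ∏ j, (if (U j).card ∈ Finset.Icc 1 s then y ^ (U j).card else 0) := by
      refine Finset.prod_nonneg (fun j _ => ?_)
      split_ifs
      · positivity
      · exact le_rfl
    by_cases hv : (∀ j, (U j).card ∈ Finset.Icc 1 s) ∧ ∀ i j, i ≠ j → Disjoint (U i) (U j)
    · have h3 := h42_one V s k h1 U (fun j => (Finset.mem_Icc.1 (hv.1 j)).2) hv.2
      have h4 : ∏ j, (if (U j).card ∈ Finset.Icc 1 s then y ^ (U j).card else 0) = ∏ j, y ^ (U j).card :=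
        Finset.prod_congr rfl (fun j _ => if_pos (hv.1 j))
      rw [h4]
      refine le_trans ?_ h3
      exact_mod_cast Finset.card_le_card (fun ρ hρ => by
        rw [Finset.mem_filter] at hρ ⊢
        exact ⟨hρ.1, fun j => (hρ.2.1 j).1⟩)
    · have h5 : (univ.filter (fun ρ : Fin 2 → Equiv.Perm V => (∀ j, Inv2 ρ (U j) ∧ (U j).card ≤ s) ∧
        ∀ i j, i ≠ j → Disjoint (U i) (U j))) = ∅ := by
        rw [Finset.filter_eq_empty_iff]
        intro ρ _ hρ
        exact hv ⟨fun j => Finset.mem_Icc.2 ⟨Finset.card_pos.2 (hρ.1 j).1.1, (hρ.1 j).2⟩, hρ.2⟩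
      rw [h5, Finset.card_empty, Nat.cast_zero]
      positivity
  have hsub : (univ.filter (fun ρ : Fin 2 → Equiv.Perm V => ∃ U : Fin k → Finset V, (∀ j, Inv2 ρ (U j) ∧ (U j).card ≤ s) ∧
      ∀ i j, i ≠ j → Disjoint (U i) (U j))) ⊆ (univ : Finset (Fin k → Finset V)).biUnion
        (fun U => univ.filter (fun ρ : Fin 2 → Equiv.Perm V => (∀ j, Inv2 ρ (U j) ∧ (U j).card ≤ s) ∧
        ∀ i j, i ≠ j → Disjoint (U i) (U j))) := by
    intro ρ hρ
    rw [Finset.mem_filter] at hρ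
    obtain ⟨U, hU⟩ := hρ.2
    exact Finset.mem_biUnion.2 ⟨U, Finset.mem_univ _, Finset.mem_filter.2 ⟨Finset.mem_univ _, hU⟩⟩
  have hcard : ((univ.filter (fun ρ : Fin 2 → Equiv.Perm V => ∃ U : Fin k → Finset V, (∀ j, Inv2 ρ (U j) ∧ (U j).card ≤ s) ∧
      ∀ i j, i ≠ j → Disjoint (U i) (U j))).card : ℝ) ≤ ∑ U : Fin k → Finset V,
      ((univ.filter (fun ρ : Fin 2 → Equiv.Perm V => (∀ j, Inv2 ρ (U j) ∧ (U j).card ≤ s) ∧
        ∀ i j, i ≠ j → Disjoint (U i) (U j))).card : ℝ) := by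
    exact_mod_cast (Finset.card_le_card hsub).trans Finset.card_biUnion_le
  refine hcard.trans ((Finset.sum_le_sum (fun U _ => hterm U)).trans ?_)
  rw [← Finset.mul_sum]
  refine mul_le_mul_of_nonneg_left ?_ (by positivity)
  have h6 := Fintype.sum_pow (fun U : Finset V => (if U.card ∈ Finset.Icc 1 s then y ^ U.card else (0 : ℝ))) k
  rw [← h6]
  refine pow_le_pow_left₀ (Finset.sum_nonneg (fun U _ => ?_)) (h42_sum V s h2) k
  split_ifs
  · positivity
  · exact le_rfl

end H98A
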