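import Mathlib
import Pool.Agent.Lib.H98T.D03
import Pool.Agent.Lib.H98A.Defs

set_option autoImplicit false

/-!
# H98A.H43A: many disjoint invariant sets, many small ones
-/

namespace H98A

open Finset H98T

theorem h43_few {d : ℕ} (ρ : Fin 2 → Equiv.Perm (Fin d)) (s k k1 : ℕ) (hs : 1 ≤ s) (hk : d / s + k1 ≤ k) (h : ¬ Few (Inv2 ρ) d k) : ¬ Few (Inv2 ρ) s k1 := by
  classical
  intro hf
  apply h
  intro D hD hdis
  have h1 := hf (D.filter (fun U => U.card ≤ s)) (fun U hU => by
    rw [mem_filter] at hU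
    exact ⟨(hD U hU.1).1, hU.2⟩) (fun U hU W hW hne => by
      have hU' := (mem_filter.mp (mem_coe.mp hU)).1
      have hW' := (mem_filter.mp (mem_coe.mp hW)).1
      exact hdis (mem_coe.2 hU') (mem_coe.2 hW') hne)
  have h2 : D.card = (D.filter (fun U => U.card ≤ s)).card + (D.filter (fun U => ¬ U.card ≤ s)).card :=
    (card_filter_add_card_filter_not _).symm
  have h3 : (D.filter (fun U => ¬ U.card ≤ s)).card * s ≤ d := by
    have h5 : (D.filter (fun U => ¬ U.card ≤ s)).card * s ≤ ∑ U ∈ D.filter (fun U => ¬ U.card ≤ s), U.card := by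
      rw [← smul_eq_mul]
      refine card_nsmul_le_sum _ _ _ (fun U hU => ?_)
      have := (mem_filter.mp hU).2
      omega
    refine h5.trans ?_
    have h6 : ((D.filter (fun U => ¬ U.card ≤ s)).biUnion id).card = ∑ U ∈ D.filter (fun U => ¬ U.card ≤ s), (id U).card := by
      refine card_biUnion (fun U hU W hW hne => ?_)
      exact hdis (mem_coe.2 (mem_filter.mp hU).1) (mem_coe.2 (mem_filter.mp hW).1) hne
    simp only [id] at h6
    rw [← h6]
    have h7 := card_le_univ ((D.filter (fun U => ¬ U.card ≤ s)).biUnion id)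
    rwa [Fintype.card_fin] at h7
  have h4 : (D.filter (fun U => ¬ U.card ≤ s)).card ≤ d / s := by
    rw [Nat.le_div_iff_mul_le (by omega)]
    exact h3
  omega

end H98A
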