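import Mathlib

set_option autoImplicit false

/-!
# H98A.H43B (M): numbers

PROOF. `s = ⌈(3/a) log (2d)⌉₊`, `k1 = d / (2 s)` (natural division), `k = d / s + k1`. For large `d`: `s ≥ 2`, so `k ≤ 3 d/(2 s) ≤ d`; `k log (2d) ≤ (3 d/(2 s)) log (2d) ≤ a d / 2`
as `s ≥ (3/a) log (2d)`; `8 s^2 ≤ d`; and `k1 ≥ d/(4 s)` (`4 s ≤ d`), `8 s^2 / d ≤ exp (- (1/2) log (2d))` (i.e. `8 s^2 sqrt (2 d) ≤ d`, true for large `d`, as `s ≤ (6/a) log (2d)`), so
`(8 s^2/d)^k1 ≤ exp (- (1/2) log (2d) d / (4 s)) ≤ exp (- a d / 48)`. (`isLittleO_log_id_atTop`, `isLittleO_log_rpow_atTop` or `Real.log_le_rpow_div` for the large `d`.)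
Auxiliary names start with `h43b_`.
-/

namespace H98A

open Filter

theorem h43b_large (C B : ℝ) (hC : 0 < C) : ∃ d0 : ℕ, ∀ d : ℕ, d0 ≤ d → 1 ≤ d ∧ B ≤ Real.log (2 * d) ∧
    C * Real.log (2 * d) ^ 2 * Real.sqrt (2 * d) ≤ d := by
  have ht : Tendsto (fun d : ℕ => (2 : ℝ) * d) atTop atTop := tendsto_natCast_atTop_atTop.const_mul_atTop (by norm_num)
  have h1 : ∀ᶠ d : ℕ in atTop, B ≤ Real.log (2 * d) := (Real.tendsto_log_atTop.comp ht).eventually_ge_atTop B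
  have h2 := (Real.isLittleO_pow_log_id_atTop (n := 2)).bound (show (0 : ℝ) < 1 / (8 * C) by positivity)
  have h3 : ∀ᶠ d : ℕ in atTop, ‖Real.log (Real.sqrt (2 * d)) ^ 2‖ ≤ 1 / (8 * C) * ‖id (Real.sqrt (2 * d))‖ :=
    (Real.tendsto_sqrt_atTop.comp ht).eventually h2
  obtain ⟨d0, hd0⟩ := eventually_atTop.1 ((h1.and h3).and (eventually_ge_atTop 1))
  refine ⟨d0, fun d hd => ?_⟩
  obtain ⟨⟨h4, h5⟩, h6⟩ := hd0 d hd
  refine ⟨h6, h4, ?_⟩
  have hd1 : (1 : ℝ) ≤ d := by exact_mod_cast h6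
  have hy0 : 0 ≤ Real.sqrt (2 * d) := Real.sqrt_nonneg _
  have hy2 : Real.sqrt (2 * d) ^ 2 = 2 * d := Real.sq_sqrt (by linarith)
  rw [Real.norm_of_nonneg (by positivity), id, Real.norm_of_nonneg hy0, Real.log_sqrt (by linarith)] at h5
  have h7 : Real.log (2 * d) ^ 2 ≤ 1 / (2 * C) * Real.sqrt (2 * d) := by
    have : (Real.log (2 * d) / 2) ^ 2 = Real.log (2 * d) ^ 2 / 4 := by ring
    rw [this] at h5
    have e : 1 / (8 * C) * Real.sqrt (2 * d) = (1 / (2 * C) * Real.sqrt (2 * d)) / 4 := by field_simp; ring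
    linarith
  calc C * Real.log (2 * d) ^ 2 * Real.sqrt (2 * d) ≤ C * (1 / (2 * C) * Real.sqrt (2 * d)) * Real.sqrt (2 * d) :=
        mul_le_mul_of_nonneg_right (mul_le_mul_of_nonneg_left h7 hC.le) hy0
    _ = Real.sqrt (2 * d) ^ 2 / 2 := by field_simp
    _ = d := by rw [hy2]; ring

theorem h43_num (a : ℝ) (ha : 0 < a) : ∃ d0 : ℕ, ∀ d : ℕ, d0 ≤ d → ∃ s k k1 : ℕ, 1 ≤ s ∧ d / s + k1 ≤ k ∧ k ≤ d ∧ (k : ℝ) * Real.log (2 * d) ≤ a * d ∧
    2 * (s * k1) ≤ d ∧ 8 * s ^ 2 ≤ d ∧ (8 * (s : ℝ) ^ 2 / d) ^ k1 ≤ Real.exp (-(a / 48 * d)) := by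
  obtain ⟨d0, hd0⟩ := h43b_large (8 * (6 / a) ^ 2) (max 1 (a / 2)) (by positivity)
  refine ⟨d0, fun d hd => ?_⟩
  obtain ⟨h1, h2, h3⟩ := hd0 d hd
  obtain ⟨L, hL⟩ : ∃ L, L = Real.log (2 * d) := ⟨_, rfl⟩
  rw [← hL] at h2 h3 ⊢
  have hL1 : 1 ≤ L := (le_max_left _ _).trans h2
  have hLa : a / 2 ≤ L := (le_max_right _ _).trans h2
  have hd1 : (1 : ℝ) ≤ d := by exact_mod_cast h1
  obtain ⟨s, hs⟩ : ∃ s, s = ⌈3 / a * L⌉₊ := ⟨_, rfl⟩
  have hs1 : 3 / a * L ≤ s := by rw [hs]; exact Nat.le_ceil _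
  have h3a : 3 / 2 ≤ 3 / a * L := by
    rw [div_mul_eq_mul_div, le_div_iff₀ ha]
    linarith
  have hs2 : (s : ℝ) ≤ 6 / a * L := by
    have : (s : ℝ) < 3 / a * L + 1 := by rw [hs]; exact Nat.ceil_lt_add_one (by positivity)
    have e : 6 / a * L = 3 / a * L + 3 / a * L := by ring
    rw [e]
    linarith
  have hs3 : 2 ≤ s := by
    have : (1 : ℝ) < s := by linarith
    exact_mod_cast this
  have hs0 : (0 : ℝ) < s := by exact_mod_cast (by omega : 0 < s)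
  have hsq1 : 1 ≤ Real.sqrt (2 * d) := by
    rw [Real.one_le_sqrt]
    linarith
  -- the main estimate
  have h4 : 8 * (s : ℝ) ^ 2 * Real.sqrt (2 * d) ≤ d := by
    have h5 : (s : ℝ) ^ 2 ≤ (6 / a) ^ 2 * L ^ 2 := by
      rw [← mul_pow]
      exact pow_le_pow_left₀ hs0.le hs2 2
    calc 8 * (s : ℝ) ^ 2 * Real.sqrt (2 * d) ≤ 8 * ((6 / a) ^ 2 * L ^ 2) * Real.sqrt (2 * d) :=
          mul_le_mul_of_nonneg_right (mul_le_mul_of_nonneg_left h5 (by norm_num)) (by positivity)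
      _ = 8 * (6 / a) ^ 2 * L ^ 2 * Real.sqrt (2 * d) := by ring
      _ ≤ d := h3
  have h8 : 8 * (s : ℝ) ^ 2 ≤ d := by
    calc 8 * (s : ℝ) ^ 2 = 8 * (s : ℝ) ^ 2 * 1 := by ring
      _ ≤ 8 * (s : ℝ) ^ 2 * Real.sqrt (2 * d) := mul_le_mul_of_nonneg_left hsq1 (by positivity)
      _ ≤ d := h4
  have h8N : 8 * s ^ 2 ≤ d := by exact_mod_cast h8
  have h4s : 4 * s ≤ d := by nlinarith
  have hk1 : (d : ℝ) / (4 * s) ≤ ((d / (2 * s) : ℕ) : ℝ) := by
    have h9 : (d : ℝ) / (2 * s : ℕ) < ((d / (2 * s) : ℕ) : ℝ) + 1 := Nat.lt_floor_add_one _ |>.trans_le (by rw [Nat.floor_div_eq_div])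
    have h10 : (1 : ℝ) ≤ d / (4 * s) := by
      rw [le_div_iff₀ (by positivity)]
      have : ((4 * s : ℕ) : ℝ) ≤ d := by exact_mod_cast h4s
      push_cast at this
      linarith
    have e : (d : ℝ) / (2 * s : ℕ) = d / (4 * s) + d / (4 * s) := by
      push_cast
      field_simp
      ring
    rw [e] at h9
    linarith
  refine ⟨s, d / s + d / (2 * s), d / (2 * s), by omega, le_rfl, ?_, ?_, ?_, h8N, ?_⟩
  · have e1 : d / s ≤ d / 2 := Nat.div_le_div_left hs3 (by norm_num)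
    have e2 : d / (2 * s) ≤ d / 2 := Nat.div_le_div_left (by omega) (by norm_num)
    omega
  · have e1 : ((d / s : ℕ) : ℝ) ≤ d / s := Nat.cast_div_le
    have e2 : ((d / (2 * s) : ℕ) : ℝ) ≤ d / (2 * s : ℕ) := Nat.cast_div_le
    push_cast at e2 ⊢
    have e3 : ((d / s : ℕ) : ℝ) + ((d / (2 * s) : ℕ) : ℝ) ≤ 3 / 2 * (d / s) := by
      have e4 : (d : ℝ) / (2 * s) = 1 / 2 * (d / s) := by field_simp
      linarith
    have e5 : (L : ℝ) ≤ a / 3 * s := by
      have : 3 / a * L * (a / 3) ≤ s * (a / 3) := mul_le_mul_of_nonneg_right hs1 (by positivity)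
      have e : 3 / a * L * (a / 3) = L := by field_simp
      rw [e] at this
      linarith
    calc (((d / s : ℕ) : ℝ) + ((d / (2 * s) : ℕ) : ℝ)) * L ≤ 3 / 2 * (d / s) * (a / 3 * s) :=
          mul_le_mul e3 e5 (by linarith) (by positivity)
      _ = a * d / 2 := by field_simp
      _ ≤ a * d := by
        have : 0 ≤ a * d := by positivity
        linarith
  · have : 2 * s * (d / (2 * s)) ≤ d := Nat.mul_div_le d (2 * s)
    linarith [this]
  · have e1 : 8 * (s : ℝ) ^ 2 / d ≤ Real.exp (-(L / 2)) := by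
      have e2 : Real.exp (-(L / 2)) = 1 / Real.sqrt (2 * d) := by
        rw [Real.exp_neg, hL, ← Real.log_sqrt (by linarith), Real.exp_log (Real.sqrt_pos.2 (by linarith)), one_div]
      rw [e2, div_le_div_iff₀ (by linarith) (by linarith), one_mul]
      exact h4
    calc (8 * (s : ℝ) ^ 2 / d) ^ (d / (2 * s)) ≤ (Real.exp (-(L / 2))) ^ (d / (2 * s)) := pow_le_pow_left₀ (by positivity) e1 _
      _ = Real.exp (-(((d / (2 * s) : ℕ) : ℝ) * (L / 2))) := by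
        rw [← Real.exp_nat_mul]
        congr 1
        ring
      _ ≤ Real.exp (-(a / 48 * d)) := by
        apply Real.exp_le_exp.2
        have e3 : a / 48 * d ≤ d / (4 * s) * (L / 2) := by
          have e4 : a / 6 * s ≤ L := by
            have : (s : ℝ) * (a / 6) ≤ 6 / a * L * (a / 6) := mul_le_mul_of_nonneg_right hs2 (by positivity)
            have e : 6 / a * L * (a / 6) = L := by field_simp
            rw [e] at this
            linarith
          have e6 : (d : ℝ) / (4 * s) * (L / 2) = d * L / (8 * s) := by field_simp; ring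
          rw [e6, le_div_iff₀ (by positivity)]
          have : (d : ℝ) * (a / 6 * s) ≤ d * L := mul_le_mul_of_nonneg_left e4 (by positivity)
          have e7 : a / 48 * d * (8 * s) = d * (a / 6 * s) := by ring
          rw [e7]
          exact this
        have e5 : d / (4 * s) * (L / 2) ≤ ((d / (2 * s) : ℕ) : ℝ) * (L / 2) := mul_le_mul_of_nonneg_right hk1 (by linarith)
        linarith

end H98A
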