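import Mathlib
import Pool.Agent.Lib.H98T.D03
import Pool.Agent.Lib.H98A.H42
import Pool.Agent.Lib.H98A.H43A
import Pool.Agent.Lib.H98A.H43B

set_option autoImplicit false

/-!
# H98A.H43: pairs with many orbits
-/

namespace H98A

open Finset H98T

open Classical in
theorem few_inv (a : ℝ) (ha : 0 < a) : ∃ d0 : ℕ, ∀ d : ℕ, d0 ≤ d → ∃ k : ℕ, k ≤ d ∧ (k : ℝ) * Real.log (2 * d) ≤ a * d ∧
    ((univ.filter (fun ρ : Fin 2 → Equiv.Perm (Fin d) => ¬ Few (Inv2 ρ) d k)).card : ℝ) ≤ Real.exp (-(a / 48 * d)) * (d.factorial : ℝ) ^ 2 := by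
  obtain ⟨d0, hd0⟩ := h43_num a ha
  refine ⟨d0, fun d hd => ?_⟩
  obtain ⟨s, k, k1, h1, h2, h3, h4, h5, h6, h7⟩ := hd0 d hd
  refine ⟨k, h3, h4, ?_⟩
  have h8 := inv_union (Fin d) s k1 (by rw [Fintype.card_fin]; exact h5) (by rw [Fintype.card_fin]; exact h6)
  rw [Fintype.card_fin] at h8
  have h9 : (univ.filter (fun ρ : Fin 2 → Equiv.Perm (Fin d) => ¬ Few (Inv2 ρ) d k)).card ≤
      (univ.filter (fun ρ : Fin 2 → Equiv.Perm (Fin d) => ∃ U : Fin k1 → Finset (Fin d), (∀ j, Inv2 ρ (U j) ∧ (U j).card ≤ s) ∧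
      ∀ i j, i ≠ j → Disjoint (U i) (U j))).card := by
    apply card_le_card
    intro ρ hρ
    rw [mem_filter] at hρ ⊢
    exact ⟨mem_univ _, exists_disjoint_of_not_few _ _ _ (h43_few ρ s k k1 h1 h2 hρ.2)⟩
  have h10 : ((univ.filter (fun ρ : Fin 2 → Equiv.Perm (Fin d) => ¬ Few (Inv2 ρ) d k)).card : ℝ) ≤
      ((univ.filter (fun ρ : Fin 2 → Equiv.Perm (Fin d) => ∃ U : Fin k1 → Finset (Fin d), (∀ j, Inv2 ρ (U j) ∧ (U j).card ≤ s) ∧
      ∀ i j, i ≠ j → Disjoint (U i) (U j))).card : ℝ) := by exact_mod_cast h9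
  refine h10.trans (h8.trans ?_)
  rw [mul_comm (Real.exp (-(a / 48 * d)))]
  exact mul_le_mul_of_nonneg_left h7 (by positivity)

end H98A
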