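import Mathlib
import Pool.Agent.Lib.H98T.GC2
import Pool.Agent.Lib.H98A.Defs

set_option autoImplicit false

/-!
# H98A.GC: copy of H98T.GC2 for forests
-/

namespace H98A

open Finset H98T

variable {g : ℕ} {V : Type*} {σ : Fin (2 * g) → Equiv.Perm V} {n C0 W K : ℕ}

theorem insd_cardE [Fintype V] [DecidableEq V] (D : DigiData σ n C0 W) (hg : 1 ≤ g) (hm : 1 ≤ D.m) (e : ℝ) (he : 0 ≤ e) (hE : ExpandE (two σ) e) (B : Bx n K) (q : Cell n K) (hf : (BL B q).Finite)
    (h : 2 * (insd D B q).ncard ≤ Fintype.card V) : ((insd D B q).ncard : ℝ) ≤ e * Fintype.card V + 300 * (C0 * (BL B q).ncard) := by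
  classical
  have hM := ncard_meet D (BL B q) hf
  set M : Set V := {x : V | (Touch D x ∩ BL B q).Nonempty} with hMdef
  set U : Finset V := (Set.toFinite (insd D B q)).toFinset with hU
  have hUc : U.card = (insd D B q).ncard := by
    rw [hU, Set.ncard_eq_toFinset_card _ (Set.toFinite _)]
  have hMU : ∀ x, x ∈ U ↔ x ∈ insd D B q := by
    intro x
    rw [hU, Set.Finite.mem_toFinset]
  set MF : Finset V := (Set.toFinite M).toFinset with hMF
  have hMc : MF.card = M.ncard := by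
    rw [hMF, Set.ncard_eq_toFinset_card _ (Set.toFinite _)]
  have hMM : ∀ x, x ∈ MF ↔ x ∈ M := by
    intro x
    rw [hMF, Set.Finite.mem_toFinset]
  by_cases hlt : ((insd D B q).ncard : ℝ) < e * Fintype.card V
  · have h0 : (0 : ℝ) ≤ 300 * ((C0 : ℝ) * ((BL B q).ncard : ℝ)) := by positivity
    linarith
  push Not at hlt
  have hexp := hE U (by rw [hUc]; exact hlt) (by rw [hUc]; exact h)
  have t0 : two σ 0 = σ ⟨0, by omega⟩ := by
    unfold two
    rw [dif_pos (by simp; omega)]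
    rfl
  have t1 : two σ 1 = σ ⟨1, by omega⟩ := by
    unfold two
    rw [dif_pos (by simp; omega)]
    rfl
  have u0 : ∀ x, u σ 0 x = x := by
    intro x
    rfl
  have u1 : ∀ x, u σ 1 x = two σ 0 x := by
    intro x
    rw [t0]
    show (if h : 0 < 4 * g then tau σ ⟨0, h⟩ * u σ 0 else u σ 0) x = _
    rw [dif_pos (by omega)]
    have : tau σ (⟨0, by omega⟩ : Fin (4 * g)) = σ ⟨0, by omega⟩ := by
      unfold tau gen
      simp
    rw [this]
    rfl
  have u2 : ∀ x, u σ 2 x = two σ 1 (two σ 0 x) := by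
    intro x
    rw [t1]
    show (if h : 1 < 4 * g then tau σ ⟨1, h⟩ * u σ 1 else u σ 1) x = _
    rw [dif_pos (by omega)]
    have : tau σ (⟨1, by omega⟩ : Fin (4 * g)) = σ ⟨1, by omega⟩ := by
      unfold tau gen
      simp
    rw [this]
    show σ ⟨1, _⟩ (u σ 1 x) = _
    rw [u1]
  have c0 : ∀ x, D.P x ∈ Touch D x := by
    intro x
    have := corner_mem D x (⟨0, by omega⟩ : Fin (4 * g))
    rwa [show u σ ((⟨0, by omega⟩ : Fin (4 * g)).val) x = x from u0 x] at this
  have c1 : ∀ x, D.P (two σ 0 x) ∈ Touch D x := by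
    intro x
    have := corner_mem D x (⟨1, by omega⟩ : Fin (4 * g))
    rwa [show u σ ((⟨1, by omega⟩ : Fin (4 * g)).val) x = two σ 0 x from u1 x] at this
  have c2 : ∀ x, D.P (two σ 1 (two σ 0 x)) ∈ Touch D x := by
    intro x
    have := corner_mem D x (⟨2, by omega⟩ : Fin (4 * g))
    rwa [show u σ ((⟨2, by omega⟩ : Fin (4 * g)).val) x = two σ 1 (two σ 0 x) from u2 x] at this
  have s0 : U.image (two σ 0) \ U ⊆ MF := by
    intro y hy
    rw [Finset.mem_sdiff, Finset.mem_image] at hy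
    obtain ⟨⟨v, hv, rfl⟩, hyU⟩ := hy
    rw [hMM]
    exact gc2_touch D hg hm B q _ _ (c0 _) ((hMU v).1 hv _ (c1 v)) (fun hh => hyU ((hMU _).2 hh))
  have s1 : U.image (two σ 1) \ U ⊆ MF ∪ MF.image (fun x => two σ 1 (two σ 0 x)) := by
    intro y hy
    rw [Finset.mem_sdiff, Finset.mem_image] at hy
    obtain ⟨⟨v, hv, rfl⟩, hyU⟩ := hy
    rw [Finset.mem_union]
    have hvx : two σ 0 ((two σ 0).symm v) = v := Equiv.apply_symm_apply _ _
    by_cases hx : (two σ 0).symm v ∈ insd D B q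
    · left
      rw [hMM]
      have h5 := c2 ((two σ 0).symm v)
      rw [hvx] at h5
      exact gc2_touch D hg hm B q _ _ (c0 _) (hx _ h5) (fun hh => hyU ((hMU _).2 hh))
    · right
      rw [Finset.mem_image]
      refine ⟨(two σ 0).symm v, ?_, by simp only [hvx]⟩
      rw [hMM]
      have h5 := c1 ((two σ 0).symm v)
      rw [hvx] at h5
      exact gc2_touch D hg hm B q _ _ h5 ((hMU v).1 hv _ (c0 v)) hx
  have e0 := Finset.card_le_card s0
  have e1 := Finset.card_le_card s1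
  have e2 := Finset.card_union_le MF (MF.image (fun x => two σ 1 (two σ 0 x)))
  have e3 : (MF.image (fun x => two σ 1 (two σ 0 x))).card ≤ MF.card := Finset.card_image_le
  rw [hUc] at hexp
  rw [hMc] at e0 e2 e3
  have hfin : (insd D B q).ncard ≤ 300 * (C0 * (BL B q).ncard) := by omega
  have hfin' : ((insd D B q).ncard : ℝ) ≤ 300 * (C0 * (BL B q).ncard) := by exact_mod_cast hfin
  have h0 : 0 ≤ e * (Fintype.card V : ℝ) := mul_nonneg he (Nat.cast_nonneg _)
  linarith

theorem Rx_cardE [Fintype V] [DecidableEq V] (D : DigiData σ n C0 W) (hg : 1 ≤ g) (hm : 1 ≤ D.m) (e : ℝ) (he : 0 ≤ e) (hE : ExpandE (two σ) e) (B : Bx n K) (q : Cell n K) (hf : (BL B q).Finite)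
    (h : 2 * (insd D B q).ncard ≤ Fintype.card V) : ({x : V | q ∈ Rx D B x}.ncard : ℝ) ≤ e * Fintype.card V + 301 * (C0 * (BL B q).ncard) := by
  have h1 := insd_cardE D hg hm e he hE B q hf h
  have h2 := ncard_meet D (BL B q) hf
  have h3 : {x : V | q ∈ Rx D B x} ⊆ insd D B q ∪ {x : V | (Touch D x ∩ BL B q).Nonempty} := by
    intro x hx
    by_cases hx2 : x ∈ insd D B q
    · exact Or.inl hx2
    · exact Or.inr (meets_BL D hg hm B q x hx hx2)
  have h4 := Set.ncard_le_ncard h3 (Set.toFinite _)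
  have h5 := Set.ncard_union_le (insd D B q) {x : V | (Touch D x ∩ BL B q).Nonempty}
  have h6 : {x : V | q ∈ Rx D B x}.ncard ≤ (insd D B q).ncard + C0 * (BL B q).ncard := by omega
  have h7 : ({x : V | q ∈ Rx D B x}.ncard : ℝ) ≤ (insd D B q).ncard + C0 * (BL B q).ncard := by exact_mod_cast h6
  linarith

end H98A
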