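import Mathlib
import Pool.Agent.Lib.H98T.GM
import Pool.Agent.Lib.H98A.GC

set_option autoImplicit false

/-!
# H98A.GM: copy of H98T.GM for forests
-/

namespace H98A

open Finset H98T

theorem gm_mE {g n C0 W d : ℕ} {σ : Fin (2 * g) → Equiv.Perm (Fin d)} (D : DigiData σ n C0 W) (hg : 1 ≤ g) (e : ℝ) (he : 0 < e) (hE : ExpandE (two σ) e)
    (hd1 : 1 ≤ d) (hd : 2 * (e * d + C0) ≤ d) : 1 ≤ D.m := by
  classical
  by_contra hcon
  have hm0 : D.m = 0 := by omega
  have hP : ∀ k v, D.P (σ k v) = D.P v := by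
    intro k v
    rw [← D.E_end k v, hm0, D.E_start]
  have htwo : ∀ (i : Fin 2) v, D.P (two σ i v) = D.P v := by
    intro i v
    unfold two
    by_cases h : i.val < 2 * g
    · rw [dif_pos h]
      exact hP _ _
    · rw [dif_neg h]
      rfl
  have hfib : ∀ p, (Finset.univ.filter (fun v => D.P v = p)).card ≤ C0 := by
    intro p
    have h4 := D.mult p
    have h5 : ((Finset.univ.filter (fun v => D.P v = p) : Finset (Fin d)) : Set (Fin d)) ⊆ {x | ∃ i j, i ≤ 4 * g * D.m ∧ j ≤ D.m' ∧ D.F x i j = p} := by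
      intro x hx
      rw [Finset.mem_coe, Finset.mem_filter] at hx
      have h6 := corner_mem D x (⟨0, by omega⟩ : Fin (4 * g))
      have h7 : u σ ((⟨0, by omega⟩ : Fin (4 * g)).val) x = x := rfl
      rw [h7, hx.2] at h6
      exact h6
    have h8 := Set.ncard_le_ncard h5 (Set.toFinite _)
    rw [Set.ncard_coe_finset] at h8
    omega
  have key : ∀ A : Finset (Fin n → ℤ), e * d ≤ ((Finset.univ.filter (fun v => D.P v ∈ A)).card : ℝ) →
      ∃ A' : Finset (Fin n → ℤ), e * d ≤ ((Finset.univ.filter (fun v => D.P v ∈ A')).card : ℝ) ∧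
        ((Finset.univ.filter (fun v => D.P v ∈ A')).card : ℝ) ≤ e * d + C0 := by
    intro A
    induction A using Finset.induction_on with
    | empty =>
      intro h
      refine ⟨∅, h, ?_⟩
      have h0 : (0 : ℝ) ≤ e * d := by positivity
      have h1 : (0 : ℝ) ≤ C0 := Nat.cast_nonneg _
      simp only [Finset.notMem_empty, Finset.filter_false, Finset.card_empty, Nat.cast_zero]
      linarith
    | insert a A _ ih =>
      intro h
      by_cases h1 : e * d ≤ ((Finset.univ.filter (fun v => D.P v ∈ A)).card : ℝ)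
      · exact ih h1
      · push Not at h1
        refine ⟨insert a A, h, ?_⟩
        have h2 : (Finset.univ.filter (fun v => D.P v ∈ insert a A)) ⊆
            (Finset.univ.filter (fun v => D.P v = a)) ∪ (Finset.univ.filter (fun v => D.P v ∈ A)) := by
          intro v hv
          rw [Finset.mem_filter, Finset.mem_insert] at hv
          rw [Finset.mem_union, Finset.mem_filter, Finset.mem_filter]
          rcases hv.2 with h3 | h3
          · exact Or.inl ⟨Finset.mem_univ _, h3⟩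
          · exact Or.inr ⟨Finset.mem_univ _, h3⟩
        have h3 := (Finset.card_le_card h2).trans (Finset.card_union_le _ _)
        have h4 := hfib a
        have h5 : ((Finset.univ.filter (fun v => D.P v ∈ insert a A)).card : ℝ) ≤ C0 + ((Finset.univ.filter (fun v => D.P v ∈ A)).card : ℝ) := by
          exact_mod_cast h3.trans (Nat.add_le_add_right h4 _)
        linarith
  have hall : (Finset.univ.filter (fun v : Fin d => D.P v ∈ Finset.univ.image D.P)).card = d := by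
    rw [Finset.filter_true_of_mem (fun v _ => Finset.mem_image_of_mem _ (Finset.mem_univ v)), Finset.card_univ, Fintype.card_fin]
  have hC0 : (0 : ℝ) ≤ C0 := Nat.cast_nonneg _
  have hdr : (1 : ℝ) ≤ d := by exact_mod_cast hd1
  have hed : 0 < e * d := by positivity
  obtain ⟨A, hA1, hA2⟩ := key (Finset.univ.image D.P) (by rw [hall]; linarith)
  set U : Finset (Fin d) := Finset.univ.filter (fun v => D.P v ∈ A) with hU
  have hinv : ∀ i : Fin 2, U.image (two σ i) \ U = ∅ := by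
    intro i
    rw [Finset.sdiff_eq_empty_iff_subset]
    intro y hy
    rw [Finset.mem_image] at hy
    obtain ⟨v, hv, rfl⟩ := hy
    rw [hU, Finset.mem_filter] at hv ⊢
    refine ⟨Finset.mem_univ _, ?_⟩
    rw [htwo i v]
    exact hv.2
  have h3 := hE U (by rw [Fintype.card_fin]; exact hA1) (by
    rw [Fintype.card_fin]
    have : (2 * U.card : ℝ) ≤ d := by linarith
    exact_mod_cast this)
  rw [hinv 0, hinv 1] at h3
  simp only [Finset.card_empty, add_zero, mul_zero, Nat.le_zero] at h3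
  rw [h3] at hA1
  push_cast at hA1
  linarith

theorem geometryE (n g C0 : ℕ) (hn : 5 ≤ n) (hg : 2 ≤ g) : ∃ CA : ℝ, 1 ≤ CA ∧ ∀ (M : ℝ) (K r : ℕ), 1 ≤ M → 2 ≤ K → 1 ≤ r →
    ∃ d0 : ℕ, ∀ d : ℕ, d0 ≤ d → ∀ (σ : Fin (2 * g) → Equiv.Perm (Fin d)) (W : ℕ), ExpandE (two σ) (1 / (K : ℝ) ^ (n - 1)) → (W : ℝ) ^ (n - 1) ≤ M * d →
      ∀ D : DigiData σ n C0 W, ∃ B : Bx n K,
        (∀ x, (Sx D B r x).Finite) ∧ (∑ x, ((Sx D B r x).ncard : ℝ)) ≤ CA * K * M * d ∧
        (∀ y, ({x | y ∈ Sx D B r x}.ncard : ℝ) ≤ CA * (r : ℝ) ^ (n - 1)) ∧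
        ({x | Bad D B r x}.ncard : ℝ) ≤ CA * K * M * d / r ∧
        ∀ q, ({x | q ∈ Rx D B x}.ncard : ℝ) ≤ CA * M / (K : ℝ) ^ (n - 1) * d := by
  set c1 : ℝ := 7 ^ n * C0 * n * 2 * 4 ^ (n - 1) with hc1
  set c2 : ℝ := 7 ^ n * C0 with hc2
  set c3 : ℝ := 5 ^ n * C0 * n ^ 2 * 44 * 4 ^ (n - 1) with hc3
  set c5 : ℝ := 301 * C0 * 16 * n * 9 ^ (n - 1) with hc5
  have c1n : 0 ≤ c1 := by positivity
  have c2n : 0 ≤ c2 := by positivity
  have c3n : 0 ≤ c3 := by positivity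
  have c5n : 0 ≤ c5 := by positivity
  refine ⟨1 + c1 + c2 + c3 + c5, by linarith, ?_⟩
  intro M K r hM hK hr
  set W0 : ℕ := K ^ 2 + K + 11 + 8 * K with hW0
  set L0 : ℕ := K * (6 + r * (K + 6)) with hL0
  refine ⟨C0 * (2 * W0 + 1) ^ n + 2 * ((2 * K) ^ n * C0) + 2 * C0 * L0 ^ n + 1 + 4 * C0, ?_⟩
  intro d hd σ W hE hW D
  have hKpos0 : (0 : ℝ) < K := by exact_mod_cast (by omega : 0 < K)
  have hK16 : (16 : ℝ) ≤ (K : ℝ) ^ (n - 1) := by
    have h1 : (2 : ℝ) ≤ K := by exact_mod_cast hK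
    calc (16 : ℝ) = 2 ^ 4 := by norm_num
      _ ≤ 2 ^ (n - 1) := pow_le_pow_right₀ (by norm_num) (by omega)
      _ ≤ (K : ℝ) ^ (n - 1) := pow_le_pow_left₀ (by norm_num) h1 _
  have he0 : (0 : ℝ) < 1 / (K : ℝ) ^ (n - 1) := by positivity
  have he1 : 1 / (K : ℝ) ^ (n - 1) ≤ 1 / 16 := one_div_le_one_div_of_le (by norm_num) hK16
  have hd1 : 1 ≤ d := by omega
  have hdC : (4 * C0 : ℝ) ≤ d := by
    have : 4 * C0 ≤ d := by omega
    exact_mod_cast this
  have hDm : 1 ≤ D.m := by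
    refine gm_mE D (by omega) (1 / (K : ℝ) ^ (n - 1)) he0 hE hd1 ?_
    have h2 : 1 / (K : ℝ) ^ (n - 1) * d ≤ 1 / 16 * d := mul_le_mul_of_nonneg_right he1 (Nat.cast_nonneg _)
    have h3 : (0 : ℝ) ≤ d := Nat.cast_nonneg _
    linarith
  have hWbig : W0 ≤ W := by
    by_contra hcon
    push Not at hcon
    have h1 := gm_all D
    have h2 : C0 * (2 * W + 1) ^ n ≤ C0 * (2 * W0 + 1) ^ n := by
      apply Nat.mul_le_mul_left
      apply Nat.pow_le_pow_left
      omega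
    omega
  obtain ⟨B, hBk, hB4, hBd, hBalt⟩ := exists_box (K := K) D (by omega) hK (by omega) (by rw [Fintype.card_fin]; omega)
  rw [Fintype.card_fin] at hBd
  have hLbig : L0 < K * B.l := by
    by_contra hcon
    push Not at hcon
    have h2 : 2 * C0 * (K * B.l) ^ n ≤ 2 * C0 * L0 ^ n := by
      apply Nat.mul_le_mul_left
      exact Nat.pow_le_pow_left hcon _
    omega
  have hlbig : 6 + r * (K + 6) < B.l := Nat.lt_of_mul_lt_mul_left hLbig
  have hl6 : 6 ≤ B.l := by omega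
  have hKpos : (0 : ℝ) < K := by exact_mod_cast (by omega : 0 < K)
  have hrpos : (0 : ℝ) < r := by exact_mod_cast (by omega : 0 < r)
  have hK2 : (2 : ℝ) ≤ K := by exact_mod_cast hK
  have hB4r : (K : ℝ) * B.l ≤ 4 * W := by exact_mod_cast hB4
  have hlr : (0 : ℝ) ≤ B.l := Nat.cast_nonneg _
  have hMd : (0 : ℝ) ≤ M * d := mul_nonneg (by linarith) (Nat.cast_nonneg _)
  have hpow : ((K : ℝ) * B.l) ^ (n - 1) ≤ 4 ^ (n - 1) * (M * d) := by
    calc ((K : ℝ) * B.l) ^ (n - 1) ≤ (4 * (W : ℝ)) ^ (n - 1) := pow_le_pow_left₀ (by positivity) hB4r _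
      _ = 4 ^ (n - 1) * (W : ℝ) ^ (n - 1) := mul_pow _ _ _
      _ ≤ 4 ^ (n - 1) * (M * d) := mul_le_mul_of_nonneg_left hW (by positivity)
  have hW8 : (8 : ℝ) * K ≤ W := by
    have : 8 * K ≤ W := by omega
    exact_mod_cast this
  obtain ⟨hSf, hSs⟩ := sum_Sx D B r
  refine ⟨B, hSf, ?_, ?_, ?_, ?_⟩
  · have h1 : (∑ x, ((Sx D B r x).ncard : ℝ)) ≤ 7 ^ n * C0 * (n * (((K : ℝ) + 1) * ((K : ℝ) * B.l) ^ (n - 1))) := by
      have h2 : ((∑ x, (Sx D B r x).ncard : ℕ) : ℝ) ≤ ((7 ^ n * C0 * (n * ((K + 1) * (K * B.l) ^ (n - 1))) : ℕ) : ℝ) := by exact_mod_cast hSs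
      push_cast at h2
      exact h2
    have h3 : ((K : ℝ) + 1) * ((K : ℝ) * B.l) ^ (n - 1) ≤ (2 * K) * (4 ^ (n - 1) * (M * d)) := by
      apply mul_le_mul (by linarith) hpow (by positivity) (by positivity)
    have h4 : 7 ^ n * (C0 : ℝ) * (n * (((K : ℝ) + 1) * ((K : ℝ) * B.l) ^ (n - 1))) ≤ 7 ^ n * (C0 : ℝ) * (n * ((2 * K) * (4 ^ (n - 1) * (M * d)))) := by
      apply mul_le_mul_of_nonneg_left _ (by positivity)
      apply mul_le_mul_of_nonneg_left h3 (by positivity)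
    have h5 : 7 ^ n * (C0 : ℝ) * (n * ((2 * K) * (4 ^ (n - 1) * (M * d)))) = c1 * (K * (M * d)) := by
      rw [hc1]; ring
    have h6 : c1 * ((K : ℝ) * (M * d)) ≤ (1 + c1 + c2 + c3 + c5) * (K * (M * d)) := by
      apply mul_le_mul_of_nonneg_right (by linarith) (by positivity)
    calc (∑ x, ((Sx D B r x).ncard : ℝ)) ≤ _ := h1
      _ ≤ _ := h4
      _ = _ := h5
      _ ≤ _ := h6
      _ = (1 + c1 + c2 + c3 + c5) * K * M * d := by ring
  · intro y
    have h1 := mult_Sx D B r hr y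
    have h2 : (({x : Fin d | y ∈ Sx D B r x}.ncard : ℕ) : ℝ) ≤ ((7 ^ n * C0 * r ^ (n - 1) : ℕ) : ℝ) := by exact_mod_cast h1
    push_cast at h2
    refine le_trans h2 ?_
    apply mul_le_mul_of_nonneg_right _ (by positivity)
    linarith
  · have h1 := bad_card D B r hr hl6
    have h2 : (({x : Fin d | Bad D B r x}.ncard : ℕ) : ℝ) ≤
        ((5 ^ n * C0 * (n * (n * ((K + 1) * ((11 * (K * B.l / r + 3) + 11 * (K + 3)) * (K * B.l) ^ (n - 2))))) : ℕ) : ℝ) := by exact_mod_cast h1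
    push_cast at h2
    have h3 : (((K * B.l / r : ℕ)) : ℝ) ≤ (K : ℝ) * B.l / r := by
      have h4 : (((K * B.l / r : ℕ)) : ℝ) ≤ ((K * B.l : ℕ) : ℝ) / (r : ℝ) := Nat.cast_div_le
      push_cast at h4
      exact h4
    have h5 : (K : ℝ) + 6 ≤ (K : ℝ) * B.l / r := by
      rw [le_div_iff₀ hrpos]
      have h6 : (K + 6) * r ≤ K * B.l := by
        have h7 : r * (K + 6) ≤ B.l := by omega
        have h8 : B.l ≤ K * B.l := Nat.le_mul_of_pos_left _ (by omega)
        calc (K + 6) * r = r * (K + 6) := by ring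
          _ ≤ B.l := h7
          _ ≤ K * B.l := h8
      exact_mod_cast h6
    have h9 : 11 * ((((K * B.l / r : ℕ)) : ℝ) + 3) + 11 * ((K : ℝ) + 3) ≤ 22 * ((K : ℝ) * B.l / r) := by linarith
    have hn2 : ((K : ℝ) * B.l) * ((K : ℝ) * B.l) ^ (n - 2) = ((K : ℝ) * B.l) ^ (n - 1) := by
      rw [← pow_succ']
      congr 1
      omega
    have h10 : (11 * ((((K * B.l / r : ℕ)) : ℝ) + 3) + 11 * ((K : ℝ) + 3)) * ((K : ℝ) * B.l) ^ (n - 2) ≤ 22 * (4 ^ (n - 1) * (M * d)) / r := by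
      calc (11 * ((((K * B.l / r : ℕ)) : ℝ) + 3) + 11 * ((K : ℝ) + 3)) * ((K : ℝ) * B.l) ^ (n - 2)
          ≤ (22 * ((K : ℝ) * B.l / r)) * ((K : ℝ) * B.l) ^ (n - 2) := mul_le_mul_of_nonneg_right h9 (by positivity)
        _ = 22 * (((K : ℝ) * B.l) * ((K : ℝ) * B.l) ^ (n - 2)) / r := by ring
        _ = 22 * ((K : ℝ) * B.l) ^ (n - 1) / r := by rw [hn2]
        _ ≤ 22 * (4 ^ (n - 1) * (M * d)) / r := by
            apply div_le_div_of_nonneg_right _ (le_of_lt hrpos)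
            linarith
    have h11 : ((K : ℝ) + 1) * ((11 * ((((K * B.l / r : ℕ)) : ℝ) + 3) + 11 * ((K : ℝ) + 3)) * ((K : ℝ) * B.l) ^ (n - 2)) ≤
        (2 * K) * (22 * (4 ^ (n - 1) * (M * d)) / r) := by
      apply mul_le_mul (by linarith) h10 (by positivity) (by positivity)
    have h12 : 5 ^ n * (C0 : ℝ) * (n * (n * (((K : ℝ) + 1) * ((11 * ((((K * B.l / r : ℕ)) : ℝ) + 3) + 11 * ((K : ℝ) + 3)) * ((K : ℝ) * B.l) ^ (n - 2))))) ≤
        5 ^ n * (C0 : ℝ) * (n * (n * ((2 * K) * (22 * (4 ^ (n - 1) * (M * d)) / r)))) := by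
      apply mul_le_mul_of_nonneg_left _ (by positivity)
      apply mul_le_mul_of_nonneg_left _ (by positivity)
      apply mul_le_mul_of_nonneg_left h11 (by positivity)
    have h13 : 5 ^ n * (C0 : ℝ) * (n * (n * ((2 * K) * (22 * (4 ^ (n - 1) * (M * d)) / r)))) = c3 * (K * (M * d) / r) := by
      rw [hc3]; ring
    have h14 : c3 * ((K : ℝ) * (M * d) / r) ≤ (1 + c1 + c2 + c3 + c5) * (K * (M * d) / r) := by
      apply mul_le_mul_of_nonneg_right (by linarith) (by positivity)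
    calc (({x : Fin d | Bad D B r x}.ncard : ℕ) : ℝ) ≤ _ := h2
      _ ≤ _ := h12
      _ = _ := h13
      _ ≤ _ := h14
      _ = (1 + c1 + c2 + c3 + c5) * K * M * d / r := by ring
  · intro q
    have hfin : (1 + c1 + c2 + c3 + c5) * M / (K : ℝ) ^ (n - 1) * d = (1 + c1 + c2 + c3 + c5) * (M * d / (K : ℝ) ^ (n - 1)) := by ring
    rw [hfin]
    have hc5le : (1 + c5) * (M * d / (K : ℝ) ^ (n - 1)) ≤ (1 + c1 + c2 + c3 + c5) * (M * d / (K : ℝ) ^ (n - 1)) := by
      apply mul_le_mul_of_nonneg_right (by linarith) (by positivity)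
    refine le_trans ?_ hc5le
    have hcase : (2 * (insd D B q).ncard ≤ d ∧ (BL B q).Finite ∧ ∃ X : ℕ, (BL B q).ncard ≤ 16 * n * X ^ (n - 1) ∧ (X : ℝ) * K ≤ 9 * W) ∨
        {x : Fin d | q ∈ Rx D B x} = ∅ := by
      rcases q with _ | k
      · rcases hBalt with h | ⟨h1, h2⟩
        · right
          apply Set.eq_empty_of_forall_notMem
          rintro x ⟨z, hz, hQ⟩
          exact h x z hz hQ
        · left
          rw [Fintype.card_fin] at h1
          have h3 := BL_none B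
          refine ⟨h1, h3.1, K * B.l + 8, h3.2, ?_⟩
          push_cast
          have h4 : (K : ℝ) * (K * B.l) ≤ 8 * W := by exact_mod_cast h2
          linarith
      · left
        have h1 := hBk k
        rw [Fintype.card_fin] at h1
        have h3 := BL_some B k
        refine ⟨h1, h3.1, B.l + 8, h3.2, ?_⟩
        push_cast
        linarith
    rcases hcase with ⟨h1, h2, X, h3, h4⟩ | h1
    · have h5 := Rx_cardE D (by omega) hDm _ he0.le hE B q h2 (by rw [Fintype.card_fin]; exact h1)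
      rw [Fintype.card_fin] at h5
      have h6 : 301 * (C0 * (BL B q).ncard) ≤ 301 * (C0 * (16 * n * X ^ (n - 1))) := by
        apply Nat.mul_le_mul_left
        exact Nat.mul_le_mul_left _ h3
      have h6' : ((301 * (C0 * (BL B q).ncard) : ℕ) : ℝ) ≤ ((301 * (C0 * (16 * n * X ^ (n - 1))) : ℕ) : ℝ) := by exact_mod_cast h6
      push_cast at h6'
      have h7 : ({x : Fin d | q ∈ Rx D B x}.ncard : ℝ) ≤ 1 / (K : ℝ) ^ (n - 1) * d + 301 * ((C0 : ℝ) * (16 * n * (X : ℝ) ^ (n - 1))) := by linarith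
      have h7' : 1 / (K : ℝ) ^ (n - 1) * d ≤ M * d / (K : ℝ) ^ (n - 1) := by
        rw [one_div_mul_eq_div]
        apply div_le_div_of_nonneg_right _ (by positivity)
        have h3 : (0 : ℝ) ≤ d := Nat.cast_nonneg _
        nlinarith
      have h8 := gm_bl (301 * C0 * 16 * n) X W K (n - 1) 9 (M * d) (by norm_num) hKpos (Nat.cast_nonneg _) h4 hW (by positivity)
      have h9 : 301 * ((C0 : ℝ) * (16 * n * (X : ℝ) ^ (n - 1))) = 301 * C0 * 16 * n * (X : ℝ) ^ (n - 1) := by ring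
      rw [h9] at h7
      have h10 : 301 * (C0 : ℝ) * 16 * n * 9 ^ (n - 1) * (M * d / (K : ℝ) ^ (n - 1)) = c5 * (M * d / (K : ℝ) ^ (n - 1)) := by
        rw [hc5]
      rw [h10] at h8
      rw [add_mul, one_mul]
      linarith
    · rw [h1, Set.ncard_empty]
      push_cast
      positivity

end H98A
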