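import Mathlib
import Pool.Agent.Lib.H98T.Z09
import Pool.Agent.Lib.H98A.GM
import Pool.Agent.Lib.H98A.F17

set_option autoImplicit false

/-!
# H98A.Z09: copy of H98T.Z09 for forests
-/

namespace H98A

open Finset H98T

theorem exists_ctxF (n g C0 : ℕ) (hn : 5 ≤ n) (hg : 2 ≤ g) : ∃ CA : ℝ, 1 ≤ CA ∧ ∀ (M eta : ℝ) (K q r j1 j2 : ℕ), 1 ≤ M → 0 < eta →
    2 ≤ K → 8 ≤ q → 2 ^ r = q ^ 2 → 1 ≤ j1 → j1 < j2 →
    ∃ (t3 t4 : ℕ) (δ : ℝ), 0 < δ ∧ ∃ d0 : ℕ, ∀ d : ℕ, d0 ≤ d → ∀ (kk : ℕ) (σ : Fin (2 * g) → Equiv.Perm (Fin d)), IsCov σ → ExpandE (two σ) (1 / (K : ℝ) ^ (n - 1)) →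
      Few (Inv2 (two σ)) d kk →
      Few (Dense (two σ)) t4 ⌈δ * d⌉₊ → (∀ F : Finset (Fin 2 × Fin d), IsSpanF (two σ) F kk → Few (FDense σ F) t3 ⌈δ * d⌉₊) →
      ∀ W : ℕ, (W : ℝ) ^ (n - 1) ≤ M * d → Digi σ n C0 W →
        ∃ F : Finset (Fin 2 × Fin d), IsSpanF (two σ) F kk ∧ ∃ Z : ZCtx hg σ F (Lt n K),
          (∃ t, t < j1 ∧ Z.t1 = 2 ^ t) ∧ Z.Ap = Ap g CA M K r ∧ Z.w1 = ww1 g CA M K r j1 ∧ Z.w2 = ww2 g CA M K r j1 j2 eta ∧
          Z.w4 = ww4 q eta ∧ Z.w5 = ww5 CA M K q r eta ∧ Nonempty (LCtx Z (Cell n K) (kapp g n CA M K r)) := by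
  classical
  obtain ⟨CA, hCA, hgeo⟩ := geometryE n g C0 hn hg
  refine ⟨CA, hCA, ?_⟩
  intro M eta K q r j1 j2 hM heta hK hq hr hj1 hj
  obtain ⟨ρ, b, t4, δ, hρ, hc1, hc2, hc3, hδ, d1, hc4⟩ := z_constants n g K r j2 CA M eta hCA hM heta
  obtain ⟨d2, hd2⟩ := hgeo M K ρ hM hK hρ
  have hKpos : (0 : ℝ) < K := by exact_mod_cast (by omega : 0 < K)
  have hqpos : (0 : ℝ) < q := by exact_mod_cast (by omega : 0 < q)
  set κ : ℝ := CA * M / (K : ℝ) ^ (n - 1) with hκ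
  have hκ0 : 0 < κ := by rw [hκ]; positivity
  obtain ⟨d3, hd3⟩ := z09_kd κ (4 * (Fintype.card (Cell n K) : ℝ) * (4 ^ (r + 1) * (r + 1) ^ 2)) hκ0
  refine ⟨b * (1 + 16 * g * 2 ^ r), t4, δ, hδ, max d1 (max d2 (max d3 1)), ?_⟩
  intro d hd kk σ hcov hexp hinvf hdense hfdense W hW hD
  obtain ⟨D⟩ := hD
  have hdd1 : d1 ≤ d := le_trans (le_max_left _ _) hd
  have hdd2 : d2 ≤ d := le_trans (le_trans (le_max_left _ _) (le_max_right _ _)) hd
  have hdd3 : d3 ≤ d := le_trans (le_trans (le_max_left _ _) (le_trans (le_max_right _ _) (le_max_right _ _))) hd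
  have hdd4 : 1 ≤ d := le_trans (le_trans (le_max_right _ _) (le_trans (le_max_right _ _) (le_max_right _ _))) hd
  have hne : Nonempty (Fin d) := ⟨⟨0, hdd4⟩⟩
  obtain ⟨hc4, hc5⟩ := hc4 d hdd1
  obtain ⟨B, hSf, hSs, hSm, hBad, hR⟩ := hd2 d hdd2 σ W hexp hW D
  have hcd : Fintype.card (Fin d) = d := Fintype.card_fin d
  -- the forest
  obtain ⟨P, hPr, hPg, hProots, hPs, hPS, hPR⟩ := exists_forest σ q r hq hr (Sx D B ρ) (Rx D B) (CA * K * M) κ hκ0 hSf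
    (by rw [hcd]; exact hSs) (by intro c; rw [hcd]; exact hR c) (by rw [hcd]; exact hd3 d hdd3)
  rw [hcd] at hProots hPs hPS
  -- the tree
  obtain ⟨F, hF, hFx⟩ := exists_treeF P r t4 ⌈δ * d⌉₊ hc3 kk (by rw [hcd]; exact hinvf) hdense
  rw [hcd] at hFx
  -- the hitting set
  obtain ⟨Z3, hZ3c, hZ3⟩ := exists_hitting (FDense σ F) (b * (1 + 16 * g * 2 ^ r)) ⌈δ * d⌉₊ (hfdense F hF)
  set S' : Fin d → Set (Lt n K) := GS σ P (Sx D B ρ) with hS'
  have hS'fin : ∀ x, (S' x).Finite := GS_finite σ P (Sx D B ρ) hSf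
  have hmult : ∀ y, {x | y ∈ S' x}.ncard ≤ b * (1 + 16 * g * 2 ^ r) := by
    intro y
    apply mult_GS σ P (Sx D B ρ) y b r hPr
    have h1 : ({x | y ∈ Sx D B ρ x}.ncard : ℝ) ≤ b := le_trans (hSm y) hc2
    exact_mod_cast h1
  obtain ⟨i1, -, hi1, hw1⟩ := window (fun x => (S' x).ncard) 0 j1 (by omega)
  obtain ⟨i2, hi2, hi2', hw2⟩ := window (fun x => (S' x).ncard) j1 j2 hj
  -- the cut polygons
  set cutP : Fin d → Prop := fun x => Bad D B ρ x ∨ 2 ^ i2 ≤ (S' x).ncard ∨ x ∈ Z3 with hcutP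
  -- the gauged net
  obtain ⟨wd, st, hwinv, hwrel, hwalk, hstinv, hptr, hlet, hroot, hst⟩ := gauge_net hg σ hcov lsrc ltgt (ew D B ρ) (fun v => B.Q (D.P v))
    (fun k v => walk_ew D B ρ k v) (Bad D B ρ) (fun x hx => polygon_rel D B ρ x hx) (Sx D B ρ) (fun x s y h => letters_side D B ρ x s y h) P
  obtain ⟨N, hNinv, hNcut, hNF, hNword, hNleg, hNtake⟩ := net_of_words (dinv hg σ) (dinv_dinv hg σ) (dinv_ne hg σ)
    (fun z => cutP z.1) (FD hg σ F) (FD_dinv hg σ F) wd hwinv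
    (fun z hz => hwrel z.1 z.2 (fun h => hz (Or.inl h)))
  have hNmem : ∀ e y, y ∈ N.word e → ∃ t, (y, t) ∈ (wd e).toWord := fun e y hy => z09_mem (wd e) (N.word e) (hNword e) y hy
  have hNmemS : ∀ e y, y ∈ N.word e → y ∈ S' e.1.1 := fun e y hy => hlet e y (hNmem e y hy)
  have hAC : N.AC := by
    apply net_AC hg σ F N hNinv cutP _ _ S' hNmemS (b * (1 + 16 * g * 2 ^ r)) hmult
    · intro U hU hUc
      obtain ⟨x, hx⟩ := hZ3 U hU hU.1 hUc
      rw [Finset.mem_inter] at hx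
      exact ⟨x, hx.1, Or.inr (Or.inr hx.2)⟩
    · intro z; rw [hNcut]
    · intro e; rw [hNF]
  have hpow : (1 : ℝ) ≤ 2 ^ j2 := one_le_pow₀ (by norm_num)
  have hdpos : (0 : ℝ) < d := by exact_mod_cast hdd4
  -- letters of uncut darts
  have hTle : ∀ e : Dart (Nd g (Fin d)), ¬ cutP e.1.1 → (({y | y ∈ N.word e}.ncard : ℕ) : ℝ) ≤ 2 ^ j2 := by
    intro e he
    have h1 : {y | y ∈ N.word e}.ncard ≤ (S' e.1.1).ncard := Set.ncard_le_ncard (fun y hy => hNmemS e y hy) (hS'fin _)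
    have h2 : (S' e.1.1).ncard < 2 ^ i2 := by
      by_contra hcon
      push Not at hcon
      exact he (Or.inr (Or.inl hcon))
    have h3 : {y | y ∈ N.word e}.ncard ≤ 2 ^ j2 := le_trans h1 (le_trans h2.le (Nat.pow_le_pow_right (by norm_num) hi2'.le))
    exact_mod_cast h3
  have hApn : 0 ≤ Ap g CA M K r := by unfold Ap Aa; positivity
  refine ⟨F, hF, ⟨N, hNinv, hNF, hAC, cutP, ?_, S', hS'fin, hNmemS, F0D hg σ P F, ?_, ?_, ?_, 2 ^ i1, 2 ^ i2, Nat.one_le_two_pow, ?_, ?_,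
    Ap g CA M K r, ww1 g CA M K r j1, ww2 g CA M K r j1 j2 eta, ww4 q eta, ww5 CA M K q r eta, ?_, ?_, ?_, ?_, ?_, ?_⟩, ⟨i1, hi1, rfl⟩, rfl, rfl, rfl, rfl, rfl, ⟨?_⟩⟩
  · intro z; rw [hNcut]
  · intro e he; rw [hNF]; exact he.1
  · rintro e ⟨he, v, hv, hve⟩
    have h1 := hptr v hv e hve
    rw [hNword, h1]
    simp
  · intro e; rw [hNinv]; exact F0D_dinv hg σ P F e
  · exact Nat.pow_le_pow_right (by norm_num) (by omega)
  · intro x hx
    by_contra hcon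
    push Not at hcon
    exact hx (Or.inr (Or.inl hcon))
  · have h1 : (0 : ℝ) < (j2 : ℝ) - j1 := by
      have : (j1 : ℝ) < j2 := by exact_mod_cast hj
      linarith
    refine ⟨hApn, ?_, ?_, ?_, ?_⟩
    · unfold ww1; positivity
    · unfold ww2; positivity
    · unfold ww4; positivity
    · unfold ww5 Aa; positivity
  · -- n1
    rw [hcd]
    exact hPS
  · -- n2
    rw [hcd]
    exact z09_n2 _ _ _ _ _ _ (by exact_mod_cast hj1) (by exact_mod_cast hw1) hPS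
  · -- n3
    rw [hcd]
    have h1 : {x | cutP x}.ncard ≤ {x | Bad D B ρ x}.ncard + ({x | 2 ^ i2 ≤ (S' x).ncard}.ncard + Z3.card) := by
      have h2 : {x | cutP x} ⊆ {x | Bad D B ρ x} ∪ ({x | 2 ^ i2 ≤ (S' x).ncard} ∪ (Z3 : Set (Fin d))) := fun x hx => hx
      refine le_trans (Set.ncard_le_ncard h2 (Set.toFinite _)) (le_trans (Set.ncard_union_le _ _) ?_)
      refine Nat.add_le_add_left (le_trans (Set.ncard_union_le _ _) ?_) _
      rw [Set.ncard_coe_finset]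
    have h2 : ({x | cutP x}.ncard : ℝ) ≤ {x | Bad D B ρ x}.ncard + (({x | 2 ^ i2 ≤ (S' x).ncard}.ncard : ℝ) + Z3.card) := by exact_mod_cast h1
    have h3 : (2 : ℝ) ^ i2 ≤ 2 ^ j2 := pow_le_pow_right₀ (by norm_num) hi2'.le
    have h4 : (Z3.card : ℝ) ≤ ((b * (1 + 16 * g * 2 ^ r) : ℕ) : ℝ) * (⌈δ * d⌉₊ : ℝ) := by exact_mod_cast hZ3c
    have h5 : ((2 ^ i2 : ℕ) : ℝ) * ({x | 2 ^ i2 ≤ (S' x).ncard}.ncard : ℝ) ≤ 2 * Ap g CA M K r / ((j2 : ℝ) - j1) * d := by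
      apply z09_n3 _ _ _ _ _ _ _ (by exact_mod_cast hj : (j1 : ℝ) < j2) _ hPS
      have h6 := hw2
      have h7 : (2 ^ i2 * {x | 2 ^ i2 ≤ (S' x).ncard}.ncard * (j2 - j1) : ℕ) ≤ 2 * ∑ x, (S' x).ncard := h6
      have h8 : ((2 ^ i2 * {x | 2 ^ i2 ≤ (S' x).ncard}.ncard * (j2 - j1) : ℕ) : ℝ) ≤ ((2 * ∑ x, (S' x).ncard : ℕ) : ℝ) := by exact_mod_cast h7
      push_cast [Nat.cast_sub hj.le] at h8
      push_cast
      exact h8
    unfold ww2
    have h6 : (0 : ℝ) ≤ {x | Bad D B ρ x}.ncard := Nat.cast_nonneg _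
    have h7 : (0 : ℝ) ≤ Z3.card := Nat.cast_nonneg _
    have h8 : (2 : ℝ) ^ i2 * {x | Bad D B ρ x}.ncard ≤ eta / 2 * d := by
      have h9 : (2 : ℝ) ^ j2 * (CA * K * M / ρ) * d ≤ eta / 2 * d := mul_le_mul_of_nonneg_right hc1 hdpos.le
      calc (2 : ℝ) ^ i2 * {x | Bad D B ρ x}.ncard ≤ 2 ^ j2 * (CA * K * M * d / ρ) := mul_le_mul h3 hBad h6 (by positivity)
        _ = 2 ^ j2 * (CA * K * M / ρ) * d := by ring
        _ ≤ eta / 2 * d := h9
    have h9 : (2 : ℝ) ^ i2 * Z3.card ≤ eta / 2 * d :=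
      le_trans (mul_le_mul h3 h4 h7 (by positivity)) hc5
    push_cast at h5 ⊢
    calc (2 : ℝ) ^ i2 * {x | cutP x}.ncard ≤ 2 ^ i2 * ({x | Bad D B ρ x}.ncard + (({x | 2 ^ i2 ≤ (S' x).ncard}.ncard : ℝ) + Z3.card)) :=
          mul_le_mul_of_nonneg_left h2 (by positivity)
      _ = 2 ^ i2 * {x | Bad D B ρ x}.ncard + 2 ^ i2 * ({x | 2 ^ i2 ≤ (S' x).ncard}.ncard : ℝ) + 2 ^ i2 * Z3.card := by ring
      _ ≤ eta / 2 * d + 2 * Ap g CA M K r / ((j2 : ℝ) - j1) * d + eta / 2 * d := by gcongr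
      _ = (2 * Ap g CA M K r / ((j2 : ℝ) - j1) + eta) * d := by ring
  · -- n4
    rw [hcd, hNF]
    have h1 := n4_le hg σ P F r
    have h2 : ({e : Dart (Nd g (Fin d)) | FD hg σ F e ∧ ¬ F0D hg σ P F e}.ncard : ℝ) ≤ 2 * (((univ.filter (fun v => P.root v ∧ Good (two σ) r v)).card : ℝ) +
        (F \ univ.image P.ptr).card + (univ.filter (fun v => ¬ Good (two σ) r v)).card) := by exact_mod_cast h1
    refine le_trans h2 ?_
    have h3 : 2 * (((F \ univ.image P.ptr).card : ℝ) + (univ.filter (fun v => ¬ Good (two σ) r v)).card) ≤ eta * d := by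
      refine le_trans ?_ hc4
      have h4 : 2 * (((F \ univ.image P.ptr).card : ℝ) + (univ.filter (fun v => ¬ Good (two σ) r v)).card) ≤
          2 * ((1 + 2 ^ (r + 2) * (2 * (r : ℝ) + 4)) * (⌈δ * d⌉₊ : ℝ) + (d : ℝ) / t4) := mul_le_mul_of_nonneg_left hFx (by norm_num)
      refine le_trans h4 ?_
      apply mul_le_mul_of_nonneg_right _ (by positivity)
      linarith
    unfold ww4
    calc 2 * (((univ.filter (fun v => P.root v ∧ Good (two σ) r v)).card : ℝ) + (F \ univ.image P.ptr).card + (univ.filter (fun v => ¬ Good (two σ) r v)).card)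
        = 2 * ((univ.filter (fun v => P.root v ∧ Good (two σ) r v)).card : ℝ) +
          2 * (((F \ univ.image P.ptr).card : ℝ) + (univ.filter (fun v => ¬ Good (two σ) r v)).card) := by ring
      _ ≤ 2 * (8 / q * d) + eta * d := add_le_add (mul_le_mul_of_nonneg_left hProots (by norm_num)) h3
      _ = (16 / q + eta) * d := by ring
  · -- n5
    rw [hcd]
    have h1 := n5_le hg σ P F r cutP (fun e => (({y | y ∈ N.word e}.ncard : ℕ) : ℝ)) (fun e => Nat.cast_nonneg _) (2 ^ j2) (by positivity)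
      (fun x => ∑ u ∈ P.path ((two σ 0)⁻¹ x), (((Sx D B ρ u).ncard : ℝ) + (Sx D B ρ ((two σ 0)⁻¹ u)).ncard))
      (fun x => Finset.sum_nonneg (fun u _ => by positivity)) hTle ?_
    · have h5 : (∑ e : Dart (Nd g (Fin d)), if N.F e ∧ ¬ F0D hg σ P F e ∧ ¬ N.cut e.1 then (({y | y ∈ N.word e}.ncard : ℕ) : ℝ) else 0) ≤
          ww5 CA M K q r eta * d := by
        refine le_trans (le_of_eq ?_) (le_trans h1 ?_)
        · apply Finset.sum_congr rfl
          intro e _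
          have h3 : (N.F e ∧ ¬ F0D hg σ P F e ∧ ¬ N.cut e.1) ↔ (FD hg σ F e ∧ ¬ F0D hg σ P F e ∧ ¬ cutP e.1.1) := by
            rw [hNF, hNcut]
          by_cases h4 : FD hg σ F e ∧ ¬ F0D hg σ P F e ∧ ¬ cutP e.1.1
          · rw [if_pos h4, if_pos (h3.2 h4)]
          · rw [if_neg h4, if_neg (fun h => h4 (h3.1 h))]
        have h6 : 2 * (2 : ℝ) ^ j2 * (((F \ univ.image P.ptr).card : ℝ) + (univ.filter (fun v => ¬ Good (two σ) r v)).card) ≤ eta * d :=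
          le_trans (mul_le_mul_of_nonneg_left hFx (by positivity)) hc4
        unfold ww5 Aa
        refine le_trans (add_le_add (mul_le_mul_of_nonneg_left hPs (by norm_num)) h6) (le_of_eq ?_)
        field_simp
        ring
      exact h5
    · intro x hx e he
      have h3 : {y | y ∈ N.word e} ⊆ ⋃ v ∈ P.path ((two σ 0)⁻¹ x), (Sx D B ρ v ∪ Sx D B ρ ((two σ 0)⁻¹ v)) := by
        intro y hy
        obtain ⟨v, hv, hy'⟩ := hroot x hx e he y (hNmem e y hy)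
        rw [Set.mem_iUnion₂]
        exact ⟨v, hv, hy'⟩
      have h4 : (⋃ v ∈ P.path ((two σ 0)⁻¹ x), (Sx D B ρ v ∪ Sx D B ρ ((two σ 0)⁻¹ v))).Finite :=
        Set.Finite.biUnion (Finset.finite_toSet _) (fun v _ => (hSf v).union (hSf _))
      have h5 : {y | y ∈ N.word e}.ncard ≤ ∑ v ∈ P.path ((two σ 0)⁻¹ x), ((Sx D B ρ v).ncard + (Sx D B ρ ((two σ 0)⁻¹ v)).ncard) :=
        le_trans (Set.ncard_le_ncard h3 h4) (le_trans (Finset.set_ncard_biUnion_le _ _) (Finset.sum_le_sum (fun v _ => Set.ncard_union_le _ _)))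
      have h6 : (({y | y ∈ N.word e}.ncard : ℕ) : ℝ) ≤ ((∑ v ∈ P.path ((two σ 0)⁻¹ x), ((Sx D B ρ v).ncard + (Sx D B ρ ((two σ 0)⁻¹ v)).ncard) : ℕ) : ℝ) := by
        exact_mod_cast h5
      push_cast at h6
      exact h6
  · exact
      { src := lsrc
        tgt := ltgt
        wd := wd
        st := st
        Rp := GS σ P (Rx D B)
        wd_word := fun e => (hNword e).trans (congrArg (List.map Prod.fst) (z09_inst _ _ _))
        leg_le := fun e => (hNleg e).trans (le_of_eq (congrArg List.length (z09_inst _ _ _)))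
        leg_take := by
          intro e
          have h := hNtake e
          rw [z09_inst _ (fun a b => Classical.propDecidable (a = b)) (wd e), z09_inst _ (fun a b => Classical.propDecidable (a = b)) ((wd (prv e))⁻¹)] at h
          exact h
        wd_inv := by
          show ∀ e, wd (N.inv e) = (wd e)⁻¹
          rw [hNinv]; exact hwinv
        walk := hwalk
        st_inv := by
          show ∀ e, st (N.inv e) = st (nxt e)
          rw [hNinv]; exact hstinv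
        st_mem := by
          intro e
          obtain ⟨s, hs, hse⟩ := hst e
          rw [hse]
          exact start_mem_GS σ (fun v => B.Q (D.P v)) P (Rx D B) (fun v => (cells_Rx D B ρ v).2 _ (z09_P D hg v)) e.1.1 s hs
        src_mem := fun e y hy => GS_map σ P (Sx D B ρ) (Rx D B) lsrc (fun v a ha => ((cells_Rx D B ρ v).1 a ha).1) e.1.1 y (hNmemS e y hy)
        tgt_mem := fun e y hy => GS_map σ P (Sx D B ρ) (Rx D B) ltgt (fun v a ha => ((cells_Rx D B ρ v).1 a ha).2) e.1.1 y (hNmemS e y hy)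
        mult := hPR }

end H98A
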