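import Mathlib
import Pool.Agent.Lib.H98T.Z11
import Pool.Agent.Lib.H98A.C15
import Pool.Agent.Lib.H98A.D07
import Pool.Agent.Lib.H98A.Z10

set_option autoImplicit false

/-!
# H98A.Z11: copy of H98T.Z11 for forests
-/

namespace H98A

open Finset H98T

open Classical in
theorem core_countF (n g C0 : ℕ) (hn : 5 ≤ n) (hg : 2 ≤ g) (M c a : ℝ) (hM : 1 ≤ M) : ∃ e : ℝ, 0 < e ∧ ∃ d0 : ℕ, ∀ d : ℕ, d0 ≤ d →
    ∀ kk : ℕ, kk ≤ d → (kk : ℝ) * Real.log (2 * d) ≤ a * d →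
    ((univ.filter (fun σ : Fin (2 * g) → Equiv.Perm (Fin d) =>
      IsCov σ ∧ ExpandE (two σ) e ∧ Few (Inv2 (two σ)) d kk ∧ ∃ W : ℕ, (W : ℝ) ^ (n - 1) ≤ M * d ∧ Digi σ n C0 W)).card : ℝ) ≤
      3 * (Real.exp (-(c * d)) * (d.factorial : ℝ) ^ (2 * g - 1)) := by
  obtain ⟨Cg, hCg, henc⟩ := enc_countF hg
  obtain ⟨CA, hCA, hex⟩ := exists_EncF n g C0 hn hg
  obtain ⟨p⟩ := exists_Par g n CA M Cg (c + a) hg hn hCA hM hCg
  obtain ⟨t3, t4, δ, hδ, d1, hd1⟩ := hex M Cg (c + a) hM p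
  have hAp : 0 ≤ Ap g CA M p.K p.r := z11_Ap_nonneg g CA M p.K p.r hCA hM
  have hAa : 0 ≤ Aa CA M p.K := by
    unfold Aa
    have h1 : 0 ≤ CA := by linarith
    have h2 : 0 ≤ M := by linarith
    positivity
  have hK : (2 : ℝ) ≤ p.K := by exact_mod_cast p.hK
  have hA1 : 1 ≤ AA1 g CA M p.K p.r := by
    unfold AA1
    have : 0 ≤ 36 * (g : ℝ) * (1 + Ap g CA M p.K p.r) := by positivity
    have : (0 : ℝ) ≤ 12 * g := by positivity
    linarith
  have hkap0 : 0 < kapp g n CA M p.K p.r := by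
    unfold kapp
    have h1 : 0 < CA := by linarith
    have h2 : 0 < M := by linarith
    have h3 : (0 : ℝ) < p.K := by linarith
    positivity
  have heta := p.heta
  have hLam := p.hLam
  have hw4 : 0 ≤ ww4 p.q p.eta := by
    unfold ww4; positivity
  have hw5 : 0 ≤ ww5 CA M p.K p.q p.r p.eta := by
    unfold ww5; positivity
  have hw1 : 0 ≤ ww1 g CA M p.K p.r p.j1 := by
    unfold ww1; positivity
  have hw2 : 0 ≤ ww2 g CA M p.K p.r p.j1 p.j2 p.eta := by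
    unfold ww2
    have : (0 : ℝ) < (p.j2 : ℝ) - p.j1 := by
      have : (p.j1 : ℝ) < p.j2 := by exact_mod_cast p.hj
      linarith
    positivity
  have hX : 0 ≤ p.X := by
    refine le_trans ?_ p.hX
    positivity
  have hth := p.hth
  obtain ⟨D, hD⟩ := henc (p.K ^ n + 1) (Pmax p.j1 p.m0) (AA1 g CA M p.K p.r)
    (kapp g n CA M p.K p.r) (2 * p.th * p.I)
    (AA1 g CA M p.K p.r / p.Lam + 2 * (ww4 p.q p.eta + 12 * g * p.X)) (ww4 p.q p.eta)
    (by omega) (by unfold Pmax; exact Nat.le_add_right_of_le (Nat.le_add_right 1 _)) hA1 hkap0 p.hkap (by positivity)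
    (by positivity) hw4 p.hgain
  obtain ⟨d2, hd2⟩ := few_pairs t4 δ (c + 1) hδ
  obtain ⟨d3, hd3⟩ := few_covF (g := g) (by omega) t3 δ c a hδ
  obtain ⟨d4, hd4⟩ := z11_pow_le_exp D
  have hKpos : (0 : ℝ) < p.K := by linarith
  obtain ⟨e, he⟩ : ∃ e : ℝ, e = 1 / (p.K : ℝ) ^ (n - 1) := ⟨_, rfl⟩
  refine ⟨e, by rw [he]; positivity, max (max d1 d2) (max (max d3 d4) 1), ?_⟩
  intro d hd kk hkd hka
  have hdd1 : d1 ≤ d := by omega
  have hdd2 : d2 ≤ d := by omega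
  have hdd3 : d3 ≤ d := by omega
  have hdd4 : d4 ≤ d := by omega
  have hd1' : 1 ≤ d := by omega
  set Φ : ℝ := (d.factorial : ℝ) ^ (2 * g - 1) with hΦ
  have hΦ0 : 0 ≤ Φ := by rw [hΦ]; positivity
  set S1 := (univ.filter (fun σ : Fin (2 * g) → Equiv.Perm (Fin d) =>
    IsCov σ ∧ Nonempty (EncF hg σ kk (p.K ^ n + 1) (Pmax p.j1 p.m0) (AA1 g CA M p.K p.r)
      (kapp g n CA M p.K p.r) (2 * p.th * p.I)
      (AA1 g CA M p.K p.r / p.Lam + 2 * (ww4 p.q p.eta + 12 * g * p.X)) (ww4 p.q p.eta)))) with hS1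
  set S2 := (univ.filter (fun σ : Fin (2 * g) → Equiv.Perm (Fin d) =>
    IsCov σ ∧ ¬ Few (Dense (two σ)) t4 ⌈δ * d⌉₊)) with hS2
  set S3 := (univ.filter (fun σ : Fin (2 * g) → Equiv.Perm (Fin d) =>
    IsCov σ ∧ ∃ F : Finset (Fin 2 × Fin d), IsSpanF (two σ) F kk ∧
        ¬ Few (FDense σ F) t3 ⌈δ * d⌉₊)) with hS3
  -- class 1
  have hc1 : (S1.card : ℝ) ≤ Real.exp (-(c * d)) * Φ := by
    have h1 := hD d kk hd1' S1 (by
      intro s hs
      rw [hS1, Finset.mem_filter] at hs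
      exact hs.2)
    refine h1.trans ?_
    apply mul_le_mul_of_nonneg_right _ hΦ0
    have h2 := hd4 d hdd4
    have h3 := p.hfin
    push_cast
    have h4 : (p.K : ℝ) ^ n + 1 + 1 = (p.K : ℝ) ^ n + 2 := by ring
    rw [h4]
    set G := (4 * (g : ℝ) - 4) * (1 / 2 * Real.log (1 / kapp g n CA M p.K p.r) - 3 / 2 * Real.log (AA1 g CA M p.K p.r)) -
      Cg * (1 + (AA1 g CA M p.K p.r / p.Lam + 2 * (ww4 p.q p.eta + 12 * g * p.X)) *
        (Real.log (2 * ((p.K : ℝ) ^ n + 1)) + Real.log (1 / kapp g n CA M p.K p.r) + Real.log (AA1 g CA M p.K p.r)) +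
      (2 * p.th * p.I + ww4 p.q p.eta) * (Real.log ((p.K : ℝ) ^ n + 2) + Real.log ((Pmax p.j1 p.m0 : ℝ) + 2)))
      with hG
    have hdr : (1 : ℝ) ≤ d := by exact_mod_cast hd1'
    have h5 : (d : ℝ) ^ kk ≤ Real.exp (a * d) := by
      have h6 : (d : ℝ) ^ kk = Real.exp (kk * Real.log d) := by
        rw [Real.exp_nat_mul, Real.exp_log (by linarith)]
      rw [h6]
      apply Real.exp_le_exp.mpr
      refine le_trans ?_ hka
      apply mul_le_mul_of_nonneg_left _ (Nat.cast_nonneg _)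
      exact Real.log_le_log (by linarith) (by linarith)
    calc ((d : ℝ) + 1) ^ D * (d : ℝ) ^ kk * Real.exp (-((d : ℝ) * G))
        ≤ Real.exp d * Real.exp (a * d) * Real.exp (-((d : ℝ) * (c + a + 1))) := by
          apply mul_le_mul _ _ (Real.exp_pos _).le (by positivity)
          · exact mul_le_mul h2 h5 (by positivity) (Real.exp_pos _).le
          apply Real.exp_le_exp.mpr
          have : (d : ℝ) * (c + a + 1) ≤ d * G := mul_le_mul_of_nonneg_left h3 (Nat.cast_nonneg _)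
          linarith
      _ = Real.exp (-(c * d)) := by
          rw [← Real.exp_add, ← Real.exp_add]
          congr 1
          ring
  -- class 2
  have hc2 : (S2.card : ℝ) ≤ Real.exp (-(c * d)) * Φ := by
    have h1 := hom_upper hg (fun ρ : Fin 2 → Equiv.Perm (Fin d) => ¬ Few (Dense ρ) t4 ⌈δ * d⌉₊)
    have h2 := hd2 d hdd2
    have h3 : (2 : ℝ) ^ d ≤ Real.exp d := by
      have : (2 : ℝ) ≤ Real.exp 1 := by
        have := Real.exp_one_gt_d9
        linarith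
      calc (2 : ℝ) ^ d ≤ (Real.exp 1) ^ d := pow_le_pow_left₀ (by norm_num) this d
        _ = Real.exp d := by rw [← Real.exp_nat_mul, mul_one]
    have h1' : S2.card ≤ (univ.filter fun ρ : Fin 2 → Equiv.Perm (Fin d) =>
        ¬ Few (Dense ρ) t4 ⌈δ * d⌉₊).card * d.factorial ^ (2 * g - 4) * 2 ^ d * d.factorial := by
      rw [hS2]
      convert h1
    have h4 : (S2.card : ℝ) ≤
        ((univ.filter fun ρ : Fin 2 → Equiv.Perm (Fin d) => ¬ Few (Dense ρ) t4 ⌈δ * d⌉₊).card : ℝ) *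
        (d.factorial : ℝ) ^ (2 * g - 4) * 2 ^ d * (d.factorial : ℝ) := by
      exact_mod_cast h1'
    refine h4.trans ?_
    calc ((univ.filter fun ρ : Fin 2 → Equiv.Perm (Fin d) => ¬ Few (Dense ρ) t4 ⌈δ * d⌉₊).card : ℝ) *
        (d.factorial : ℝ) ^ (2 * g - 4) * 2 ^ d * (d.factorial : ℝ)
        ≤ (Real.exp (-((c + 1) * d)) * (d.factorial : ℝ) ^ 2) *
          (d.factorial : ℝ) ^ (2 * g - 4) * Real.exp d * (d.factorial : ℝ) := by
          gcongr
      _ = (Real.exp (-((c + 1) * d)) * Real.exp d) * ((d.factorial : ℝ) ^ 2 *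
          (d.factorial : ℝ) ^ (2 * g - 4) * (d.factorial : ℝ)) := by ring
      _ = Real.exp (-(c * d)) * Φ := by
          rw [← Real.exp_add, hΦ, ← pow_add, ← pow_succ]
          congr 2
          · ring
          · omega
  -- class 3
  have hc3 : (S3.card : ℝ) ≤ Real.exp (-(c * d)) * Φ := hd3 d hdd3 kk hkd hka
  -- union
  have hsub : (univ.filter (fun σ : Fin (2 * g) → Equiv.Perm (Fin d) =>
      IsCov σ ∧ ExpandE (two σ) e ∧ Few (Inv2 (two σ)) d kk ∧ ∃ W : ℕ, (W : ℝ) ^ (n - 1) ≤ M * d ∧ Digi σ n C0 W)) ⊆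
      S1 ∪ (S2 ∪ S3) := by
    intro σ hσ
    rw [Finset.mem_filter] at hσ
    obtain ⟨-, h1, h2, h2', W, h3, h4⟩ := hσ
    rw [Finset.mem_union, Finset.mem_union]
    by_cases hf2 : Few (Dense (two σ)) t4 ⌈δ * d⌉₊
    · by_cases hf3 : ∀ F : Finset (Fin 2 × Fin d), IsSpanF (two σ) F kk →
          Few (FDense σ F) t3 ⌈δ * d⌉₊
      · left
        rw [hS1, Finset.mem_filter]
        exact ⟨Finset.mem_univ _, h1, hd1 d hdd1 kk σ h1 (by rw [← he]; exact h2) h2' hf2 hf3 W h3 h4⟩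
      · right; right
        rw [hS3, Finset.mem_filter]
        push Not at hf3
        obtain ⟨F, hF1, hF2⟩ := hf3
        exact ⟨Finset.mem_univ _, h1, F, hF1, hF2⟩
    · right; left
      rw [hS2, Finset.mem_filter]
      exact ⟨Finset.mem_univ _, h1, hf2⟩
  have hcard := (Finset.card_le_card hsub).trans
    ((Finset.card_union_le _ _).trans (Nat.add_le_add_left (Finset.card_union_le _ _) _))
  have hcard' : ((univ.filter (fun σ : Fin (2 * g) → Equiv.Perm (Fin d) =>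
      IsCov σ ∧ ExpandE (two σ) e ∧ Few (Inv2 (two σ)) d kk ∧ ∃ W : ℕ, (W : ℝ) ^ (n - 1) ≤ M * d ∧ Digi σ n C0 W)).card : ℝ) ≤
      (S1.card : ℝ) + ((S2.card : ℝ) + (S3.card : ℝ)) := by
    exact_mod_cast hcard
  linarith

end H98A
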