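import Mathlib
import Pool.Agent.Lib.H98T.H14
import Pool.Agent.Lib.H98A.H1
import Pool.Agent.Lib.H98A.H2
import Pool.Agent.Lib.H98A.H3
import Pool.Agent.Lib.H98A.H43
import Pool.Agent.Lib.H98A.Z11

set_option autoImplicit false

/-!
# H98A.H5: almost no covering has a good digitization
-/

namespace H98A

open Finset H98T

theorem h5_hom {g : ℕ} (hg : 2 ≤ g) {d : ℕ} (Q : (Fin 2 → Equiv.Perm (Fin d)) → Prop) (ε r : ℝ)
    (h1 : (Nat.card (ConjClasses (Equiv.Perm (Fin d))) : ℝ) ≤ Real.exp (ε * d)) (N : ℕ)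
    (hN : N ≤ cnt2 Q * d.factorial ^ (2 * g - 4) * Nat.card (ConjClasses (Equiv.Perm (Fin d))) * d.factorial)
    (h2 : (cnt2 Q : ℝ) ≤ Real.exp (-(r * d)) * (d.factorial : ℝ) ^ 2) :
    (N : ℝ) ≤ Real.exp (-((r - ε) * d)) * (d.factorial : ℝ) ^ (2 * g - 1) := by
  have h3 : (N : ℝ) ≤ (cnt2 Q : ℝ) * (d.factorial : ℝ) ^ (2 * g - 4) * (Nat.card (ConjClasses (Equiv.Perm (Fin d))) : ℝ) * (d.factorial : ℝ) := by
    exact_mod_cast hN
  refine h3.trans ?_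
  calc (cnt2 Q : ℝ) * (d.factorial : ℝ) ^ (2 * g - 4) * (Nat.card (ConjClasses (Equiv.Perm (Fin d))) : ℝ) * (d.factorial : ℝ)
      ≤ (Real.exp (-(r * d)) * (d.factorial : ℝ) ^ 2) * (d.factorial : ℝ) ^ (2 * g - 4) * Real.exp (ε * d) * (d.factorial : ℝ) := by
        gcongr
    _ = (Real.exp (-(r * d)) * Real.exp (ε * d)) * ((d.factorial : ℝ) ^ 2 * (d.factorial : ℝ) ^ (2 * g - 4) * (d.factorial : ℝ)) := by ring
    _ = Real.exp (-((r - ε) * d)) * (d.factorial : ℝ) ^ (2 * g - 1) := by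
        rw [← Real.exp_add, ← pow_add, ← pow_succ]
        congr 2
        · ring
        · omega

open Classical in
theorem h5_cnt2 {d : ℕ} (Q : (Fin 2 → Equiv.Perm (Fin d)) → Prop) : cnt2 Q = (univ.filter fun ρ : Fin 2 → Equiv.Perm (Fin d) => Q ρ).card := by
  unfold cnt2
  congr 1

theorem h5_not {g : ℕ} (hg : 2 ≤ g) {d : ℕ} (Q : (Fin 2 → Equiv.Perm (Fin d)) → Prop) (i1 : DecidablePred Q)
    (i2 : DecidablePred fun σ : Fin (2 * g) → Equiv.Perm (Fin d) => IsCov σ ∧ Q (two σ)) (ε r : ℝ)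
    (h1 : (Nat.card (ConjClasses (Equiv.Perm (Fin d))) : ℝ) ≤ Real.exp (ε * d))
    (h2 : ((@Finset.filter _ Q i1 univ).card : ℝ) ≤ Real.exp (-(r * d)) * (d.factorial : ℝ) ^ 2) :
    ((@Finset.filter _ _ i2 univ).card : ℝ) ≤
      Real.exp (-((r - ε) * d)) * (d.factorial : ℝ) ^ (2 * g - 1) := by
  classical
  have e1 : (@Finset.filter _ Q i1 univ).card = cnt2 Q := by
    rw [h5_cnt2]
    congr 1
    ext ρ
    simp only [mem_filter]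
  rw [e1] at h2
  refine h5_hom hg Q ε r h1 _ ?_ h2
  rw [h5_cnt2]
  refine le_trans (le_of_eq ?_) (hom_upperE hg Q)
  congr 1
  ext ρ
  simp only [mem_filter]

open Classical in
/-- H5. ALMOST NO COVERING HAS A GOOD DIGITIZATION. -/
theorem all_count (n g C0 : ℕ) (hn : 5 ≤ n) (hg : 2 ≤ g) (M : ℝ) (hM : 1 ≤ M) : ∃ c : ℝ, 0 < c ∧ ∃ d0 : ℕ, ∀ d : ℕ, d0 ≤ d →
    ((univ.filter (fun σ : Fin (2 * g) → Equiv.Perm (Fin d) => IsCov σ ∧ ∃ W : ℕ, (W : ℝ) ^ (n - 1) ≤ M * d ∧ Digi σ n C0 W)).card : ℝ) ≤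
      Real.exp (-(c * d)) * ((univ.filter (fun σ : Fin (2 * g) → Equiv.Perm (Fin d) => IsCov σ ∧ Expand (two σ))).card : ℝ) := by
  obtain ⟨e, he, d1, hd1⟩ := core_countF n g C0 hn hg M 1 1 hM
  obtain ⟨d2, hd2⟩ := card_not_expandE e he
  obtain ⟨d3, hd3⟩ := few_inv 1 one_pos
  obtain ⟨ε, hε⟩ : ∃ ε : ℝ, ε = min (min (e / 10) (1 / 48)) 1 / 2 := ⟨_, rfl⟩
  have hε0 : 0 < ε := by rw [hε]; positivity
  have hε1 : 2 * ε ≤ e / 10 := by rw [hε]; linarith [min_le_left (min (e / 10) (1 / 48 : ℝ)) 1, min_le_left (e / 10) (1 / 48 : ℝ)]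
  have hε2 : 2 * ε ≤ 1 / 48 := by rw [hε]; linarith [min_le_left (min (e / 10) (1 / 48 : ℝ)) 1, min_le_right (e / 10) (1 / 48 : ℝ)]
  have hε3 : ε ≤ 1 := by linarith
  obtain ⟨d4, hd4⟩ := classes_le ε hε0
  obtain ⟨d5, hd5⟩ := hom_lower hg (half_pos hε0)
  refine ⟨ε / 4, by linarith, max (max (max d1 d2) (max d3 d4)) (max d5 ⌈40 / ε⌉₊), fun d hd => ?_⟩
  have hdd1 : d1 ≤ d := by omega
  have hdd2 : d2 ≤ d := by omega
  have hdd3 : d3 ≤ d := by omega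
  have hdd4 : d4 ≤ d := by omega
  have hdd5 : d5 ≤ d := by omega
  have hdd6 : 40 / ε ≤ d := (Nat.le_ceil _).trans (by exact_mod_cast (by omega : ⌈40 / ε⌉₊ ≤ d))
  have hdr : (0 : ℝ) ≤ d := Nat.cast_nonneg _
  obtain ⟨kk, hk1, hk2, hk3⟩ := hd3 d hdd3
  have hcl := hd4 d hdd4
  set Φ : ℝ := (d.factorial : ℝ) ^ (2 * g - 1) with hΦ
  have hΦ0 : 0 ≤ Φ := by rw [hΦ]; positivity
  have a1 := hd1 d hdd1 kk hk1 hk2
  have a4 := hd5 d hdd5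
  rw [← hΦ] at a1 a4
  have hsub : (univ.filter (fun σ : Fin (2 * g) → Equiv.Perm (Fin d) => IsCov σ ∧ ∃ W : ℕ, (W : ℝ) ^ (n - 1) ≤ M * d ∧ Digi σ n C0 W)) ⊆
      (univ.filter (fun σ : Fin (2 * g) → Equiv.Perm (Fin d) => IsCov σ ∧ ExpandE (two σ) e ∧ Few (Inv2 (two σ)) d kk ∧
        ∃ W : ℕ, (W : ℝ) ^ (n - 1) ≤ M * d ∧ Digi σ n C0 W)) ∪
      ((univ.filter fun σ : Fin (2 * g) → Equiv.Perm (Fin d) => IsCov σ ∧ ¬ ExpandE (two σ) e) ∪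
        (univ.filter fun σ : Fin (2 * g) → Equiv.Perm (Fin d) => IsCov σ ∧ ¬ Few (Inv2 (two σ)) d kk)) := by
    intro σ hσ
    simp only [mem_union, mem_filter, mem_univ, true_and] at hσ ⊢
    by_cases q1 : ExpandE (two σ) e
    · by_cases q2 : Few (Inv2 (two σ)) d kk
      · exact Or.inl ⟨hσ.1, q1, q2, hσ.2⟩
      · exact Or.inr (Or.inr ⟨hσ.1, q2⟩)
    · exact Or.inr (Or.inl ⟨hσ.1, q1⟩)
  have hcard := (card_le_card hsub).trans ((card_union_le _ _).trans (Nat.add_le_add_left (card_union_le _ _) _))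
  set B := (univ.filter (fun σ : Fin (2 * g) → Equiv.Perm (Fin d) => IsCov σ ∧ ∃ W : ℕ, (W : ℝ) ^ (n - 1) ≤ M * d ∧ Digi σ n C0 W)).card with hB
  set B1 := (univ.filter (fun σ : Fin (2 * g) → Equiv.Perm (Fin d) => IsCov σ ∧ ExpandE (two σ) e ∧ Few (Inv2 (two σ)) d kk ∧
        ∃ W : ℕ, (W : ℝ) ^ (n - 1) ≤ M * d ∧ Digi σ n C0 W)).card with hB1
  set B2 := (univ.filter fun σ : Fin (2 * g) → Equiv.Perm (Fin d) => IsCov σ ∧ ¬ ExpandE (two σ) e).card with hB2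
  set B3 := (univ.filter fun σ : Fin (2 * g) → Equiv.Perm (Fin d) => IsCov σ ∧ ¬ Few (Inv2 (two σ)) d kk).card with hB3
  have hcard' : (B : ℝ) ≤ B1 + (B2 + B3) := by exact_mod_cast hcard
  have a2 : (B2 : ℝ) ≤ Real.exp (-((e / 10 - ε) * d)) * Φ :=
    h5_not hg (fun ρ : Fin 2 → Equiv.Perm (Fin d) => ¬ ExpandE ρ e) _ _ ε (e / 10) hcl (hd2 d hdd2)
  have a3 : (B3 : ℝ) ≤ Real.exp (-((1 / 48 - ε) * d)) * Φ :=
    h5_not hg (fun ρ : Fin 2 → Equiv.Perm (Fin d) => ¬ Few (Inv2 ρ) d kk) _ _ ε (1 / 48) hcl hk3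
  have b1 : (B1 : ℝ) ≤ 3 * (Real.exp (-(ε * d)) * Φ) := by
    refine a1.trans ?_
    have : Real.exp (-(1 * d)) ≤ Real.exp (-(ε * (d : ℝ))) := Real.exp_le_exp.2 (by nlinarith)
    have h2 := mul_le_mul_of_nonneg_right this hΦ0
    linarith
  have b2 : (B2 : ℝ) ≤ Real.exp (-(ε * d)) * Φ := by
    refine a2.trans (mul_le_mul_of_nonneg_right (Real.exp_le_exp.2 ?_) hΦ0)
    nlinarith
  have b3 : (B3 : ℝ) ≤ Real.exp (-(ε * d)) * Φ := by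
    refine a3.trans (mul_le_mul_of_nonneg_right (Real.exp_le_exp.2 ?_) hΦ0)
    nlinarith
  set G := ((univ.filter (fun σ : Fin (2 * g) → Equiv.Perm (Fin d) => IsCov σ ∧ Expand (two σ))).card : ℝ) with hG
  have b4 : Φ ≤ 2 * (Real.exp (ε / 2 * d) * G) := by
    have h1 : Real.exp (ε / 2 * d) * (1 / 2 * Real.exp (-(ε / 2 * d)) * Φ) ≤ Real.exp (ε / 2 * d) * G :=
      mul_le_mul_of_nonneg_left a4 (Real.exp_pos _).le
    have h2 : Real.exp (ε / 2 * d) * (1 / 2 * Real.exp (-(ε / 2 * d)) * Φ) = 1 / 2 * Φ := by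
      have : Real.exp (ε / 2 * d) * Real.exp (-(ε / 2 * d)) = 1 := by rw [← Real.exp_add]; simp
      calc _ = 1 / 2 * (Real.exp (ε / 2 * d) * Real.exp (-(ε / 2 * d))) * Φ := by ring
        _ = _ := by rw [this]; ring
    linarith
  have hG0 : 0 ≤ G := Nat.cast_nonneg _
  have b5 : (10 : ℝ) ≤ Real.exp (ε / 4 * d) := by
    have h1 : 10 ≤ ε / 4 * d := by
      rw [div_le_iff₀ hε0] at hdd6
      linarith
    linarith [Real.add_one_le_exp (ε / 4 * (d : ℝ))]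
  calc (B : ℝ) ≤ 5 * (Real.exp (-(ε * d)) * Φ) := by linarith
    _ ≤ 5 * (Real.exp (-(ε * d)) * (2 * (Real.exp (ε / 2 * d) * G))) := by gcongr
    _ = 10 * (Real.exp (-(ε * d)) * Real.exp (ε / 2 * d) * G) := by ring
    _ ≤ Real.exp (ε / 4 * d) * (Real.exp (-(ε * d)) * Real.exp (ε / 2 * d) * G) := by gcongr
    _ = Real.exp (-(ε / 4 * d)) * G := by
        rw [← mul_assoc, ← mul_assoc, ← Real.exp_add, ← Real.exp_add]
        congr 2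
        ring

end H98A
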