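import Pool.Agent.Lib.H98A.Fin1
import Pool.Agent.Lib.H98A.H5

set_option autoImplicit false

/-!
# H98A: the complete theorem
-/

open Finset

namespace H98A

open H32D H32N

theorem final_ncard {α : Type} [Fintype α] (P : α → Prop) [DecidablePred P] : Set.ncard {x | P x} = (univ.filter P).card := by
  rw [← Set.ncard_coe_finset]
  congr 1
  ext x
  simp

/-- the counting theorem with cardinalities of sets -/
theorem final_count (n g : ℕ) (hn : 5 ≤ n) (hg : 2 ≤ g) (C0 : ℕ) (M : ℝ) : ∃ (c : ℝ) (d0 : ℕ), 0 < c ∧ ∀ d : ℕ, d0 ≤ d →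
    (Set.ncard {σ : Fin (2 * g) → Equiv.Perm (Fin d) | H98T.IsCov σ ∧ ∃ W : ℕ, (W : ℝ) ^ (n - 1) ≤ M * d ∧ H98T.Digi σ n C0 W} : ℝ) ≤
      Real.exp (-(c * d)) * (Set.ncard {σ : Fin (2 * g) → Equiv.Perm (Fin d) | H98T.IsCov σ ∧ H98T.Expand (H98T.two σ)} : ℝ) := by
  classical
  obtain ⟨c, hc, d0, H⟩ := all_count n g C0 hn hg (max M 1) (le_max_right _ _)
  refine ⟨c, d0, hc, fun d hd => ?_⟩
  have h1 := H d hd
  have h2 : Set.ncard {σ : Fin (2 * g) → Equiv.Perm (Fin d) | H98T.IsCov σ ∧ ∃ W : ℕ, (W : ℝ) ^ (n - 1) ≤ M * d ∧ H98T.Digi σ n C0 W} ≤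
      Set.ncard {σ : Fin (2 * g) → Equiv.Perm (Fin d) | H98T.IsCov σ ∧ ∃ W : ℕ, (W : ℝ) ^ (n - 1) ≤ max M 1 * d ∧ H98T.Digi σ n C0 W} := by
    refine Set.ncard_le_ncard ?_ (Set.toFinite _)
    rintro σ ⟨h3, W, h4, h5⟩
    exact ⟨h3, W, h4.trans (mul_le_mul_of_nonneg_right (le_max_left _ _) (Nat.cast_nonneg _)), h5⟩
  refine (Nat.cast_le.2 h2).trans ?_
  rw [final_ncard, final_ncard]
  exact h1

theorem coverings {V : Type} [Fintype V] [DecidableEq V] (K : Cpx V) (hK : IsSurface K) (g : ℕ) (hg : 2 ≤ g)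
    (hχ : K.euler = 2 - 2 * (g : ℤ)) (n : ℕ) (hn : 5 ≤ n) :
    ∃ c C h : ℝ, 0 < c ∧ 0 < C ∧ 0 < h ∧
      (∀ (d : ℕ) (L : Cpx (V × Fin d)), IsCovering Prod.fst L K → L.euler = 2 - 2 * ((d * (g - 1) + 1 : ℕ) : ℤ)) ∧
      (∃ d1 : ℕ, ∀ d : ℕ, d1 ≤ d →
        (∀ L : Cpx (V × Fin d), IsCovering Prod.fst L K → Expands L.graph h →
          ENNReal.ofReal (c * ((d * (g - 1) + 1 : ℕ) : ℝ) ^ (1 / ((n : ℝ) - 1))) ≤ thickRadius n L) ∧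
        ∃ L : Cpx (V × Fin d), IsCovering Prod.fst L K ∧ IsSurface L ∧ Expands L.graph h ∧
          thickRadius n L ≤ ENNReal.ofReal (C * ((d * (g - 1) + 1 : ℕ) : ℝ) ^ (1 / ((n : ℝ) - 1)))) ∧
      ∀ M : ℝ, ∃ (a : ℝ) (d0 : ℕ), 0 < a ∧ ∀ d : ℕ, d0 ≤ d →
        (Set.ncard {L : Cpx (V × Fin d) | IsCovering Prod.fst L K ∧
            thickRadius n L ≤ ENNReal.ofReal (M * ((d * (g - 1) + 1 : ℕ) : ℝ) ^ (1 / ((n : ℝ) - 1)))} : ℝ) ≤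
          Real.exp (-(a * d)) * (Set.ncard {L : Cpx (V × Fin d) | IsCovering Prod.fst L K ∧ IsSurface L ∧ Expands L.graph h} : ℝ) :=
  coverings_of_count K hK g hg hχ n hn (final_count n g hn hg)

end H98A
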