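import Pool.Agent.Lib.H32D.Main

set_option autoImplicit false

/-!
# H98A, S1: adding sheets to a pair of permutations

`A` is a set of sheets; `P ⊕ A` has a second copy of every element of `A`. The permutation `σ false` is replaced by `ext`: the arrow from
`x ∈ A` to `σ x` is subdivided by the copy of `x`. The permutation `σ true` fixes the copies.
-/

open Finset

namespace H98A

open H32D

variable {P : Type} [DecidableEq P]

/-- The involution which exchanges the two copies of the elements of `A`. -/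
def dup (A : Finset P) : Equiv.Perm (P ⊕ {x // x ∈ A}) where
  toFun := Sum.elim (fun y => if h : y ∈ A then Sum.inr ⟨y, h⟩ else Sum.inl y) (fun a => Sum.inl a.1)
  invFun := Sum.elim (fun y => if h : y ∈ A then Sum.inr ⟨y, h⟩ else Sum.inl y) (fun a => Sum.inl a.1)
  left_inv := by
    rintro (y | a)
    · by_cases h : y ∈ A
      · simp [h]
      · simp [h]
    · simp
  right_inv := by
    rintro (y | a)
    · by_cases h : y ∈ A
      · simp [h]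
      · simp [h]
    · simp

/-- The extended pair of permutations. -/
def ext (A : Finset P) (σ : Bool → Equiv.Perm P) : Bool → Equiv.Perm (P ⊕ {x // x ∈ A})
  | false => (dup A).trans (Equiv.sumCongr (σ false) (Equiv.refl _))
  | true => Equiv.sumCongr (σ true) (Equiv.refl _)

theorem ext_inl_mem (A : Finset P) (σ : Bool → Equiv.Perm P) (x : P) (h : x ∈ A) : ext A σ false (Sum.inl x) = Sum.inr ⟨x, h⟩ := by
  simp [ext, dup, h]

theorem ext_inl_not (A : Finset P) (σ : Bool → Equiv.Perm P) (x : P) (h : x ∉ A) : ext A σ false (Sum.inl x) = Sum.inl (σ false x) := by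
  simp [ext, dup, h]

theorem ext_inr (A : Finset P) (σ : Bool → Equiv.Perm P) (a : {x // x ∈ A}) : ext A σ false (Sum.inr a) = Sum.inl (σ false a.1) := by
  simp [ext, dup]

theorem ext_true_inl (A : Finset P) (σ : Bool → Equiv.Perm P) (x : P) : ext A σ true (Sum.inl x) = Sum.inl (σ true x) := by
  simp [ext]

theorem ext_true_inr (A : Finset P) (σ : Bool → Equiv.Perm P) (a : {x // x ∈ A}) : ext A σ true (Sum.inr a) = Sum.inr a := by
  simp [ext]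

/-- the sum of the squared distances is smallest for the mean -/
theorem s1_mean {Q : Type} [Fintype Q] (f : Q → ℝ) (c : ℝ) :
    ∑ p, (f p - (∑ q, f q) / Fintype.card Q) ^ 2 ≤ ∑ p, (f p - c) ^ 2 := by
  rcases Nat.eq_zero_or_pos (Fintype.card Q) with h0 | h0
  · have := Fintype.card_eq_zero_iff.1 h0
    simp
  obtain ⟨N, hN⟩ : ∃ N : ℝ, N = Fintype.card Q := ⟨_, rfl⟩
  have hN0 : 0 < N := by rw [hN]; exact_mod_cast h0
  obtain ⟨S, hS⟩ : ∃ S : ℝ, S = ∑ q, f q := ⟨_, rfl⟩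
  have key : ∀ c' : ℝ, ∑ p, (f p - c') ^ 2 = ∑ p, (f p) ^ 2 - 2 * c' * S + N * c' ^ 2 := by
    intro c'
    have h1 : ∀ p, (f p - c') ^ 2 = (f p) ^ 2 - 2 * c' * f p + c' ^ 2 := fun p => by ring
    rw [Finset.sum_congr rfl (fun p _ => h1 p), Finset.sum_add_distrib, Finset.sum_sub_distrib, ← Finset.mul_sum, ← hS, Finset.sum_const,
      Finset.card_univ, nsmul_eq_mul, ← hN]
  rw [← hS, ← hN, key, key]
  have h2 : 0 ≤ (N * c - S) ^ 2 / N := by positivity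
  have h3 : (N * c - S) ^ 2 / N = N * c ^ 2 - 2 * c * S + S ^ 2 / N := by field_simp; ring
  have h4 : -2 * (S / N) * S + N * (S / N) ^ 2 = - (S ^ 2 / N) := by field_simp; ring
  linarith

theorem ext_poinc [Fintype P] (A : Finset P) (σ : Bool → Equiv.Perm P) (C : ℝ) (hC : 0 ≤ C) (h : Poinc σ C) : Poinc (ext A σ) (6 * C + 2) := by
  intro f
  obtain ⟨g, hg⟩ : ∃ g : P → ℝ, g = fun p => f (Sum.inl p) := ⟨_, rfl⟩
  obtain ⟨c, hc⟩ : ∃ c : ℝ, c = (∑ q, g q) / Fintype.card P := ⟨_, rfl⟩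
  refine (s1_mean f c).trans ?_
  have hP := h g
  rw [← hc] at hP
  rw [Fintype.sum_bool] at hP ⊢
  rw [Fintype.sum_sum_type, Fintype.sum_sum_type, Fintype.sum_sum_type]
  -- the terms of the extended energy
  obtain ⟨E1, hE1⟩ : ∃ E : ℝ, E = ∑ p : P, (f (ext A σ true (Sum.inl p)) - f (Sum.inl p)) ^ 2 := ⟨_, rfl⟩
  obtain ⟨E2, hE2⟩ : ∃ E : ℝ, E = ∑ a : {x // x ∈ A}, (f (ext A σ true (Sum.inr a)) - f (Sum.inr a)) ^ 2 := ⟨_, rfl⟩
  obtain ⟨E3, hE3⟩ : ∃ E : ℝ, E = ∑ p : P, (f (ext A σ false (Sum.inl p)) - f (Sum.inl p)) ^ 2 := ⟨_, rfl⟩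
  obtain ⟨E4, hE4⟩ : ∃ E : ℝ, E = ∑ a : {x // x ∈ A}, (f (ext A σ false (Sum.inr a)) - f (Sum.inr a)) ^ 2 := ⟨_, rfl⟩
  rw [← hE1, ← hE2, ← hE3, ← hE4]
  have hE20 : 0 ≤ E2 := by rw [hE2]; positivity
  have hE30 : 0 ≤ E3 := by rw [hE3]; positivity
  have hE40 : 0 ≤ E4 := by rw [hE4]; positivity
  have hE10 : 0 ≤ E1 := by rw [hE1]; positivity
  have h1 : ∑ p, (g (σ true p) - g p) ^ 2 = E1 := by
    rw [hE1, hg]
    exact Finset.sum_congr rfl (fun p _ => by rw [ext_true_inl])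
  -- sums over A
  have hsubt : ∀ F : P → ℝ, ∑ a : {x // x ∈ A}, F a.1 = ∑ x ∈ A, F x := fun F => Finset.sum_coe_sort A F
  have h3 : E3 = ∑ x ∈ A, (if hx : x ∈ A then (f (Sum.inr ⟨x, hx⟩) - g x) ^ 2 else 0) + ∑ x ∈ Aᶜ, (g (σ false x) - g x) ^ 2 := by
    rw [hE3, ← Finset.sum_add_sum_compl A]
    refine congrArg₂ _ (Finset.sum_congr rfl fun x hx => ?_) (Finset.sum_congr rfl fun x hx => ?_)
    · rw [dif_pos hx, ext_inl_mem A σ x hx, hg]
    · rw [ext_inl_not A σ x (Finset.mem_compl.1 hx), hg]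
  have h3a : ∑ x ∈ A, (if hx : x ∈ A then (f (Sum.inr ⟨x, hx⟩) - g x) ^ 2 else 0) = ∑ a : {x // x ∈ A}, (f (Sum.inr a) - g a.1) ^ 2 := by
    rw [← hsubt]
    exact Finset.sum_congr rfl fun a _ => by rw [dif_pos a.2]
  have h4 : E4 = ∑ a : {x // x ∈ A}, (g (σ false a.1) - f (Sum.inr a)) ^ 2 := by
    rw [hE4, hg]
    exact Finset.sum_congr rfl fun a _ => by rw [ext_inr]
  obtain ⟨X, hX⟩ : ∃ X : ℝ, X = ∑ a : {x // x ∈ A}, (f (Sum.inr a) - g a.1) ^ 2 := ⟨_, rfl⟩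
  obtain ⟨Y, hY⟩ : ∃ Y : ℝ, Y = ∑ x ∈ Aᶜ, (g (σ false x) - g x) ^ 2 := ⟨_, rfl⟩
  rw [h3a, ← hX, ← hY] at h3
  have hX0 : 0 ≤ X := by rw [hX]; positivity
  have hY0 : 0 ≤ Y := by rw [hY]; positivity
  have h5 : ∑ p, (g (σ false p) - g p) ^ 2 ≤ 2 * E4 + 2 * X + Y := by
    rw [← Finset.sum_add_sum_compl A, ← hY, ← hsubt, h4, hX, Finset.mul_sum, Finset.mul_sum, ← Finset.sum_add_distrib]
    refine add_le_add (Finset.sum_le_sum fun a _ => ?_) le_rfl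
    nlinarith [sq_nonneg ((g (σ false a.1) - f (Sum.inr a)) - (f (Sum.inr a) - g a.1))]
  -- the left side
  have h6 : ∑ p : P, (f (Sum.inl p) - c) ^ 2 = ∑ p, (g p - c) ^ 2 := by rw [hg]
  have h7 : ∑ a : {x // x ∈ A}, (f (Sum.inr a) - c) ^ 2 ≤ 2 * X + 2 * ∑ p, (g p - c) ^ 2 := by
    have h8 : ∑ a : {x // x ∈ A}, (g a.1 - c) ^ 2 ≤ ∑ p, (g p - c) ^ 2 := by
      rw [hsubt (fun x => (g x - c) ^ 2)]
      exact Finset.sum_le_sum_of_subset_of_nonneg (Finset.subset_univ _) (fun p _ _ => sq_nonneg _)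
    have h9 : ∑ a : {x // x ∈ A}, (f (Sum.inr a) - c) ^ 2 ≤ 2 * X + 2 * ∑ a : {x // x ∈ A}, (g a.1 - c) ^ 2 := by
      rw [hX, Finset.mul_sum, Finset.mul_sum, ← Finset.sum_add_distrib]
      refine Finset.sum_le_sum fun a _ => ?_
      nlinarith [sq_nonneg ((f (Sum.inr a) - g a.1) - (g a.1 - c))]
    linarith
  obtain ⟨Z, hZ⟩ : ∃ Z : ℝ, Z = ∑ p, (g p - c) ^ 2 := ⟨_, rfl⟩
  rw [h6]
  rw [← hZ] at hP h7 ⊢
  have h10 : Z ≤ C * (2 * (E1 + E2 + (E3 + E4))) := by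
    refine hP.trans (mul_le_mul_of_nonneg_left ?_ hC)
    rw [h1]
    linarith
  have h11 : X ≤ E1 + E2 + (E3 + E4) := by linarith
  calc Z + ∑ a : {x // x ∈ A}, (f (Sum.inr a) - c) ^ 2 ≤ 3 * Z + 2 * X := by linarith
    _ ≤ 3 * (C * (2 * (E1 + E2 + (E3 + E4)))) + 2 * (E1 + E2 + (E3 + E4)) := by linarith
    _ = (6 * C + 2) * (E1 + E2 + (E3 + E4)) := by ring

end H98A
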