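import Pool.Agent.Lib.H98A.S1

set_option autoImplicit false

/-!
# H98A, S2: the routing of the extended pair, and transport to another set of sheets
-/

open Finset

namespace H98A

open H32D

variable {P : Type} [DecidableEq P] {n : ℕ}

/-- The sites of the extended set of sheets. -/
def extSite (A : Finset P) (site : P → Fin n → ℤ) : P ⊕ {x // x ∈ A} → Fin n → ℤ
  | Sum.inl x => site x
  | Sum.inr a => site a.1

/-- The routes of the extended pair. -/
def extJ (A : Finset P) (site : P → Fin n → ℤ) (J : Bool → P → List (Fin n → ℤ)) : Bool → P ⊕ {x // x ∈ A} → List (Fin n → ℤ)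
  | false, Sum.inl x => if x ∈ A then [site x] else J false x
  | false, Sum.inr a => J false a.1
  | true, Sum.inl x => J true x
  | true, Sum.inr a => [site a.1]

theorem ext_routing (A : Finset P) {σ : Bool → Equiv.Perm P} {site : P → Fin n → ℤ} {J : Bool → P → List (Fin n → ℤ)}
    (h : Routing σ site J) : Routing (ext A σ) (extSite A site) (extJ A site J) := by
  constructor
  · rintro (_ | _) (x | a)
    · by_cases hx : x ∈ A
      · simp [extJ, hx, extSite]
      · simp only [extJ, hx, if_false, extSite]
        exact h.head false x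
    · exact h.head false a.1
    · exact h.head true x
    · simp [extJ, extSite]
  · rintro (_ | _) (x | a)
    · by_cases hx : x ∈ A
      · rw [ext_inl_mem A σ x hx]
        simp [extJ, hx, extSite]
      · rw [ext_inl_not A σ x hx]
        simp only [extJ, hx, if_false, extSite]
        exact h.last false x
    · rw [ext_inr]
      exact h.last false a.1
    · rw [ext_true_inl]
      exact h.last true x
    · rw [ext_true_inr]
      simp [extJ, extSite]
  · rintro (_ | _) (x | a)
    · by_cases hx : x ∈ A
      · simp [extJ, hx]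
      · simp only [extJ, hx, if_false]
        exact h.chain false x
    · exact h.chain false a.1
    · exact h.chain true x
    · simp [extJ]

omit [DecidableEq P] in
theorem ext_site_card [Fintype P] (A : Finset P) {site : P → Fin n → ℤ} {κ : ℕ} (h : ∀ z, (univ.filter (fun p => site p = z)).card ≤ κ) (z : Fin n → ℤ) :
    (univ.filter (fun p => extSite A site p = z)).card ≤ 2 * κ := by
  rw [Finset.card_filter, Fintype.sum_sum_type]
  have h1 : ∑ x : P, (if extSite A site (Sum.inl x) = z then 1 else 0) ≤ κ := by
    refine le_trans (le_of_eq ?_) (h z)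
    rw [Finset.card_filter]
    rfl
  have h2 : ∑ a : {x // x ∈ A}, (if extSite A site (Sum.inr a) = z then 1 else 0) ≤ κ := by
    have e : ∑ a : {x // x ∈ A}, (if extSite A site (Sum.inr a) = z then 1 else 0) = ∑ x ∈ A, (if site x = z then 1 else 0) :=
      Finset.sum_coe_sort A (fun x => if site x = z then 1 else 0)
    rw [e]
    refine le_trans (Finset.sum_le_sum_of_subset (Finset.subset_univ A)) ?_
    refine le_trans (le_of_eq ?_) (h z)
    rw [Finset.card_filter]
  omega

theorem ext_route_count [Fintype P] (A : Finset P) {site : P → Fin n → ℤ} {J : Bool → P → List (Fin n → ℤ)} {κ κ' : ℕ}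
    (h : ∀ z, (univ.filter (fun p => site p = z)).card ≤ κ') (h' : ∀ z i, ∑ p, (J i p).count z ≤ κ) (z : Fin n → ℤ) (i : Bool) :
    ∑ p, (extJ A site J i p).count z ≤ 2 * κ + 2 * κ' := by
  rw [Fintype.sum_sum_type]
  have hone : ∀ x : P, [site x].count z = if site x = z then 1 else 0 := by
    intro x
    rw [List.count_singleton]
    by_cases hx : site x = z
    · simp [hx]
    · have : ¬ (z = site x) := fun hz => hx hz.symm
      simp [hx]
  have hs : ∑ x : P, [site x].count z ≤ κ' := by
    refine le_trans (le_of_eq ?_) (h z)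
    rw [Finset.card_filter]
    exact Finset.sum_congr rfl fun x _ => hone x
  have hsA : ∀ F : P → ℕ, ∑ a : {x // x ∈ A}, F a.1 ≤ ∑ x, F x := by
    intro F
    rw [Finset.sum_coe_sort A F]
    exact Finset.sum_le_sum_of_subset (Finset.subset_univ A)
  cases i
  · have h1 : ∑ x : P, (extJ A site J false (Sum.inl x)).count z ≤ κ + κ' := by
      calc ∑ x : P, (extJ A site J false (Sum.inl x)).count z ≤ ∑ x : P, ((J false x).count z + [site x].count z) := by
            refine Finset.sum_le_sum fun x _ => ?_
            simp only [extJ]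
            split_ifs
            · exact Nat.le_add_left _ _
            · exact Nat.le_add_right _ _
        _ = ∑ x : P, (J false x).count z + ∑ x : P, [site x].count z := Finset.sum_add_distrib
        _ ≤ κ + κ' := Nat.add_le_add (h' z false) hs
    have h2 : ∑ a : {x // x ∈ A}, (extJ A site J false (Sum.inr a)).count z ≤ κ :=
      (hsA (fun x => (J false x).count z)).trans (h' z false)
    omega
  · have h1 : ∑ x : P, (extJ A site J true (Sum.inl x)).count z ≤ κ := h' z true
    have h2 : ∑ a : {x // x ∈ A}, (extJ A site J true (Sum.inr a)).count z ≤ κ' :=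
      (hsA (fun x => [site x].count z)).trans hs
    omega

theorem ext_mem (A : Finset P) {site : P → Fin n → ℤ} {J : Bool → P → List (Fin n → ℤ)} {Z : Set (Fin n → ℤ)}
    (h1 : ∀ p, site p ∈ Z) (h2 : ∀ i p, ∀ z ∈ J i p, z ∈ Z) :
    (∀ p, extSite A site p ∈ Z) ∧ ∀ i p, ∀ z ∈ extJ A site J i p, z ∈ Z := by
  constructor
  · rintro (x | a)
    · exact h1 x
    · exact h1 a.1
  · rintro (_ | _) (x | a) z hz
    · by_cases hx : x ∈ A
      · simp only [extJ, hx, if_true, List.mem_singleton] at hz
        rw [hz]
        exact h1 x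
      · simp only [extJ, hx, if_false] at hz
        exact h2 false x z hz
    · exact h2 false a.1 z hz
    · exact h2 true x z hz
    · simp only [extJ, List.mem_singleton] at hz
      rw [hz]
      exact h1 a.1

omit [DecidableEq P] in
/-- transport of a pair of permutations with all its data along an equivalence of the sheets -/
theorem s2_transport [Fintype P] {Q : Type} [Fintype Q] [DecidableEq Q] (e : P ≃ Q) {σ : Bool → Equiv.Perm P} {C : ℝ} (hp : Poinc σ C)
    {site : P → Fin n → ℤ} {J : Bool → P → List (Fin n → ℤ)} (hr : Routing σ site J) {κ : ℕ}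
    (h1 : ∀ z, (univ.filter (fun p => site p = z)).card ≤ κ) (h2 : ∀ z i, ∑ p, (J i p).count z ≤ κ) {Z : Set (Fin n → ℤ)}
    (h3 : ∀ p, site p ∈ Z) (h4 : ∀ i p, ∀ z ∈ J i p, z ∈ Z) :
    ∃ (σ' : Bool → Equiv.Perm Q) (site' : Q → Fin n → ℤ) (J' : Bool → Q → List (Fin n → ℤ)), Poinc σ' C ∧ Routing σ' site' J' ∧
      (∀ z, (univ.filter (fun q => site' q = z)).card ≤ κ) ∧ (∀ z i, ∑ q, (J' i q).count z ≤ κ) ∧ (∀ q, site' q ∈ Z) ∧
      ∀ i q, ∀ z ∈ J' i q, z ∈ Z := by
  refine ⟨fun i => (e.symm.trans (σ i)).trans e, fun q => site (e.symm q), fun i q => J i (e.symm q), ?_, ?_, ?_, ?_, ?_, ?_⟩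
  · intro f
    have h := hp (fun p => f (e p))
    have e1 : ∑ q, f q = ∑ p, f (e p) := (e.sum_comp f).symm
    have e2 : ∑ p, (f p - (∑ q, f q) / Fintype.card Q) ^ 2 = ∑ p, (f (e p) - (∑ q, f (e q)) / Fintype.card P) ^ 2 := by
      rw [e1, Fintype.card_congr e.symm]
      exact (e.sum_comp (fun q => (f q - (∑ p, f (e p)) / Fintype.card P) ^ 2)).symm
    rw [e2]
    refine h.trans (le_of_eq ?_)
    congr 1
    refine Finset.sum_congr rfl fun i _ => ?_
    rw [← e.sum_comp]
    refine Finset.sum_congr rfl fun p _ => ?_
    simp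
  · refine ⟨fun i q => hr.head i _, fun i q => ?_, fun i q => hr.chain i _⟩
    rw [hr.last i]
    simp
  · intro z
    refine le_trans (le_of_eq ?_) (h1 z)
    rw [Finset.card_filter, Finset.card_filter]
    exact (e.sum_comp (fun q => if site (e.symm q) = z then 1 else 0)).symm.trans (Finset.sum_congr rfl fun p _ => by simp)
  · intro z i
    refine le_trans (le_of_eq ?_) (h2 z i)
    exact (e.sum_comp (fun q => (J i (e.symm q)).count z)).symm.trans (Finset.sum_congr rfl fun p _ => by simp)
  · exact fun q => h3 _
  · exact fun i q z hz => h4 i _ z hz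

end H98A
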