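import Pool.Agent.Lib.H98A.S2

set_option autoImplicit false

/-!
# H98A, S3: sheets for every large degree
-/

open Finset

namespace H98A

open H32D

theorem s3_bernoulli (e m : ℕ) (hm : 2 * e ≤ m) : (m + 1) ^ e ≤ 2 * m ^ e := by
  have hm1 : (0 : ℝ) < m + 1 := by positivity
  have h1 := one_add_mul_le_pow (a := -(1 / ((m : ℝ) + 1))) (by
    have : 1 / ((m : ℝ) + 1) ≤ 1 := by
      rw [div_le_one hm1]
      linarith [Nat.cast_nonneg (α := ℝ) m]
    linarith) e
  have h2 : (1 : ℝ) + -(1 / ((m : ℝ) + 1)) = m / (m + 1) := by field_simp; ring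
  have h3 : (1 : ℝ) / 2 ≤ 1 + e * -(1 / ((m : ℝ) + 1)) := by
    have h4 : (e : ℝ) * (1 / ((m : ℝ) + 1)) ≤ 1 / 2 := by
      rw [mul_one_div, div_le_iff₀ hm1]
      have : (2 : ℝ) * e ≤ m := by exact_mod_cast hm
      linarith
    linarith
  rw [h2, div_pow] at h1
  have h5 := h3.trans h1
  rw [le_div_iff₀ (by positivity)] at h5
  have h6 : ((m : ℝ) + 1) ^ e ≤ 2 * (m : ℝ) ^ e := by linarith
  exact_mod_cast h6

/-- the choice of the length of the period -/
theorem s3_choice (k e d : ℕ) (hk : 1 ≤ k) (he : 1 ≤ e) (hd : k * (2 * e) ^ e ≤ d) :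
    ∃ m : ℕ, 1 ≤ m ∧ k * m ^ e ≤ d ∧ d ≤ 2 * (k * m ^ e) := by
  classical
  obtain ⟨m, hm⟩ : ∃ m, m = Nat.findGreatest (fun m => k * m ^ e ≤ d) d := ⟨_, rfl⟩
  have h1 : k * m ^ e ≤ d := by
    rw [hm]
    exact Nat.findGreatest_spec (P := fun m => k * m ^ e ≤ d) (Nat.zero_le d) (by
      rw [zero_pow (by omega)]
      simp)
  have h2 : 2 * e ≤ m := by
    rw [hm]
    refine Nat.le_findGreatest ?_ hd
    calc 2 * e = 1 * (2 * e) ^ 1 := by ring
      _ ≤ k * (2 * e) ^ e := Nat.mul_le_mul hk (Nat.pow_le_pow_right (by omega) he)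
      _ ≤ d := hd
  have h3 : d ≤ k * (m + 1) ^ e := by
    by_cases h4 : m + 1 ≤ d
    · have h5 := Nat.findGreatest_is_greatest (P := fun m => k * m ^ e ≤ d) (n := d) (k := m + 1) (by rw [← hm]; omega) h4
      omega
    · calc d ≤ 1 * (m + 1) ^ 1 := by rw [one_mul, pow_one]; omega
        _ ≤ k * (m + 1) ^ e := Nat.mul_le_mul hk (Nat.pow_le_pow_right (by omega) he)
  refine ⟨m, by omega, h1, ?_⟩
  calc d ≤ k * (m + 1) ^ e := h3
    _ ≤ k * (2 * m ^ e) := Nat.mul_le_mul_left _ (s3_bernoulli e m h2)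
    _ = 2 * (k * m ^ e) := by ring

/-- For every large degree `d` there is a pair of permutations of `Fin d` with a Poincaré inequality and a routing in a ball of radius
`B d^(1/e)` of the lattice of dimension `e + 1`. -/
theorem s3_sheets (e : ℕ) (he : 2 ≤ e) : ∃ (κ : ℕ) (C B : ℝ) (d1 : ℕ), 0 < C ∧ 0 < B ∧ ∀ d : ℕ, d1 ≤ d →
    ∃ (σ : Bool → Equiv.Perm (Fin d)) (site : Fin d → Fin (e + 1) → ℤ) (J : Bool → Fin d → List (Fin (e + 1) → ℤ)), Poinc σ C ∧
      Routing σ site J ∧ (∀ z, (univ.filter (fun q => site q = z)).card ≤ κ) ∧ (∀ z i, ∑ q, (J i q).count z ≤ κ) ∧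
      (∀ q, ∀ a, |(site q a : ℝ)| ≤ B * (d : ℝ) ^ (1 / (e : ℝ))) ∧
      ∀ i q, ∀ z ∈ J i q, ∀ a, |(z a : ℝ)| ≤ B * (d : ℝ) ^ (1 / (e : ℝ)) := by
  obtain ⟨k, C, hk, hC, hsheet⟩ := exists_sheets e he
  refine ⟨2 * (3 * k) + 2 * 1, 6 * C + 2, k + 1, k * (2 * e) ^ e, by positivity, by positivity, fun d hd => ?_⟩
  obtain ⟨m, hm1, hmd, hdm⟩ := s3_choice k e d hk (by omega) hd
  have : NeZero m := ⟨by omega⟩
  obtain ⟨g, c, hg, hpoi⟩ := hsheet m inferInstance
  have hcard : Fintype.card (Sheet k e m) = k * m ^ e := by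
    rw [Fintype.card_prod, Fintype.card_fin, Fintype.card_fun, Fintype.card_fin, ZMod.card]
  obtain ⟨A, -, hA⟩ := Finset.exists_subset_card_eq (s := (univ : Finset (Sheet k e m))) (n := d - k * m ^ e) (by
    rw [Finset.card_univ, hcard]
    omega)
  have hcardA : Fintype.card (Sheet k e m ⊕ {x // x ∈ A}) = d := by
    rw [Fintype.card_sum, Fintype.card_coe, hA, hcard]
    omega
  have hsize := fun i p => routeP_size (m := m) g c i p
  have hmB : (((k + 1) * m : ℤ) : ℝ) ≤ (k + 1) * (d : ℝ) ^ (1 / (e : ℝ)) := by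
    have h1 : (m : ℝ) ≤ (d : ℝ) ^ (1 / (e : ℝ)) := by
      have h2 : ((m : ℝ)) ^ (e : ℝ) ≤ d := by
        rw [Real.rpow_natCast]
        have : m ^ e ≤ d := by
          calc m ^ e = 1 * m ^ e := (one_mul _).symm
            _ ≤ k * m ^ e := Nat.mul_le_mul_right _ hk
            _ ≤ d := hmd
        exact_mod_cast this
      have he0 : (0 : ℝ) < e := by exact_mod_cast (by omega : 0 < e)
      have h3 := Real.rpow_le_rpow (by positivity) h2 (z := 1 / (e : ℝ)) (by positivity)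
      rwa [← Real.rpow_mul (by positivity), mul_one_div_cancel he0.ne', Real.rpow_one] at h3
    push_cast
    exact mul_le_mul_of_nonneg_left h1 (by positivity)
  have hsite : ∀ p : Sheet k e m, siteP p ∈ {z : Fin (e + 1) → ℤ | ∀ a, |(z a : ℝ)| ≤ (k + 1) * (d : ℝ) ^ (1 / (e : ℝ))} := by
    intro p a
    refine le_trans ?_ hmB
    rw [← Int.cast_abs]
    exact_mod_cast (hsize false p).1 a
  have hroute : ∀ i (p : Sheet k e m), ∀ z ∈ routeP g c i p,
      z ∈ {z : Fin (e + 1) → ℤ | ∀ a, |(z a : ℝ)| ≤ (k + 1) * (d : ℝ) ^ (1 / (e : ℝ))} := by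
    intro i p z hz a
    refine le_trans ?_ hmB
    rw [← Int.cast_abs]
    exact_mod_cast (hsize i p).2 z hz a
  obtain ⟨hm1', hm2'⟩ := ext_mem A hsite hroute
  exact s2_transport (Fintype.equivFinOfCardEq hcardA) (ext_poinc A (sig g) C hC.le hpoi) (ext_routing A (routing_routeP g c hg))
    (fun z => (ext_site_card A (fun z => siteP_card z) z).trans (by omega))
    (fun z i => ext_route_count A (fun z => siteP_card z) (fun z i => routeP_count g c i z) z i) hm1' hm2'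

end H98A
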