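import Pool.Agent.Lib.H98A.T0

set_option autoImplicit false

/-!
# H98A, chunk T6: every covering complex on `V × P` is given by a flat labelling
-/

open Finset

namespace H98A

open H32D H32N

variable {V : Type} [Fintype V] [DecidableEq V] {K : Cpx V} {P : Type} [Fintype P] [DecidableEq P] {L : Cpx (V × P)}

theorem t6_proj (hL : IsCovering Prod.fst L K) {x y : V × P} (hxy : x ≠ y) (h : ({x, y} : Finset (V × P)) ∈ L.faces) : x.1 ≠ y.1 ∧ K.graph.Adj x.1 y.1 := by
  obtain ⟨h1, h2⟩ := hL.map _ h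
  have h3 : x.1 ≠ y.1 := fun h4 => hxy (h2 (by simp) (by simp) h4)
  rw [Finset.image_insert, Finset.image_singleton] at h1
  exact ⟨h3, h3, h1⟩

/-- the lift of an edge -/
theorem t6_edge (hL : IsCovering Prod.fst L K) {a b : V} (hab : K.graph.Adj a b) (q : P) :
    ∃ p : P, ({(a, p), (b, q)} : Finset (V × P)) ∈ L.faces ∧ ∀ p' : P, ({(a, p'), (b, q)} : Finset (V × P)) ∈ L.faces → p' = p := by
  obtain ⟨t, ⟨ht1, ht2, ht3⟩, ht4⟩ := hL.lift (b, q) ({a, b} : Finset V) hab.2 (by simp)
  have ha : a ∈ t.image Prod.fst := by rw [ht3]; simp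
  obtain ⟨⟨a', p⟩, hx, hx'⟩ := Finset.mem_image.1 ha
  simp only at hx'
  subst hx'
  refine ⟨p, ?_, fun p' hp' => ?_⟩
  · refine L.down _ ht1 _ ?_ (by simp)
    intro y hy
    rw [Finset.mem_insert, Finset.mem_singleton] at hy
    rcases hy with rfl | rfl
    · exact hx
    · exact ht2
  · have h1 := ht4 {(a', p'), (b, q)} ⟨hp', by simp, by simp [Finset.image_insert]⟩
    have h2 : (a', p') ∈ t := by rw [← h1]; simp
    have h3 := (hL.map _ ht1).2 (Finset.mem_coe.2 h2) (Finset.mem_coe.2 hx) rfl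
    exact (Prod.mk.inj h3).2

theorem cov_rep (hL : IsCovering Prod.fst L K) : ∃ μ : V → V → Equiv.Perm P, Flat K μ ∧ Nrm K μ ∧ L = coverCpx K μ := by
  classical
  have hex : ∀ a b q, ∃ p : P, K.graph.Adj a b → ({(a, p), (b, q)} : Finset (V × P)) ∈ L.faces ∧
      ∀ p' : P, ({(a, p'), (b, q)} : Finset (V × P)) ∈ L.faces → p' = p := by
    intro a b q
    by_cases hab : K.graph.Adj a b
    · obtain ⟨p, hp⟩ := t6_edge hL hab q
      exact ⟨p, fun _ => hp⟩
    · exact ⟨q, fun h => absurd h hab⟩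
  choose F hF using hex
  have hFF : ∀ a b q, K.graph.Adj a b → F b a (F a b q) = q := by
    intro a b q hab
    obtain ⟨h1, -⟩ := hF a b q hab
    obtain ⟨-, h2⟩ := hF b a (F a b q) hab.symm
    rw [Finset.pair_comm] at h1
    exact (h2 q h1).symm
  obtain ⟨μ, hμ⟩ : ∃ μ : V → V → Equiv.Perm P, ∀ a b, μ a b = if h : K.graph.Adj a b then
      ⟨F a b, F b a, fun q => hFF a b q h, fun q => hFF b a q h.symm⟩ else 1 := ⟨_, fun _ _ => rfl⟩
  have hμ1 : ∀ a b q, K.graph.Adj a b → μ a b q = F a b q := by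
    intro a b q h
    rw [hμ, dif_pos h]
    rfl
  have hμ0 : ∀ a b, ¬ K.graph.Adj a b → μ a b = 1 := by
    intro a b h
    rw [hμ, dif_neg h]
  have hedge : ∀ a b p q, K.graph.Adj a b → (({(a, p), (b, q)} : Finset (V × P)) ∈ L.faces ↔ p = μ a b q) := by
    intro a b p q h
    rw [hμ1 a b q h]
    constructor
    · exact fun h1 => (hF a b q h).2 p h1
    · rintro rfl
      exact (hF a b q h).1
  have hflat : Flat K μ := by
    refine ⟨fun a b => ?_, fun a b c hab hbc hac hf => ?_⟩
    · by_cases h : K.graph.Adj a b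
      · ext q
        rw [hμ1 b a q h.symm]
        rw [eq_comm, Equiv.Perm.inv_eq_iff_eq, hμ1 a b _ h]
        exact (hFF b a q h.symm).symm
      · rw [hμ0 a b h, hμ0 b a (fun h' => h h'.symm), inv_one]
    · have hA : ∀ x y : V, x ∈ ({a, b, c} : Finset V) → y ∈ ({a, b, c} : Finset V) → x ≠ y → K.graph.Adj x y := by
        intro x y hx hy hxy
        refine ⟨hxy, K.down _ hf _ ?_ (by simp)⟩
        intro z hz
        rw [Finset.mem_insert, Finset.mem_singleton] at hz
        rcases hz with rfl | rfl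
        · exact hx
        · exact hy
      ext r
      obtain ⟨t, ⟨ht1, ht2, ht3⟩, -⟩ := hL.lift (c, r) ({a, b, c} : Finset V) hf (by simp)
      have ha : a ∈ t.image Prod.fst := by rw [ht3]; simp
      have hb : b ∈ t.image Prod.fst := by rw [ht3]; simp
      obtain ⟨⟨a', p⟩, hx, hx'⟩ := Finset.mem_image.1 ha
      obtain ⟨⟨b', q⟩, hy, hy'⟩ := Finset.mem_image.1 hb
      simp only at hx' hy'
      subst hx' hy'
      have hsub : ∀ x y : V × P, x ∈ t → y ∈ t → ({x, y} : Finset (V × P)) ∈ L.faces := by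
        intro x y hx hy
        refine L.down _ ht1 _ ?_ (by simp)
        intro z hz
        rw [Finset.mem_insert, Finset.mem_singleton] at hz
        rcases hz with rfl | rfl
        · exact hx
        · exact hy
      have e1 := (hedge a' b' p q (hA _ _ (by simp) (by simp) hab)).1 (hsub _ _ hx hy)
      have e2 := (hedge b' c q r (hA _ _ (by simp) (by simp) hbc)).1 (hsub _ _ hy ht2)
      have e3 := (hedge a' c p r (hA _ _ (by simp) (by simp) hac)).1 (hsub _ _ hx ht2)
      rw [Equiv.Perm.mul_apply, ← e2, ← e1, e3]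
  refine ⟨μ, hflat, hμ0, faces_inj ?_⟩
  show L.faces = (coverCpx K μ).faces
  ext s
  rw [c1_mem]
  constructor
  · intro hs
    obtain ⟨h1, h2⟩ := hL.map _ hs
    refine ⟨h1, fun x hx y hy hxy => ?_⟩
    have h3 : ({x, y} : Finset (V × P)) ∈ L.faces := by
      refine L.down _ hs _ ?_ (by simp)
      intro z hz
      rw [Finset.mem_insert, Finset.mem_singleton] at hz
      rcases hz with rfl | rfl
      · exact hx
      · exact hy
    obtain ⟨h4, h5⟩ := t6_proj hL hxy h3
    exact ⟨h4, (hedge x.1 y.1 x.2 y.2 h5).1 h3⟩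
  · rintro ⟨h1, h2⟩
    obtain ⟨w, hw⟩ : s.Nonempty := by
      have := K.nonempty _ h1
      exact Finset.image_nonempty.1 this
    obtain ⟨t, ⟨ht1, ht2, ht3⟩, -⟩ := hL.lift w _ h1 (Finset.mem_image_of_mem _ hw)
    have hst : s ⊆ t := by
      intro x hx
      by_cases hxw : x = w
      · rw [hxw]
        exact ht2
      · obtain ⟨h3, h4⟩ := h2 x hx w hw hxw
        have h5 : x.1 ∈ t.image Prod.fst := by
          rw [ht3]
          exact Finset.mem_image_of_mem _ hx
        obtain ⟨y, hy, hyx⟩ := Finset.mem_image.1 h5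
        have hyw : y ≠ w := fun h6 => h3 (by rw [← hyx, h6])
        have h7 : ({y, w} : Finset (V × P)) ∈ L.faces := by
          refine L.down _ ht1 _ ?_ (by simp)
          intro z hz
          rw [Finset.mem_insert, Finset.mem_singleton] at hz
          rcases hz with rfl | rfl
          · exact hy
          · exact ht2
        obtain ⟨-, h8⟩ := t6_proj hL hyw h7
        have h9 := (hedge y.1 w.1 y.2 w.2 h8).1 h7
        rw [hyx, ← h4] at h9
        have : y = x := Prod.ext hyx h9
        rw [← this]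
        exact hy
    have hts : t ⊆ s := by
      intro y hy
      have h5 : y.1 ∈ s.image Prod.fst := by
        rw [← ht3]
        exact Finset.mem_image_of_mem _ hy
      obtain ⟨x, hx, hxy⟩ := Finset.mem_image.1 h5
      have := (hL.map _ ht1).2 (Finset.mem_coe.2 (hst hx)) (Finset.mem_coe.2 hy) hxy
      rw [← this]
      exact hx
    rw [Finset.Subset.antisymm hst hts]
    exact ht1

theorem cover_inj {μ μ' : V → V → Equiv.Perm P} (hμ : Flat K μ) (hμ' : Flat K μ') (hn : Nrm K μ) (hn' : Nrm K μ')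
    (h : coverCpx K μ = coverCpx K μ') : μ = μ' := by
  funext a b
  by_cases hab : K.graph.Adj a b
  · ext q
    have h1 : (coverCpx K μ).graph.Adj (a, μ a b q) (b, q) := (cover_adj hμ _ _).2 ⟨hab, rfl⟩
    rw [h] at h1
    exact ((cover_adj hμ' _ _).1 h1).2
  · rw [hn a b hab, hn' a b hab]

end H98A
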