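import Pool.Agent.Lib.H98A.S3
import Pool.Agent.Lib.H98A.T6

set_option autoImplicit false

/-!
# H98A, S4: coverings of every large degree with the smallest possible radius
-/

open Finset

namespace H98A

open H32D

theorem euler_all {V : Type} [Fintype V] [DecidableEq V] {K : Cpx V} {g : ℕ} (hg : 2 ≤ g) (hχ : K.euler = 2 - 2 * (g : ℤ)) (d : ℕ)
    (L : Cpx (V × Fin d)) (hL : IsCovering Prod.fst L K) : L.euler = 2 - 2 * ((d * (g - 1) + 1 : ℕ) : ℤ) := by
  obtain ⟨μ, h1, -, rfl⟩ := cov_rep hL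
  rw [cover_euler h1, hχ, Fintype.card_fin]
  have : ((g - 1 : ℕ) : ℤ) = (g : ℤ) - 1 := by omega
  push_cast
  rw [this]
  ring

/-- the expected lower bound for all the expanding coverings -/
theorem low_all {V : Type} [Fintype V] [DecidableEq V] (K : Cpx V) (hK : IsSurface K) (g : ℕ) (hg : 2 ≤ g) (n : ℕ) (hn : 5 ≤ n)
    (h : ℝ) (hh : 0 < h) : ∃ c : ℝ, 0 < c ∧ ∃ d1 : ℕ, ∀ d : ℕ, d1 ≤ d → ∀ L : Cpx (V × Fin d), IsCovering Prod.fst L K → Expands L.graph h →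
      ENNReal.ofReal (c * ((d * (g - 1) + 1 : ℕ) : ℝ) ^ (1 / ((n : ℝ) - 1))) ≤ thickRadius n L := by
  obtain ⟨e, rfl⟩ : ∃ e, n = e + 1 := ⟨n - 1, by omega⟩
  obtain ⟨c1, hc1, N0, hlow⟩ := thickRadius_ge e (by omega) h hh (Fintype.card V)
  have hVne : Nonempty V := hK.conn.nonempty
  have hV : 1 ≤ Fintype.card V := Fintype.card_pos
  have hgpos : (0 : ℝ) < g := by exact_mod_cast (by omega : 0 < g)
  refine ⟨c1 * (1 / (g : ℝ)) ^ (1 / (e : ℝ)), by positivity, N0 + 1, fun d hd L hL hE => ?_⟩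
  have hdeg : ∀ w, Set.ncard {v | L.graph.Adj w v} ≤ Fintype.card V := by
    intro w
    obtain ⟨μ, h1, -, rfl⟩ := cov_rep hL
    exact cover_degree h1 w
  have hlo := hlow (V × Fin d) inferInstance inferInstance L hE hdeg (by
    rw [Fintype.card_prod, Fintype.card_fin]
    calc N0 ≤ 1 * d := by omega
      _ ≤ Fintype.card V * d := Nat.mul_le_mul_right _ hV)
  refine le_trans (ENNReal.ofReal_le_ofReal ?_) hlo
  rw [Fintype.card_prod, Fintype.card_fin]
  have h1 : (1 / (g : ℝ)) * ((d * (g - 1) + 1 : ℕ) : ℝ) ≤ ((Fintype.card V * d : ℕ) : ℝ) := by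
    rw [one_div, inv_mul_le_iff₀ hgpos]
    have h2 : d * (g - 1) + 1 ≤ g * (Fintype.card V * d) := by
      obtain ⟨g', rfl⟩ : ∃ g', g = g' + 1 := ⟨g - 1, by omega⟩
      rw [Nat.add_sub_cancel]
      calc d * g' + 1 ≤ d * g' + d := by omega
        _ = (g' + 1) * (1 * d) := by ring
        _ ≤ (g' + 1) * (Fintype.card V * d) := Nat.mul_le_mul_left _ (Nat.mul_le_mul_right _ hV)
    exact_mod_cast h2
  have e1 : (((e + 1 : ℕ) : ℝ) - 1) = e := by push_cast; ring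
  rw [e1, mul_assoc, ← Real.mul_rpow (by positivity) (by positivity)]
  exact mul_le_mul_of_nonneg_left (Real.rpow_le_rpow (by positivity) h1 (by positivity)) hc1.le

/-- for every large degree there is an expanding covering with the smallest possible radius -/
theorem up_all {V : Type} [Fintype V] [DecidableEq V] (K : Cpx V) (hK : IsSurface K) (g : ℕ) (hg : 2 ≤ g)
    (hχ : K.euler = 2 - 2 * (g : ℤ)) (n : ℕ) (hn : 5 ≤ n) :
    ∃ C h : ℝ, 0 < C ∧ 0 < h ∧ ∃ d1 : ℕ, ∀ d : ℕ, d1 ≤ d → ∃ L : Cpx (V × Fin d), IsCovering Prod.fst L K ∧ IsSurface L ∧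
      Expands L.graph h ∧ thickRadius n L ≤ ENNReal.ofReal (C * ((d * (g - 1) + 1 : ℕ) : ℝ) ^ (1 / ((n : ℝ) - 1))) := by
  obtain ⟨e, rfl⟩ : ∃ e, n = e + 1 := ⟨n - 1, by omega⟩
  obtain ⟨κ, Cp, B, d1, hCp, hB, hsheet⟩ := s3_sheets e (by omega)
  obtain ⟨lab, hlab⟩ := exists_goodLabel hK (by rw [hχ]; have : (2 : ℤ) ≤ g := by exact_mod_cast hg
                                                linarith)
  obtain ⟨h, hh, hexp⟩ := cover_expands hlab Cp hCp
  obtain ⟨mm, hmm⟩ := cover_count (K := K) hlab.flat κ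
  obtain ⟨C1, hC1, hrad⟩ := thickRadius_le_of_routed (e + 1) hn mm
  refine ⟨C1 * (B + 1), h, by positivity, hh, d1 + 1, fun d hd => ?_⟩
  obtain ⟨σ, site, J, hpoi, hrout, hcard, hcnt, hs, hr⟩ := hsheet d (by omega)
  have hne : Nonempty (Fin d) := ⟨⟨0, by omega⟩⟩
  have hflat : Flat K (permLab lab σ) := flat_permLab hlab.flat _
  have hE : Expands (coverCpx K (permLab lab σ)).graph h := hexp _ _ _ _ hpoi
  refine ⟨coverCpx K (permLab lab σ), cover_covering hflat, cover_surface hK hflat hh hE, hE, ?_⟩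
  have hR : (0 : ℝ) ≤ B * (d : ℝ) ^ (1 / (e : ℝ)) := by positivity
  have hb := hrad (V × Fin d) inferInstance inferInstance (coverCpx K (permLab lab σ))
    (fun x => site x.2) (edgeList K lab σ site J) (cover_routed hK hlab.flat hrout)
    (hmm (Fin d) inferInstance inferInstance (e + 1) σ site J hcard hcnt) (B * (d : ℝ) ^ (1 / (e : ℝ))) hR
    (fun x a => hs x.2 a)
    (fun x y _ z hz a => edgeList_mem (K := K) (lab := lab) (σ := σ) (Z := {z | ∀ a, |(z a : ℝ)| ≤ B * (d : ℝ) ^ (1 / (e : ℝ))})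
      (fun p => fun a => hs p a) (fun b p z hz => fun a => hr b p z hz a) x y z hz a)
  refine hb.trans (ENNReal.ofReal_le_ofReal ?_)
  have e1 : (((e + 1 : ℕ) : ℝ) - 1) = e := by push_cast; ring
  rw [e1]
  have hd1 : (1 : ℝ) ≤ d := by exact_mod_cast (by omega : 1 ≤ d)
  have h1 : (d : ℝ) ≤ ((d * (g - 1) + 1 : ℕ) : ℝ) := by
    have : d ≤ d * (g - 1) + 1 := by
      calc d = d * 1 := (mul_one d).symm
        _ ≤ d * (g - 1) := Nat.mul_le_mul_left _ (by omega)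
        _ ≤ _ := Nat.le_succ _
    exact_mod_cast this
  have h2 : (d : ℝ) ^ (1 / (e : ℝ)) ≤ ((d * (g - 1) + 1 : ℕ) : ℝ) ^ (1 / (e : ℝ)) :=
    Real.rpow_le_rpow (by positivity) h1 (by positivity)
  have h3 : (1 : ℝ) ≤ (d : ℝ) ^ (1 / (e : ℝ)) := Real.one_le_rpow hd1 (by positivity)
  calc C1 * (B * (d : ℝ) ^ (1 / (e : ℝ)) + 1) ≤ C1 * (B * (d : ℝ) ^ (1 / (e : ℝ)) + (d : ℝ) ^ (1 / (e : ℝ))) :=
        mul_le_mul_of_nonneg_left (by linarith) hC1.le
    _ = C1 * (B + 1) * (d : ℝ) ^ (1 / (e : ℝ)) := by ring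
    _ ≤ _ := mul_le_mul_of_nonneg_left h2 (by positivity)

end H98A
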