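import Pool.Agent.Lib.H32N.Topology

set_option autoImplicit false

/-!
# H98A, module T: definitions

* `Nrm K μ`: the labelling is trivial outside the edges of `K`.
* `act K τ μ`: the gauge transformation of `μ` by `τ`, normalised.
* `Marked K v0 g l m c D`: a disc diagram whose loops are a marking of the fundamental group.
* complexes on a fixed finite set of vertices form a finite type.
-/

open Finset

namespace H98A

open H32D H32N

/-- The labelling is trivial outside the edges of `K`. -/
def Nrm {V : Type} [Fintype V] [DecidableEq V] (K : Cpx V) {H : Type} [Group H] (μ : V → V → H) : Prop :=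
  ∀ a b, ¬ K.graph.Adj a b → μ a b = 1

open Classical in
/-- The gauge transformation of `μ` by `τ`, normalised. -/
noncomputable def act {V : Type} [Fintype V] [DecidableEq V] (K : Cpx V) {H : Type} [Group H] (τ : V → H) (μ : V → V → H) : V → V → H :=
  fun a b => if K.graph.Adj a b then τ a * μ a b * (τ b)⁻¹ else 1

theorem faces_inj {V : Type} [Fintype V] [DecidableEq V] : Function.Injective (fun K : Cpx V => K.faces) := by
  rintro ⟨f, _, _, _⟩ ⟨f', _, _, _⟩ h
  simp only at h
  subst h
  rfl

instance {V : Type} [Fintype V] [DecidableEq V] : Finite (Cpx V) := Finite.of_injective _ faces_inj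

/-- A disc diagram for `K` whose loops are a marking: the flat labellings by permutations correspond, up to gauge, to the solutions of the
surface relation. -/
structure Marked {V : Type} [Fintype V] [DecidableEq V] (K : Cpx V) (v0 : V) (g l m : ℕ) (c : ℕ → ℕ → V) (D : ℕ → ℕ → V) : Prop where
  disc : Disc K v0 g l m c D
  cov : ∀ (P : Type) (μ : V → V → Equiv.Perm P) (σ : Fin (2 * g) → Equiv.Perm P), Flat K μ → Hol μ c l σ → H98T.IsCov σ
  real : ∀ (P : Type) (σ : Fin (2 * g) → Equiv.Perm P), H98T.IsCov σ → ∃ μ : V → V → Equiv.Perm P, Flat K μ ∧ Hol μ c l σ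
  uniq : ∀ (P : Type) (μ μ' : V → V → Equiv.Perm P) (σ : Fin (2 * g) → Equiv.Perm P), Flat K μ → Flat K μ' → Hol μ c l σ → Hol μ' c l σ →
    ∃ τ : V → Equiv.Perm P, τ v0 = 1 ∧ ∀ a b, K.graph.Adj a b → μ' a b = τ a * μ a b * (τ b)⁻¹

end H98A
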