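import Pool.Agent.Lib.H98A.T0

set_option autoImplicit false

/-!
# H98A, chunk T1: a basis adapted to the relation, with generation
-/

namespace H98A

open H32D H32N

theorem exists_basis2 {X : Type} [DecidableEq X] [Fintype X] (g : ℕ) (hcard : Fintype.card X = 2 * g) (r : List (X × Bool))
    (φ : FreeGroup X ≃* FreeGroup X) (L : List (X × X)) (u : FreeGroup X) (h : NF r φ L u) (hall : ∀ x : X, ∃ p ∈ L, x = p.1 ∨ x = p.2) :
    ∃ B : ℕ → FreeGroup X,
      (∀ (H : Type) (_ : Group H) (s : FreeGroup X →* H), s (FreeGroup.mk r) = 1 → comm g (fun k => s (B k)) = 1) ∧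
      (∀ (H : Type) (_ : Group H) (σ : ℕ → H), comm g σ = 1 → ∃ s : FreeGroup X →* H, s (FreeGroup.mk r) = 1 ∧ ∀ k < 2 * g, s (B k) = σ k) ∧
      ∀ (H : Type) (_ : Group H) (s s' : FreeGroup X →* H), (∀ k < 2 * g, s (B k) = s' (B k)) → s = s' := by
  classical
  obtain ⟨E, hE⟩ : ∃ E : List X, E = L.flatMap (fun p => [p.1, p.2]) := ⟨_, rfl⟩
  have hnd : E.Nodup := hE ▸ h.nodup
  have hEall : ∀ x, x ∈ E := by
    intro x
    obtain ⟨p, hp, hx⟩ := hall x
    rw [hE, List.mem_flatMap]
    exact ⟨p, hp, by rcases hx with rfl | rfl <;> simp⟩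
  have hElen : E.length = 2 * L.length := by
    rw [hE]; exact a5_len L
  have hEc : E.length = Fintype.card X := by
    rw [← List.toFinset_card_of_nodup hnd, ← Finset.card_univ]
    congr 1
    exact Finset.eq_univ_iff_forall.2 fun x => List.mem_toFinset.2 (hEall x)
  have hLg : L.length = g := by omega
  have hget : ∀ i (hi : i < L.length), E[2 * i]? = some L[i].1 ∧ E[2 * i + 1]? = some L[i].2 := by
    intro i hi
    rw [hE]
    exact a5_get L i hi
  refine ⟨fun k => match E[k]? with | some x => φ.symm (FreeGroup.of x) | none => 1, ?_, ?_, ?_⟩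
  · intro H _ s hs
    have h1 := congrArg (fun a => s (φ.symm a)) h.eq
    simp only [MulEquiv.symm_apply_apply, hs, map_mul, map_inv] at h1
    have h2 : s (φ.symm (L.map (fun p => cm (FreeGroup.of p.1) (FreeGroup.of p.2))).prod) = 1 := by
      have h3 := h1.symm
      rw [mul_inv_eq_one] at h3
      exact mul_eq_left.1 h3
    rw [map_list_prod, map_list_prod, List.map_map, List.map_map] at h2
    rw [← hLg, a5_comm L (fun x => s (φ.symm (FreeGroup.of x)))]
    · rw [← h2]
      congr 1
      refine List.map_congr_left fun p _ => ?_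
      simp [cm]
    · intro i hi
      obtain ⟨g1, g2⟩ := hget i hi
      simp only [g1, g2, and_self]
  · intro H _ σ hσ
    let f : FreeGroup X →* H := FreeGroup.lift (fun x => σ (E.idxOf x))
    have hidx : ∀ k x, E[k]? = some x → E.idxOf x = k := by
      intro k x hk
      obtain ⟨hk1, hk2⟩ := List.getElem?_eq_some_iff.1 hk
      rw [← hk2]
      exact hnd.idxOf_getElem k hk1
    refine ⟨f.comp φ.toMonoidHom, ?_, ?_⟩
    · have h1 : (f.comp φ.toMonoidHom) (FreeGroup.mk r) = f (φ (FreeGroup.mk r)) := rfl
      rw [h1, h.eq, map_mul, map_mul, map_list_prod, List.map_map, map_inv]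
      have h2 : (L.map (f ∘ fun p => cm (FreeGroup.of p.1) (FreeGroup.of p.2))).prod = 1 := by
        rw [← hσ, ← hLg, a5_comm L (fun x => σ (E.idxOf x))]
        · congr 1
          refine List.map_congr_left fun p _ => ?_
          simp [cm, f]
        · intro i hi
          obtain ⟨g1, g2⟩ := hget i hi
          rw [hidx _ _ g1, hidx _ _ g2]
          exact ⟨rfl, rfl⟩
      rw [h2, mul_one, mul_inv_cancel]
    · intro k hk
      have hk' : k < E.length := by omega
      have h1 : E[k]? = some E[k] := List.getElem?_eq_getElem hk'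
      simp only [h1]
      have h2 : (f.comp φ.toMonoidHom) (φ.symm (FreeGroup.of E[k])) = f (FreeGroup.of E[k]) := by
        show f (φ (φ.symm _)) = _
        rw [MulEquiv.apply_symm_apply]
      rw [h2]
      simp only [f, FreeGroup.lift_apply_of]
      rw [hidx k _ h1]
  · intro H _ s s' hs
    have key : s.comp φ.symm.toMonoidHom = s'.comp φ.symm.toMonoidHom := by
      refine FreeGroup.ext_hom _ _ (fun x => ?_)
      obtain ⟨k, hk, hkx⟩ := List.getElem_of_mem (hEall x)
      have h1 : E[k]? = some x := by rw [List.getElem?_eq_getElem hk, hkx]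
      have h2 := hs k (by omega)
      simp only [h1] at h2
      exact h2
    ext x
    have h1 := congrArg (fun f : FreeGroup X →* H => f (φ (FreeGroup.of x))) key
    have h2 : ∀ t : FreeGroup X →* H, (t.comp φ.symm.toMonoidHom) (φ (FreeGroup.of x)) = t (FreeGroup.of x) := by
      intro t
      show t (φ.symm (φ _)) = _
      rw [MulEquiv.symm_apply_apply]
    simp only [h2] at h1
    exact h1

end H98A
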