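import Pool.Agent.Lib.H98A.T0

set_option autoImplicit false

/-!
# H98A, chunk T2: tree edges and letters cover the boundary word
-/

open Finset

namespace H98A

open H32D H32N

theorem letters_inj {V : Type} [DecidableEq V] {w : List (V × V)} {v0 : V} {par : V → V} {X : Type} [DecidableEq X] {rep : X → V × V}
    {r : List (X × Bool)} (hX : Letters w v0 par X rep r) : Function.Injective rep := by
  intro x y hxy
  by_contra hne
  obtain ⟨η, h1, h2, h3⟩ := hX.write (Multiplicative ℤ) inferInstance (fun z => if z = x then Multiplicative.ofAdd 1 else 1)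
  have e1 := h3 x
  have e2 := h3 y
  rw [if_pos rfl] at e1
  rw [if_neg (Ne.symm hne), ← hxy, e1] at e2
  exact absurd (Multiplicative.toAdd.injective.eq_iff.2 e2 : Multiplicative.toAdd (Multiplicative.ofAdd (1 : ℤ)) = Multiplicative.toAdd (1 : Multiplicative ℤ))
    (by simp)

theorem letters_swap {V : Type} [DecidableEq V] {w : List (V × V)} {v0 : V} {par : V → V} {X : Type} {rep : X → V × V}
    {r : List (X × Bool)} (hX : Letters w v0 par X rep r) (x y : X) : rep x ≠ (rep y).swap := by
  intro hxy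
  obtain ⟨η, h1, h2, h3⟩ := hX.write (Multiplicative ℤ) inferInstance (fun _ => Multiplicative.ofAdd 1)
  have e1 := h3 x
  have e2 := h3 y
  rw [hxy, Prod.fst_swap, Prod.snd_swap, h1, e2] at e1
  have e3 := congrArg Multiplicative.toAdd e1
  simp at e3

theorem letters_tree {V : Type} [DecidableEq V] {w : List (V × V)} {v0 : V} {par : V → V} {X : Type} {rep : X → V × V}
    {r : List (X × Bool)} (hX : Letters w v0 par X rep r) (x : X) (v : V) (hv : v ≠ v0) : rep x ≠ (par v, v) ∧ rep x ≠ (v, par v) := by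
  obtain ⟨η, h1, h2, h3⟩ := hX.write (Multiplicative ℤ) inferInstance (fun _ => Multiplicative.ofAdd 1)
  have e1 := h3 x
  have e2 := h2 v hv
  constructor
  · intro h
    rw [h] at e1
    simp only at e1
    rw [e2] at e1
    have e3 := congrArg Multiplicative.toAdd e1
    simp at e3
  · intro h
    rw [h] at e1
    simp only at e1
    rw [h1, e2] at e1
    have e3 := congrArg Multiplicative.toAdd e1
    simp at e3

theorem letters_cov {V : Type} [Fintype V] [DecidableEq V] {w : List (V × V)} (hn : w.Nodup) (hsym : ∀ a b, (a, b) ∈ w → (b, a) ∈ w)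
    {v0 : V} {par : V → V} {rk : V → ℕ} (ht : TreeOf w v0 par rk) {X : Type} [Fintype X] [DecidableEq X] {rep : X → V × V}
    {r : List (X × Bool)} (hX : Letters w v0 par X rep r) (hlen : w.length + 2 = 2 * Fintype.card X + 2 * Fintype.card V) :
    ∀ e ∈ w, (∃ v, v ≠ v0 ∧ (e = (par v, v) ∨ e = (v, par v))) ∨ ∃ x, e = rep x ∨ e = (rep x).swap := by
  classical
  obtain ⟨U, hU⟩ : ∃ U : Finset V, U = univ.erase v0 := ⟨_, rfl⟩
  have hUc : U.card + 1 = Fintype.card V := by
    rw [hU, Finset.card_erase_of_mem (Finset.mem_univ _), Finset.card_univ]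
    have : 0 < Fintype.card V := Fintype.card_pos_iff.2 ⟨v0⟩
    omega
  have hUm : ∀ v, v ∈ U ↔ v ≠ v0 := by
    intro v
    rw [hU, Finset.mem_erase]
    simp
  obtain ⟨A, hA⟩ : ∃ A : Finset (V × V), A = U.image (fun v => (par v, v)) := ⟨_, rfl⟩
  obtain ⟨A', hA'⟩ : ∃ A' : Finset (V × V), A' = U.image (fun v => (v, par v)) := ⟨_, rfl⟩
  obtain ⟨B, hB⟩ : ∃ B : Finset (V × V), B = univ.image rep := ⟨_, rfl⟩
  obtain ⟨B', hB'⟩ : ∃ B' : Finset (V × V), B' = univ.image (fun x => (rep x).swap) := ⟨_, rfl⟩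
  have cA : A.card = U.card := by
    rw [hA]
    exact Finset.card_image_of_injective _ fun a b h => (Prod.mk.inj h).2
  have cA' : A'.card = U.card := by
    rw [hA']
    exact Finset.card_image_of_injective _ fun a b h => (Prod.mk.inj h).1
  have cB : B.card = Fintype.card X := by
    rw [hB, Finset.card_image_of_injective _ (letters_inj hX), Finset.card_univ]
  have cB' : B'.card = Fintype.card X := by
    rw [hB', Finset.card_image_of_injective _ (fun a b h => letters_inj hX (Prod.swap_injective h)), Finset.card_univ]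
  have dAA' : Disjoint A A' := by
    rw [Finset.disjoint_left, hA, hA']
    intro e he he'
    obtain ⟨v, hv, rfl⟩ := Finset.mem_image.1 he
    obtain ⟨v', hv', h⟩ := Finset.mem_image.1 he'
    obtain ⟨h1, h2⟩ := Prod.mk.inj h
    have r1 := ht.rk v ((hUm v).1 hv)
    have r2 := ht.rk v' ((hUm v').1 hv')
    rw [h2] at r2
    rw [← h1] at r1
    omega
  have dBB' : Disjoint B B' := by
    rw [Finset.disjoint_left, hB, hB']
    intro e he he'
    obtain ⟨x, -, rfl⟩ := Finset.mem_image.1 he
    obtain ⟨y, -, h⟩ := Finset.mem_image.1 he'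
    exact letters_swap hX x y h.symm
  have dAB : Disjoint (A ∪ A') (B ∪ B') := by
    rw [Finset.disjoint_left, hA, hA', hB, hB']
    intro e he he'
    rcases Finset.mem_union.1 he with h1 | h1 <;> rcases Finset.mem_union.1 he' with h2 | h2 <;>
      obtain ⟨v, hv, rfl⟩ := Finset.mem_image.1 h1 <;> obtain ⟨x, -, hx⟩ := Finset.mem_image.1 h2
    · exact (letters_tree hX x v ((hUm v).1 hv)).1 hx
    · exact (letters_tree hX x v ((hUm v).1 hv)).2 (Prod.swap_injective hx)
    · exact (letters_tree hX x v ((hUm v).1 hv)).2 hx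
    · exact (letters_tree hX x v ((hUm v).1 hv)).1 (Prod.swap_injective hx)
  have hsub : (A ∪ A') ∪ (B ∪ B') ⊆ w.toFinset := by
    intro e he
    rw [List.mem_toFinset]
    rw [hA, hA', hB, hB'] at he
    rcases Finset.mem_union.1 he with he | he <;> rcases Finset.mem_union.1 he with h1 | h1 <;> obtain ⟨y, hy, rfl⟩ := Finset.mem_image.1 h1
    · exact (ht.mem y ((hUm y).1 hy)).1
    · exact (ht.mem y ((hUm y).1 hy)).2
    · exact hX.mem y
    · exact hsym _ _ (hX.mem y)
  have hcard : ((A ∪ A') ∪ (B ∪ B')).card = w.toFinset.card := by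
    rw [Finset.card_union_of_disjoint dAB, Finset.card_union_of_disjoint dAA', Finset.card_union_of_disjoint dBB', cA, cA', cB, cB',
      List.toFinset_card_of_nodup hn]
    omega
  have heq := Finset.eq_of_subset_of_card_le hsub hcard.ge
  intro e he
  rw [← List.mem_toFinset, ← heq, hA, hA', hB, hB'] at he
  rcases Finset.mem_union.1 he with he | he <;> rcases Finset.mem_union.1 he with h1 | h1 <;> obtain ⟨y, hy, rfl⟩ := Finset.mem_image.1 h1
  · exact Or.inl ⟨y, (hUm y).1 hy, Or.inl rfl⟩
  · exact Or.inl ⟨y, (hUm y).1 hy, Or.inr rfl⟩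
  · exact Or.inr ⟨y, Or.inl rfl⟩
  · exact Or.inr ⟨y, Or.inr rfl⟩

end H98A
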