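import Pool.Agent.Lib.H98A.T0

set_option autoImplicit false

/-!
# H98A, chunk T3: a flat labelling is determined by its values on the boundary word
-/

open Finset

namespace H98A

open H32D H32N

theorem t3_pair {V H : Type} [DecidableEq V] [Group H] {lab lab' : V → V → H} (hi : ∀ a b, lab b a = (lab a b)⁻¹)
    (hi' : ∀ a b, lab' b a = (lab' a b)⁻¹) {u v z : V} (h1 : lab u v = lab' u v) (h2 : lab v z = lab' v z) (h3 : lab u z = lab' u z) :
    ∀ a ∈ ({u, v, z} : Finset V), ∀ b ∈ ({u, v, z} : Finset V), a ≠ b → lab a b = lab' a b := by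
  have g1 : lab v u = lab' v u := by rw [hi u v, hi' u v, h1]
  have g2 : lab z v = lab' z v := by rw [hi v z, hi' v z, h2]
  have g3 : lab z u = lab' z u := by rw [hi u z, hi' u z, h3]
  intro a ha b hb hab
  simp only [Finset.mem_insert, Finset.mem_singleton] at ha hb
  rcases ha with rfl | rfl | rfl <;> rcases hb with rfl | rfl | rfl <;> first | exact absurd rfl hab | assumption

theorem built_det {V : Type} [Fintype V] [DecidableEq V] {K : Cpx V} {O : V → V → V → Prop} (hO : IsOrientation K O)
    {T C : Finset (Finset V)} {w : List (V × V)} (h : Built O T C w) {H : Type} [Group H] {lab lab' : V → V → H} (hlab : Flat K lab)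
    (hlab' : Flat K lab') (hw : ∀ e ∈ w, lab e.1 e.2 = lab' e.1 e.2) :
    ∀ t ∈ T, ∀ a ∈ t, ∀ b ∈ t, a ≠ b → lab a b = lab' a b := by
  induction h with
  | base a b c h =>
    intro t ht
    rw [Finset.mem_singleton] at ht
    subst ht
    refine t3_pair hlab.inv hlab'.inv (hw (a, b) (by simp)) (hw (b, c) (by simp)) ?_
    have := hw (c, a) (by simp)
    rw [hlab.inv c a, hlab'.inv c a, this]
  | step T C w1 w2 u v z hb hOv hT ih =>
    obtain ⟨hvu, huz, hvz, hf⟩ := hO.face _ _ _ hOv
    have e1 : lab u z = lab' u z := hw (u, z) (by simp)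
    have e2 : lab z v = lab' z v := hw (z, v) (by simp)
    have hf' : ({u, z, v} : Finset V) ∈ K.faces := by
      have : ({u, z, v} : Finset V) = {v, u, z} := by
        ext x
        simp only [Finset.mem_insert, Finset.mem_singleton]
        tauto
      rw [this]
      exact hf
    have e3 : lab u v = lab' u v := by
      rw [← hlab.tri u z v huz (Ne.symm hvz) (Ne.symm hvu) hf', ← hlab'.tri u z v huz (Ne.symm hvz) (Ne.symm hvu) hf', e1, e2]
    have hold := ih (by
      intro e he
      rcases List.mem_append.1 he with h1 | h1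
      · exact hw e (List.mem_append_left _ h1)
      · rcases List.mem_cons.1 h1 with h2 | h2
        · rw [h2]
          exact e3
        · exact hw e (List.mem_append_right _ (List.mem_cons_of_mem _ (List.mem_cons_of_mem _ h2))))
    intro t ht
    rcases Finset.mem_insert.1 ht with rfl | ht
    · refine t3_pair hlab.inv hlab'.inv e3 ?_ e1
      rw [hlab.inv z v, hlab'.inv z v, e2]
    · exact hold t ht

/-- on the edges of the surface -/
theorem built_adj {V : Type} [Fintype V] [DecidableEq V] {K : Cpx V} (hK : IsSurface K) {O : V → V → V → Prop} (hO : IsOrientation K O)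
    {C : Finset (Finset V)} {w : List (V × V)} (h : Built O K.tris C w) {H : Type} [Group H] {lab lab' : V → V → H} (hlab : Flat K lab)
    (hlab' : Flat K lab') (hw : ∀ e ∈ w, lab e.1 e.2 = lab' e.1 e.2) {a b : V} (hab : K.graph.Adj a b) : lab a b = lab' a b := by
  obtain ⟨t, ht, hst, hc⟩ := hK.pure _ hab.2
  exact built_det hO h hlab hlab' hw t (Finset.mem_filter.2 ⟨ht, hc⟩) a (hst (by simp)) b (hst (by simp)) hab.1

end H98A
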