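import Pool.Agent.Lib.H98A.T1
import Pool.Agent.Lib.H98A.T2
import Pool.Agent.Lib.H98A.T3

set_option autoImplicit false

/-!
# H98A, chunk T4: the loops, with uniqueness up to gauge
-/

open Finset

namespace H98A

open H32D H32N

theorem exists_loops2 {V : Type} [Fintype V] [DecidableEq V] {K : Cpx V} (hK : IsSurface K) (g : ℕ) (hχ : K.euler = 2 - 2 * (g : ℤ)) (v0 : V) :
    ∃ γ : ℕ → List V, (∀ k, ClW K v0 (γ k)) ∧
      (∀ (H : Type) (_ : Group H) (lab : V → V → H), Flat K lab → comm g (fun k => hol lab (γ k)) = 1) ∧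
      (∀ (H : Type) (_ : Group H) (σ : ℕ → H), comm g σ = 1 → ∃ lab : V → V → H, Flat K lab ∧ ∀ k < 2 * g, hol lab (γ k) = σ k) ∧
      ∀ (H : Type) (_ : Group H) (lab lab' : V → V → H), Flat K lab → Flat K lab' → (∀ k < 2 * g, hol lab (γ k) = hol lab' (γ k)) →
        ∃ τ : V → H, τ v0 = 1 ∧ ∀ a b, K.graph.Adj a b → lab' a b = τ a * lab a b * (τ b)⁻¹ := by
  classical
  obtain ⟨O, hO⟩ := hK.orient
  obtain ⟨C, w, hb⟩ := exists_built hK hO
  have inv := built_inv hO hb
  obtain ⟨hsym, hadj, hmem⟩ := w_symm hK hO hb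
  obtain ⟨par, rk, ht⟩ := exists_tree hK hO hb v0
  obtain ⟨X, iF, iD, rep, r, hX, hlen⟩ := exists_letters w inv.nodup hsym (fun a b h => (hadj a b h).1) v0 par rk ht
  have hlen2 := w_length hK hO hb g hχ
  have hcard : Fintype.card X = 2 * g := by omega
  obtain ⟨φ, L, u, hNF⟩ := normal_form r hX.nodup (fun x b _ => hX.all x _)
  have hall := all_letters hK hO hb v0 par rk ht X rep r hX φ L u hNF
  obtain ⟨B, hB1, hB2, hB3⟩ := exists_basis2 g hcard r φ L u hNF hall
  choose γ hγ hhol using fun k => exists_word_walk K w hadj v0 par rk ht X rep hX.mem (B k)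
  refine ⟨γ, hγ, ?_, ?_, ?_⟩
  · intro H _ lab hlab
    obtain ⟨S, hS0, hS⟩ := exists_gauge w v0 par rk ht H lab
    have h1 : (w.map (fun e => S e.1 * lab e.1 e.2 * (S e.2)⁻¹)).prod = 1 := by
      cases hw : w with
      | nil => simp
      | cons e w' =>
        have hne : w ≠ [] := by rw [hw]; simp
        obtain ⟨e', he'⟩ : ∃ e', w.getLast? = some e' := ⟨w.getLast hne, List.getLast?_eq_some_getLast hne⟩
        have hhead : w.head? = some e := by rw [hw]; rfl
        have h2 := gauge_prod H lab S w e e' hhead he' inv.chain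
        rw [← hw, h2, flat_prod hO hb lab hlab, inv.closed e e' hhead he', mul_one, mul_inv_cancel]
    have h2 : FreeGroup.lift (fun x => S (rep x).1 * lab (rep x).1 (rep x).2 * (S (rep x).2)⁻¹) (FreeGroup.mk r) = 1 := by
      rw [← h1]
      refine (hX.read H inferInstance (fun a b => S a * lab a b * (S b)⁻¹) ?_ ?_).symm
      · intro a b
        rw [hlab.inv a b]
        group
      · intro v hv
        show S (par v) * lab (par v) v * (S v)⁻¹ = 1
        rw [← hS v hv, mul_inv_cancel]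
    have h3 := hB1 H inferInstance (FreeGroup.lift (fun x => S (rep x).1 * lab (rep x).1 (rep x).2 * (S (rep x).2)⁻¹)) h2
    rw [← h3]
    congr 1
    funext k
    exact hhol k H inferInstance lab hlab.inv S hS0 hS
  · intro H _ σ hσ
    obtain ⟨s, hs1, hs2⟩ := hB2 H inferInstance σ hσ
    obtain ⟨η, hη1, hη2, hη3⟩ := hX.write H inferInstance (fun x => s (FreeGroup.of x))
    have hlift : FreeGroup.lift (fun x => η (rep x).1 (rep x).2) = s := by
      ext x
      rw [FreeGroup.lift_apply_of]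
      exact hη3 x
    have hprod : (w.map (fun e => η e.1 e.2)).prod = 1 := by
      rw [hX.read H inferInstance η hη1 hη2, hlift, hs1]
    obtain ⟨lab, hl1, hl2, hl3⟩ := exists_flat hO hb η hη1 hprod
    have hflat : Flat K lab := by
      refine ⟨hl1, fun a b c hab hbc hac hf => hl3 a b c hab hbc hac ?_⟩
      exact Finset.mem_filter.2 ⟨hf, Finset.card_eq_three.2 ⟨a, b, c, hab, hac, hbc, rfl⟩⟩
    refine ⟨lab, hflat, fun k hk => ?_⟩
    have hlw : ∀ a b, (a, b) ∈ w → lab a b = η a b := fun a b h => hl2 a b ((hmem a b).1 h).2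
    have htree : ∀ v, v ≠ v0 → lab (par v) v = 1 := fun v hv => by
      rw [hlw _ _ (ht.mem v hv).1, hη2 v hv]
    rw [hhol k H inferInstance lab hl1 (fun _ => 1) rfl (fun v hv => by rw [htree v hv, mul_one]), ← hs2 k hk, ← hlift]
    congr 2
    funext x
    have := hlw (rep x).1 (rep x).2 (hX.mem x)
    rw [this]
    simp
  · intro H _ lab lab' hlab hlab' hh
    obtain ⟨S, hS0, hS⟩ := exists_gauge w v0 par rk ht H lab
    obtain ⟨S', hS0', hS'⟩ := exists_gauge w v0 par rk ht H lab'
    have hfl : ∀ (l : V → V → H) (R : V → H), Flat K l → Flat K (fun a b => R a * l a b * (R b)⁻¹) := by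
      intro l R hl
      refine ⟨fun a b => ?_, fun a b c hab hbc hac hf => ?_⟩
      · show R b * l b a * (R a)⁻¹ = (R a * l a b * (R b)⁻¹)⁻¹
        rw [hl.inv a b]
        group
      · show R a * l a b * (R b)⁻¹ * (R b * l b c * (R c)⁻¹) = R a * l a c * (R c)⁻¹
        rw [← hl.tri a b c hab hbc hac hf]
        group
    have hs : FreeGroup.lift (fun x => S (rep x).1 * lab (rep x).1 (rep x).2 * (S (rep x).2)⁻¹) =
        FreeGroup.lift (fun x => S' (rep x).1 * lab' (rep x).1 (rep x).2 * (S' (rep x).2)⁻¹) := by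
      refine hB3 H inferInstance _ _ fun k hk => ?_
      rw [← hhol k H inferInstance lab hlab.inv S hS0 hS, ← hhol k H inferInstance lab' hlab'.inv S' hS0' hS']
      exact hh k hk
    have hrep : ∀ x, S (rep x).1 * lab (rep x).1 (rep x).2 * (S (rep x).2)⁻¹ = S' (rep x).1 * lab' (rep x).1 (rep x).2 * (S' (rep x).2)⁻¹ := by
      intro x
      have h1 := congrArg (fun f : FreeGroup X →* H => f (FreeGroup.of x)) hs
      simp only [FreeGroup.lift_apply_of] at h1
      exact h1
    have hinv : ∀ (l : V → V → H) (R : V → H), Flat K l → ∀ a b, R b * l b a * (R a)⁻¹ = (R a * l a b * (R b)⁻¹)⁻¹ :=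
      fun l R hl a b => (hfl l R hl).inv a b
    have hw : ∀ e ∈ w, (fun a b => S a * lab a b * (S b)⁻¹) e.1 e.2 = (fun a b => S' a * lab' a b * (S' b)⁻¹) e.1 e.2 := by
      intro e he
      show S e.1 * lab e.1 e.2 * (S e.2)⁻¹ = S' e.1 * lab' e.1 e.2 * (S' e.2)⁻¹
      have htr : ∀ v, v ≠ v0 → S (par v) * lab (par v) v * (S v)⁻¹ = 1 ∧ S' (par v) * lab' (par v) v * (S' v)⁻¹ = 1 := by
        intro v hv
        rw [← hS v hv, ← hS' v hv]
        simp
      rcases letters_cov inv.nodup hsym ht hX hlen e he with ⟨v, hv, rfl | rfl⟩ | ⟨x, rfl | rfl⟩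
      · simp only
        rw [(htr v hv).1, (htr v hv).2]
      · simp only
        rw [hinv lab S hlab, hinv lab' S' hlab', (htr v hv).1, (htr v hv).2]
      · exact hrep x
      · rw [Prod.fst_swap, Prod.snd_swap, hinv lab S hlab, hinv lab' S' hlab', hrep x]
    refine ⟨fun a => (S' a)⁻¹ * S a, ?_, fun a b hab => ?_⟩
    · show (S' v0)⁻¹ * S v0 = 1
      rw [hS0, hS0', inv_one, mul_one]
    · have h1 := built_adj hK hO hb (hfl lab S hlab) (hfl lab' S' hlab') hw hab
      show lab' a b = (S' a)⁻¹ * S a * lab a b * ((S' b)⁻¹ * S b)⁻¹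
      have h2 : (S' a)⁻¹ * S a * lab a b * ((S' b)⁻¹ * S b)⁻¹ = (S' a)⁻¹ * (S a * lab a b * (S b)⁻¹) * S' b := by group
      rw [h2, h1]
      group

end H98A
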