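import Pool.Agent.Lib.H98A.T4

set_option autoImplicit false

/-!
# H98A, chunk T5: the marked disc diagram
-/

open Finset

namespace H98A

open H32D H32N

theorem exists_disc2 {V : Type} [Fintype V] [DecidableEq V] {K : Cpx V} (hK : IsSurface K) (g : ℕ) (hg : 1 ≤ g) (hχ : K.euler = 2 - 2 * (g : ℤ)) :
    ∃ (v0 : V) (l m : ℕ) (c D : ℕ → ℕ → V), Disc K v0 g l m c D ∧
      (∀ (H : Type) (_ : Group H) (lab : V → V → H), Flat K lab → comm g (fun k => holF lab (c k) l) = 1) ∧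
      (∀ (H : Type) (_ : Group H) (σ : ℕ → H), comm g σ = 1 → ∃ lab : V → V → H, Flat K lab ∧ ∀ k < 2 * g, holF lab (c k) l = σ k) ∧
      ∀ (H : Type) (_ : Group H) (lab lab' : V → V → H), Flat K lab → Flat K lab' → (∀ k < 2 * g, holF lab (c k) l = holF lab' (c k) l) →
        ∃ τ : V → H, τ v0 = 1 ∧ ∀ a b, K.graph.Adj a b → lab' a b = τ a * lab a b * (τ b)⁻¹ := by
  obtain ⟨v0⟩ := hK.conn.nonempty
  obtain ⟨γ, hγ, h1, h2, h3⟩ := exists_loops2 hK g hχ v0
  obtain ⟨p, hp, hp1, hp2⟩ := exists_bottom v0 g γ hγ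
  have hnull : Relation.EqvGen (Mv K) p [v0] := by
    refine null_of_hol hK.conn v0 p hp ?_
    intro H _ lab hlab
    rw [hp1 H _ lab hlab.inv]
    exact h1 H _ lab hlab
  obtain ⟨N0, hN0⟩ := chain_of_equiv hnull hp
  obtain ⟨l, hl, hl1⟩ : ∃ l : ℕ, N0 + 1 ≤ l ∧ ∀ k < 2 * g, (γ k).length ≤ l + 1 := by
    refine ⟨N0 + 1 + ∑ k ∈ Finset.range (2 * g), (γ k).length, by omega, fun k hk => ?_⟩
    have := Finset.single_le_sum (f := fun k => (γ k).length) (fun i _ => Nat.zero_le _) (Finset.mem_range.2 hk)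
    omega
  obtain ⟨b, hb, hblen, hstr, hbot⟩ := hp2 l (by omega) hl1
  have hNN : N0 ≤ 4 * g * l := by
    have : 1 * l ≤ 4 * g * l := Nat.mul_le_mul_right l (by omega)
    omega
  have hch : Relation.ReflTransGen (SqB K v0 (4 * g * l)) (fl v0 b) (fun _ => v0) := by
    have e : fl v0 [v0] = fun _ => v0 := by
      funext i
      unfold fl
      cases i with
      | zero => rfl
      | succ i => rfl
    rw [← e]
    exact (chain_of_str hstr hb _ (by omega)).trans (hN0 _ hNN)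
  obtain ⟨m, D, hD0, hDl, hDr, hDt, hDs⟩ := grid_of_chain hch
  refine ⟨v0, l, m, fun k => fl v0 (γ k), D, ⟨by omega, fun k => e7_head (hγ k).head, fun k hk i hi => ?_, fun k i => e7_face (hγ k) i,
    fun s hs i hi => ?_, hDl, hDr, hDt, hDs⟩, ?_, ?_, ?_⟩
  · have := hl1 k hk
    exact e7_tail (hγ k).last i (by omega)
  · rw [hD0]
    exact hbot s hs i hi
  · intro H _ lab hlab
    rw [← h1 H _ lab hlab]
    unfold H32N.comm
    congr 1
    refine List.map_congr_left fun i hi => ?_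
    rw [List.mem_range] at hi
    show cm (holF lab (fl v0 (γ (2 * i))) l) (holF lab (fl v0 (γ (2 * i + 1))) l) = cm (hol lab (γ (2 * i))) (hol lab (γ (2 * i + 1)))
    rw [holF_fl lab v0 (γ (2 * i)) (hγ _).last l (hl1 _ (by omega)), holF_fl lab v0 (γ (2 * i + 1)) (hγ _).last l (hl1 _ (by omega))]
  · intro H _ σ hσ
    obtain ⟨lab, hlab, hlab2⟩ := h2 H _ σ hσ
    refine ⟨lab, hlab, fun k hk => ?_⟩
    rw [holF_fl lab v0 (γ k) (hγ k).last l (hl1 k hk)]
    exact hlab2 k hk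
  · intro H _ lab lab' hlab hlab' hh
    refine h3 H _ lab lab' hlab hlab' fun k hk => ?_
    have := hh k hk
    rw [holF_fl lab v0 (γ k) (hγ k).last l (hl1 k hk), holF_fl lab' v0 (γ k) (hγ k).last l (hl1 k hk)] at this
    exact this

theorem exists_marked {V : Type} [Fintype V] [DecidableEq V] {K : Cpx V} (hK : IsSurface K) (g : ℕ) (hg : 1 ≤ g) (hχ : K.euler = 2 - 2 * (g : ℤ)) :
    ∃ (v0 : V) (l m : ℕ) (c D : ℕ → ℕ → V), Marked K v0 g l m c D := by
  obtain ⟨v0, l, m, c, D, hD, h1, h2, h3⟩ := exists_disc2 hK g hg hχ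
  refine ⟨v0, l, m, c, D, hD, ?_, ?_, ?_⟩
  · intro P μ σ hμ hσ
    have e1 := h1 (Equiv.Perm P) inferInstance μ hμ
    have e2 : comm g (fun k => holF μ (c k) l) = comm g (fun k => if h : k < 2 * g then (σ ⟨k, h⟩)⁻¹ else 1) := by
      unfold H32N.comm
      congr 1
      refine List.map_congr_left fun i hi => ?_
      rw [List.mem_range] at hi
      show cm (holF μ (c (2 * i)) l) (holF μ (c (2 * i + 1)) l) = cm (if h : 2 * i < 2 * g then (σ ⟨2 * i, h⟩)⁻¹ else 1)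
        (if h : 2 * i + 1 < 2 * g then (σ ⟨2 * i + 1, h⟩)⁻¹ else 1)
      rw [dif_pos (by omega : 2 * i < 2 * g), dif_pos (by omega : 2 * i + 1 < 2 * g)]
      rw [← hσ ⟨2 * i, by omega⟩, ← hσ ⟨2 * i + 1, by omega⟩]
    rw [e2, comm_eq, inv_eq_one] at e1
    exact e1
  · intro P σ hσ
    obtain ⟨μ, hμ, hhol⟩ := h2 (Equiv.Perm P) inferInstance (fun k => if h : k < 2 * g then (σ ⟨k, h⟩)⁻¹ else 1) (by
      rw [comm_eq, hσ, inv_one])
    refine ⟨μ, hμ, fun k => ?_⟩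
    rw [hhol k.val k.isLt, dif_pos k.isLt]
  · intro P μ μ' σ hμ hμ' hσ hσ'
    refine h3 (Equiv.Perm P) inferInstance μ μ' hμ hμ' fun k hk => ?_
    rw [hσ ⟨k, hk⟩, hσ' ⟨k, hk⟩]

end H98A
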