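import Pool.Agent.Lib.H98A.T6

set_option autoImplicit false

/-!
# H98A, chunk T7: the gauge action
-/

open Finset

namespace H98A

open H32D H32N

variable {V : Type} [Fintype V] [DecidableEq V] {K : Cpx V} {H : Type} [Group H]

theorem act_adj (τ : V → H) (μ : V → V → H) {a b : V} (h : K.graph.Adj a b) : act K τ μ a b = τ a * μ a b * (τ b)⁻¹ := by
  unfold act
  rw [if_pos h]

theorem act_nadj (τ : V → H) (μ : V → V → H) {a b : V} (h : ¬ K.graph.Adj a b) : act K τ μ a b = 1 := by
  unfold act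
  rw [if_neg h]

theorem act_nrm (τ : V → H) (μ : V → V → H) : Nrm K (act K τ μ) := fun _ _ h => act_nadj τ μ h

theorem act_flat {μ : V → V → H} (hμ : Flat K μ) (τ : V → H) : Flat K (act K τ μ) := by
  refine ⟨fun a b => ?_, fun a b c hab hbc hac hf => ?_⟩
  · by_cases h : K.graph.Adj a b
    · rw [act_adj τ μ h, act_adj τ μ h.symm, hμ.inv a b]
      group
    · rw [act_nadj τ μ h, act_nadj τ μ (fun h' => h h'.symm), inv_one]
  · have hA : ∀ x y : V, x ∈ ({a, b, c} : Finset V) → y ∈ ({a, b, c} : Finset V) → x ≠ y → K.graph.Adj x y := by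
      intro x y hx hy hxy
      refine ⟨hxy, K.down _ hf _ ?_ (by simp)⟩
      intro z hz
      rw [Finset.mem_insert, Finset.mem_singleton] at hz
      rcases hz with rfl | rfl
      · exact hx
      · exact hy
    rw [act_adj τ μ (hA a b (by simp) (by simp) hab), act_adj τ μ (hA b c (by simp) (by simp) hbc),
      act_adj τ μ (hA a c (by simp) (by simp) hac), ← hμ.tri a b c hab hbc hac hf]
    group

theorem act_eq {μ μ' : V → V → H} (hn : Nrm K μ') {τ : V → H} (h : ∀ a b, K.graph.Adj a b → μ' a b = τ a * μ a b * (τ b)⁻¹) :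
    μ' = act K τ μ := by
  funext a b
  by_cases hab : K.graph.Adj a b
  · rw [act_adj τ μ hab, h a b hab]
  · rw [act_nadj τ μ hab, hn a b hab]

theorem lb_act (τ : V → H) (μ : V → V → H) {a b : V} (h : ({a, b} : Finset V) ∈ K.faces) :
    lb (act K τ μ) a b = τ a * lb μ a b * (τ b)⁻¹ := by
  unfold lb
  by_cases hab : a = b
  · rw [if_pos hab, if_pos hab, hab, mul_one, mul_inv_cancel]
  · rw [if_neg hab, if_neg hab]
    exact act_adj τ μ ⟨hab, h⟩

theorem holF_succ (μ : V → V → H) (c : ℕ → V) (n : ℕ) : holF μ c (n + 1) = holF μ c n * lb μ (c n) (c (n + 1)) := by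
  unfold holF
  rw [List.range_succ, List.map_append, List.prod_append]
  simp

theorem holF_act (τ : V → H) (μ : V → V → H) {c : ℕ → V} (hc : ∀ i, ({c i, c (i + 1)} : Finset V) ∈ K.faces) (n : ℕ) :
    holF (act K τ μ) c n = τ (c 0) * holF μ c n * (τ (c n))⁻¹ := by
  induction n with
  | zero =>
    show (1 : H) = τ (c 0) * 1 * (τ (c 0))⁻¹
    rw [mul_one, mul_inv_cancel]
  | succ n ih =>
    rw [holF_succ, holF_succ, ih, lb_act τ μ (hc n)]
    group

theorem act_hol {P : Type} {v0 : V} {g l m : ℕ} {c D : ℕ → ℕ → V} (hD : Disc K v0 g l m c D) {μ : V → V → Equiv.Perm P}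
    {τ : V → Equiv.Perm P} (hτ : τ v0 = 1) {σ : Fin (2 * g) → Equiv.Perm P} (hσ : Hol μ c l σ) : Hol (act K τ μ) c l σ := by
  intro k
  rw [holF_act τ μ (hD.cf k.val) l, hD.c0, hD.cl k.val k.isLt l le_rfl, hτ, hσ k]
  simp

theorem act_inj (hK : K.graph.Connected) {μ : V → V → H} {τ τ' : V → H} {v0 : V} (h0 : τ v0 = τ' v0) (h : act K τ μ = act K τ' μ) : τ = τ' := by
  have hstep : ∀ a b, K.graph.Adj a b → τ a = τ' a → τ b = τ' b := by
    intro a b hab ha
    have h1 := congrFun (congrFun h a) b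
    rw [act_adj τ μ hab, act_adj τ' μ hab, ha] at h1
    exact inv_injective (mul_left_cancel h1)
  have hwalk : ∀ a b : V, K.graph.Walk a b → τ a = τ' a → τ b = τ' b := by
    intro a b p
    induction p with
    | nil => exact id
    | cons hab _ ih => exact fun ha => ih (hstep _ _ hab ha)
  funext v
  obtain ⟨p⟩ := hK.preconnected v0 v
  exact hwalk v0 v p h0

end H98A
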