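import Pool.Agent.Lib.H98A.T7

set_option autoImplicit false

/-!
# H98A, chunk T8: labelled coverings correspond to solutions of the surface relation times gauge transformations
-/

open Finset

namespace H98A

open H32D H32N

/-- The gauge transformations which are trivial at `v0`. -/
abbrev Gau {V : Type} (v0 : V) (P : Type) : Type := {τ : V → Equiv.Perm P // τ v0 = 1}

theorem card_gau {V : Type} [Fintype V] [DecidableEq V] (v0 : V) (P : Type) [Fintype P] [DecidableEq P] :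
    Nat.card (Gau v0 P) = (Fintype.card P).factorial ^ (Fintype.card V - 1) := by
  have e : Gau v0 P ≃ ({v : V // v ≠ v0} → Equiv.Perm P) :=
    { toFun := fun τ v => τ.1 v.1
      invFun := fun f => ⟨fun v => if h : v = v0 then 1 else f ⟨v, h⟩, by simp⟩
      left_inv := fun τ => by
        ext v : 2
        by_cases h : v = v0
        · subst h
          simp [τ.2]
        · simp [h]
      right_inv := fun f => by
        funext v
        simp [v.2] }
  rw [Nat.card_congr e, Nat.card_eq_fintype_card, Fintype.card_fun, Fintype.card_perm]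
  congr 1
  simp

open Classical in
/-- The reference labelling with the given holonomies. -/
noncomputable def ref {V : Type} [Fintype V] [DecidableEq V] {K : Cpx V} {v0 : V} {g l m : ℕ} {c D : ℕ → ℕ → V} (hM : Marked K v0 g l m c D)
    (P : Type) (σ : Fin (2 * g) → Equiv.Perm P) : V → V → Equiv.Perm P :=
  if h : H98T.IsCov σ then Classical.choose (hM.real P σ h) else fun _ _ => 1

variable {V : Type} [Fintype V] [DecidableEq V] {K : Cpx V} {v0 : V} {g l m : ℕ} {c D : ℕ → ℕ → V}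

theorem ref_spec (hM : Marked K v0 g l m c D) {P : Type} {σ : Fin (2 * g) → Equiv.Perm P} (h : H98T.IsCov σ) :
    Flat K (ref hM P σ) ∧ Hol (ref hM P σ) c l σ := by
  unfold ref
  rw [dif_pos h]
  exact Classical.choose_spec (hM.real P σ h)

/-- The covering given by a gauge transformation and a solution. -/
noncomputable def psi (hM : Marked K v0 g l m c D) (P : Type) [Fintype P] [DecidableEq P] (x : Gau v0 P × (Fin (2 * g) → Equiv.Perm P)) :
    Cpx (V × P) := coverCpx K (act K x.1.1 (ref hM P x.2))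

theorem psi_spec (hM : Marked K v0 g l m c D) {P : Type} [Fintype P] [DecidableEq P] (x : Gau v0 P × (Fin (2 * g) → Equiv.Perm P))
    (h : H98T.IsCov x.2) : Flat K (act K x.1.1 (ref hM P x.2)) ∧ Hol (act K x.1.1 (ref hM P x.2)) c l x.2 :=
  ⟨act_flat (ref_spec hM h).1 _, act_hol hM.disc x.1.2 (ref_spec hM h).2⟩

theorem psi_inj (hM : Marked K v0 g l m c D) (hK : K.graph.Connected) {P : Type} [Fintype P] [DecidableEq P]
    {x y : Gau v0 P × (Fin (2 * g) → Equiv.Perm P)} (hx : H98T.IsCov x.2) (hy : H98T.IsCov y.2) (h : psi hM P x = psi hM P y) : x = y := by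
  obtain ⟨x1, x2⟩ := psi_spec hM x hx
  obtain ⟨y1, y2⟩ := psi_spec hM y hy
  have h1 := cover_inj x1 y1 (act_nrm _ _) (act_nrm _ _) h
  have h2 : x.2 = y.2 := by
    funext k
    have e1 := x2 k
    have e2 := y2 k
    rw [h1, e2] at e1
    exact (inv_injective e1).symm
  have h3 : x.1.1 = y.1.1 := by
    rw [← h2] at h1
    exact act_inj hK (x.1.2.trans y.1.2.symm) h1
  exact Prod.ext (Subtype.ext h3) h2

theorem psi_surj (hM : Marked K v0 g l m c D) {P : Type} [Fintype P] [DecidableEq P] {L : Cpx (V × P)} (hL : IsCovering Prod.fst L K) :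
    ∃ x : Gau v0 P × (Fin (2 * g) → Equiv.Perm P), H98T.IsCov x.2 ∧ psi hM P x = L := by
  obtain ⟨μ, h1, h2, h3⟩ := cov_rep hL
  obtain ⟨σ, hσ⟩ : ∃ σ : Fin (2 * g) → Equiv.Perm P, Hol μ c l σ := ⟨fun k => (holF μ (c k.val) l)⁻¹, fun k => (inv_inv _).symm⟩
  have hc := hM.cov P μ σ h1 hσ
  obtain ⟨r1, r2⟩ := ref_spec hM hc
  obtain ⟨τ, hτ, hτ2⟩ := hM.uniq P (ref hM P σ) μ σ r1 h1 r2 hσ
  refine ⟨(⟨τ, hτ⟩, σ), hc, ?_⟩
  show coverCpx K (act K τ (ref hM P σ)) = L
  rw [h3, ← act_eq h2 hτ2]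

theorem count_upper (hM : Marked K v0 g l m c D) {P : Type} [Fintype P] [DecidableEq P] (Q' : Cpx (V × P) → Prop)
    (Q : (Fin (2 * g) → Equiv.Perm P) → Prop) (h : ∀ μ σ, Flat K μ → Hol μ c l σ → Q' (coverCpx K μ) → Q σ) :
    Set.ncard {L : Cpx (V × P) | IsCovering Prod.fst L K ∧ Q' L} ≤
      (Fintype.card P).factorial ^ (Fintype.card V - 1) * Set.ncard {σ : Fin (2 * g) → Equiv.Perm P | H98T.IsCov σ ∧ Q σ} := by
  rw [← card_gau v0 P, ← Set.ncard_univ, ← Set.ncard_prod]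
  have hsub : {L : Cpx (V × P) | IsCovering Prod.fst L K ∧ Q' L} ⊆
      psi hM P '' ((Set.univ : Set (Gau v0 P)) ×ˢ {σ : Fin (2 * g) → Equiv.Perm P | H98T.IsCov σ ∧ Q σ}) := by
    rintro L ⟨hL, hQ⟩
    obtain ⟨x, hx, hxL⟩ := psi_surj hM hL
    refine ⟨x, ⟨Set.mem_univ _, hx, ?_⟩, hxL⟩
    obtain ⟨p1, p2⟩ := psi_spec hM x hx
    refine h _ _ p1 p2 ?_
    have : coverCpx K (act K x.1.1 (ref hM P x.2)) = L := hxL
    rw [this]
    exact hQ
  exact (Set.ncard_le_ncard hsub (Set.toFinite _)).trans (Set.ncard_image_le (Set.toFinite _))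

theorem count_lower (hM : Marked K v0 g l m c D) (hK : K.graph.Connected) {P : Type} [Fintype P] [DecidableEq P] [Nonempty P]
    (Q' : Cpx (V × P) → Prop) (Q : (Fin (2 * g) → Equiv.Perm P) → Prop)
    (h : ∀ μ σ, Flat K μ → Hol μ c l σ → Q σ → Q' (coverCpx K μ)) :
    (Fintype.card P).factorial ^ (Fintype.card V - 1) * Set.ncard {σ : Fin (2 * g) → Equiv.Perm P | H98T.IsCov σ ∧ Q σ} ≤
      Set.ncard {L : Cpx (V × P) | IsCovering Prod.fst L K ∧ Q' L} := by
  rw [← card_gau v0 P, ← Set.ncard_univ, ← Set.ncard_prod]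
  have hinj : Set.InjOn (psi hM P) ((Set.univ : Set (Gau v0 P)) ×ˢ {σ : Fin (2 * g) → Equiv.Perm P | H98T.IsCov σ ∧ Q σ}) :=
    fun x hx y hy hxy => psi_inj hM hK hx.2.1 hy.2.1 hxy
  rw [← Set.ncard_image_of_injOn hinj]
  refine Set.ncard_le_ncard ?_ (Set.toFinite _)
  rintro L ⟨x, hx, rfl⟩
  obtain ⟨p1, p2⟩ := psi_spec hM x hx.2.1
  exact ⟨cover_covering p1, h _ _ p1 p2 hx.2.2⟩

end H98A
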