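import Pool.Agent.Lib.H98A.T5
import Pool.Agent.Lib.H98A.T8

set_option autoImplicit false

/-!
# H98A, chunk T9: the topology theorem for all labelled coverings
-/

open Finset

namespace H98A

open H32D H32N

theorem topology2 {V : Type} [Fintype V] [DecidableEq V] (K : Cpx V) (hK : IsSurface K) (g : ℕ) (hg : 2 ≤ g) (hχ : K.euler = 2 - 2 * (g : ℤ))
    (n : ℕ) : ∃ (C0 : ℕ) (C h1 : ℝ), 0 < C ∧ 0 < h1 ∧ ∀ d : ℕ, 1 ≤ d →
      (∀ R : ℝ, Set.ncard {L : Cpx (V × Fin d) | IsCovering Prod.fst L K ∧ ∃ f : (V × Fin d → ℝ) → EuclideanSpace ℝ (Fin n),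
          ThickEmb L n f ∧ ∀ x ∈ L.real, ‖f x‖ ≤ R} ≤
        d.factorial ^ (Fintype.card V - 1) * Set.ncard {σ : Fin (2 * g) → Equiv.Perm (Fin d) | H98T.IsCov σ ∧
          ∀ N : ℕ, C * (R + 1) ≤ N → H98T.Digi σ n C0 N}) ∧
      d.factorial ^ (Fintype.card V - 1) * Set.ncard {σ : Fin (2 * g) → Equiv.Perm (Fin d) | H98T.IsCov σ ∧ H98T.Expand (H98T.two σ)} ≤
        Set.ncard {L : Cpx (V × Fin d) | IsCovering Prod.fst L K ∧ IsSurface L ∧ Expands L.graph h1} := by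
  obtain ⟨v0, l, m, c, D, hM⟩ := exists_marked hK g (by omega) hχ
  obtain ⟨h1, hh1, hexp⟩ := cover_expands2 hK.conn (by omega : 1 ≤ g) hM.disc
  refine ⟨4 * (4 * g * l + 2) * (m + 2), 4 * ((n : ℝ) + 1), h1, by positivity, hh1, fun d hd => ?_⟩
  have : Nonempty (Fin d) := ⟨⟨0, by omega⟩⟩
  constructor
  · intro R
    have h2 := count_upper hM (P := Fin d) (fun L => ∃ f : (V × Fin d → ℝ) → EuclideanSpace ℝ (Fin n),
      ThickEmb L n f ∧ ∀ x ∈ L.real, ‖f x‖ ≤ R) (fun σ => ∀ N : ℕ, 4 * ((n : ℝ) + 1) * (R + 1) ≤ N →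
        H98T.Digi σ n (4 * (4 * g * l + 2) * (m + 2)) N) (fun μ σ hμ hσ hf N hN => by
          obtain ⟨f, hf, hR⟩ := hf
          exact digi_of_emb hμ hM.disc σ hσ n f hf R hR N hN)
    rw [Fintype.card_fin] at h2
    exact h2
  · have h2 := count_lower hM hK.conn (P := Fin d) (fun L => IsSurface L ∧ Expands L.graph h1) (fun σ => H98T.Expand (H98T.two σ))
      (fun μ σ hμ hσ hE => by
        have hex := hexp (Fin d) inferInstance inferInstance μ hμ σ hσ hE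
        exact ⟨cover_surface hK hμ hh1 hex, hex⟩)
    rw [Fintype.card_fin] at h2
    exact h2

end H98A
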